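import Mathlib
import Pool.Agent.Lib.MP_4a1067_nt.AmStepE

set_option maxSynthPendingDepth 8

namespace Pool.Agent.FS.FiveEighths

open Polynomial Pool.Agent.Lib.MP_4a1067_nt Pool.Agent.Lib.MP_4a1067_nt.Am
open scoped PowerSeries

/-- data for the Stepanov method on a curve with a filtration, given through its branches -/
structure Dat (κ P μ : Type*) [Field κ] [CommRing P] [Algebra κ P] [Fintype μ]
    (p L Ψ : ℕ) (S : Finset κ) where
  W : ℕ → Submodule κ P
  mono : ∀ {m n : ℕ}, m ≤ n → W m ≤ W n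
  mul : ∀ {m n : ℕ} {a b : P}, a ∈ W m → b ∈ W n → a * b ∈ W (m + n)
  one : (1 : P) ∈ W 0
  fin : ∀ n, FiniteDimensional κ (W n)
  x : P
  x_mem : x ∈ W 1
  m : μ → P
  m_mem : ∀ i, m i ∈ W L
  I : Ideal P
  φ : κ → (P →ₐ[κ] κ⟦X⟧)
  φx : ∀ b ∈ S, φ b x = PowerSeries.C b + PowerSeries.X
  ker : ∀ b ∈ S, ∀ q, φ b q = 0 ↔ q ∈ I
  indep : ∀ (J : ℕ) (d : Fin J → μ → κ), ∑ a, ∑ i, d a i • (x ^ (a : ℕ) * m i) ∈ I → d = 0
  dim : ∀ n, Module.finrank κ ((W n).map (Ideal.Quotient.mkₐ κ I).toLinearMap) ≤ Ψ * (n + L)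
  δ : P
  D : P →ₗ[κ] P
  D_mem : ∀ {n : ℕ} {q : P}, q ∈ W n → D q ∈ W (n + 2 * L)
  chain : ∀ b ∈ S, ∀ q, φ b δ * PowerSeries.derivative κ (φ b q) = φ b (D q)
  δ_ne : ∀ b ∈ S, PowerSeries.constantCoeff (φ b δ) ≠ 0
  frob : ∀ b ∈ S, b ^ p = b ∧
    ∀ i, PowerSeries.constantCoeff (φ b (m i)) ^ p = PowerSeries.constantCoeff (φ b (m i))

namespace Dat

variable {κ P μ : Type*} [Field κ] [CommRing P] [Algebra κ P] [Fintype μ] {p L Ψ : ℕ}
  {S : Finset κ} (Z : Dat κ P μ p L Ψ S) {ι : Type*} [Fintype ι] [DecidableEq ι]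

lemma pow_mem {n : ℕ} {q : P} (h : q ∈ Z.W n) (k : ℕ) : q ^ k ∈ Z.W (k * n) := by
  induction k with
  | zero => rw [pow_zero, zero_mul]; exact Z.one
  | succ k ih => rw [pow_succ, Nat.succ_mul]; exact Z.mul ih h

lemma prod_mem {α : Type*} (s : Finset α) (f : α → P) {n : ℕ} (h : ∀ i ∈ s, f i ∈ Z.W n) :
    ∏ i ∈ s, f i ∈ Z.W (s.card * n) := by
  classical
  induction s using Finset.induction_on with
  | empty => rw [Finset.prod_empty, Finset.card_empty, zero_mul]; exact Z.one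
  | insert a s ha ih =>
    rw [Finset.prod_insert ha, Finset.card_insert_of_notMem ha, Nat.succ_mul, mul_comm (f a)]
    exact Z.mul (ih fun i hi => h i (Finset.mem_insert_of_mem hi))
      (h a (Finset.mem_insert_self a s))

lemma mon_mem {a J : ℕ} (h : a ≤ J) (i : μ) : Z.x ^ a * Z.m i ∈ Z.W (J + L) :=
  Z.mul (Z.mono (by omega) (Z.pow_mem Z.x_mem a)) (Z.m_mem i)

/-- the combination of monomials with given coefficients -/
noncomputable def cmb {J : ℕ} (d : Fin J → μ → κ) : P :=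
  ∑ a, ∑ i, d a i • (Z.x ^ (a : ℕ) * Z.m i)

lemma cmb_mem {J : ℕ} (d : Fin J → μ → κ) : Z.cmb d ∈ Z.W (J + L) :=
  Submodule.sum_mem _ fun a _ => Submodule.sum_mem _ fun i _ =>
    Submodule.smul_mem _ _ (Z.mon_mem a.2.le i)

/-- the operator acting on the coefficient of the power (∏ i ∈ T, G i) ^ k -/
noncomputable def opT (G : ι → P) (k : ℕ) (T : Finset ι) (q : P) : P :=
  (∏ i, G i) * Z.D q + (k : P) * (∏ i ∈ Tᶜ, G i) * Z.D (∏ i ∈ T, G i) * q

/-- the auxiliary function -/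
noncomputable def aux (G : ι → P) {A : ℕ} (c : Finset ι → Fin L → μ → Fin A → μ → κ) : P :=
  ∑ T, ∑ j, ∑ k, Z.cmb (c T j k) * (Z.x ^ (j : ℕ) * Z.m k) ^ p * (∏ i ∈ T, G i) ^ (p / 2)

end Dat

section Three
variable {κ : Type*} [Field κ]

/-- evaluation of a polynomial in three variables -/
noncomputable def ev3 {R : Type*} [CommRing R] [Algebra κ R] (x y z : R) :
    κ[X][X][X] →ₐ[κ] R :=
  eval₂AlgHom (aevalAeval x y) z fun _ => Commute.all _ _

/-- polynomials of degree at most `n` in each of the three variables -/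
def W3 (κ : Type*) [Field κ] (n : ℕ) : Submodule κ κ[X][X][X] where
  carrier := {q | q.natDegree ≤ n ∧ ∀ i, q.coeff i ∈ Bd κ n n}
  add_mem' := fun {a b} ha hb => ⟨(natDegree_add_le _ _).trans (max_le ha.1 hb.1), fun i => by
    rw [coeff_add]; exact add_mem (ha.2 i) (hb.2 i)⟩
  zero_mem' := ⟨by simp, fun i => by rw [coeff_zero]; exact zero_mem _⟩
  smul_mem' := fun c a ha => ⟨(natDegree_smul_le _ _).trans ha.1, fun i => by
    rw [coeff_smul]; exact Submodule.smul_mem _ _ (ha.2 i)⟩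

lemma mem_W3 {n : ℕ} {q : κ[X][X][X]} :
    q ∈ W3 κ n ↔ q.natDegree ≤ n ∧ ∀ i, q.coeff i ∈ Bd κ n n := Iff.rfl

/-- a polynomial in the first and the third variable -/
noncomputable def in2 (q : κ[X][X]) : κ[X][X][X] := q.map (C : κ[X] →+* κ[X][X])

/-- the product of the values of `g` at the second and at the third variable -/
noncomputable def g3 (g : κ[X]) : κ[X][X][X] :=
  C (g.map (C : κ →+* κ[X])) * in2 (g.map (C : κ →+* κ[X]))

variable {R : Type*} [CommRing R] [Algebra κ R] (x y z : R)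

lemma ev3_apply (q : κ[X][X][X]) :
    ev3 x y z q = q.eval₂ (aevalAeval x y : κ[X][X] →ₐ[κ] R) z := rfl

lemma ev3_C (q : κ[X][X]) : ev3 x y z (C q) = aevalAeval x y q := by
  rw [ev3_apply, eval₂_C]; rfl

lemma ev3_X : ev3 x y z (X : κ[X][X][X]) = z := by
  rw [ev3_apply, eval₂_X]

lemma ev3_monomial (n : ℕ) (q : κ[X][X]) :
    ev3 x y z (monomial n q) = aevalAeval x y q * z ^ n := by
  rw [← C_mul_X_pow_eq_monomial, map_mul, map_pow, ev3_C, ev3_X]

lemma ev3_in2 (q : κ[X][X]) : ev3 x y z (in2 q) = aevalAeval x z q := by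
  unfold in2
  induction q using Polynomial.induction_on' with
  | add a b ha hb => rw [Polynomial.map_add, map_add, map_add, ha, hb]
  | monomial n a =>
    rw [Polynomial.map_monomial, ev3_monomial, aevalAeval_C, ← C_mul_X_pow_eq_monomial, map_mul,
      map_pow, aevalAeval_C, aevalAeval_Y]

lemma aevalAeval_mapC (g : κ[X]) : aevalAeval x y (g.map (C : κ →+* κ[X])) = aeval y g := by
  induction g using Polynomial.induction_on' with
  | add a b ha hb => rw [Polynomial.map_add, map_add, map_add, ha, hb]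
  | monomial n a =>
    rw [Polynomial.map_monomial, ← C_mul_X_pow_eq_monomial, map_mul, map_pow, aevalAeval_C,
      aevalAeval_Y, aeval_monomial, aeval_C]

lemma ev3_g3 (g : κ[X]) : ev3 x y z (g3 g) = aeval y g * aeval z g := by
  rw [g3, map_mul, ev3_C, ev3_in2, aevalAeval_mapC, aevalAeval_mapC]

lemma map_ev3 {R' : Type*} [CommRing R'] [Algebra κ R'] (f : R →ₐ[κ] R') (q : κ[X][X][X]) :
    f (ev3 x y z q) = ev3 (f x) (f y) (f z) q := by
  have h2 : ∀ a : κ[X][X], f (aevalAeval x y a) = aevalAeval (f x) (f y) a := by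
    intro a
    induction a using Polynomial.induction_on' with
    | add a b ha hb => rw [map_add, map_add, map_add, ha, hb]
    | monomial n a =>
      rw [← C_mul_X_pow_eq_monomial, map_mul, map_mul, map_mul, map_pow, map_pow, map_pow,
        aevalAeval_C, aevalAeval_C, aevalAeval_Y, aevalAeval_Y, aeval_algHom_apply]
  induction q using Polynomial.induction_on' with
  | add a b ha hb => rw [map_add, map_add, map_add, ha, hb]
  | monomial n a => rw [ev3_monomial, ev3_monomial, map_mul, map_pow, h2]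

end Three

/-- admissible parameters for the amplifier -/
structure Adm3 (p T L k : ℕ) (𝒜 ℒ : Finset ℕ) : Prop where
  T₁ : 16 * T ^ 2 < p
  T₂ : p ≤ 25 * T ^ 2
  hA : ∀ A ∈ 𝒜, A.Prime ∧ 50 ≤ A ∧ 50 * A ≤ T
  hL : ∀ ℓ ∈ ℒ, ℓ.Prime ∧ 60 * 2 ^ (12 + k) < ℓ ∧ ℓ + 1 ≤ L ∧ L < 2 * ℓ
  card : 100 ≤ ℒ.card
  LT : 100 * L ^ 2 ≤ T
  sz : 1024 * (2 ^ k) ^ 2 * L ^ 6 ≤ p

end Pool.Agent.FS.FiveEighths
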