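import Mathlib
import Pool.Agent.FS.FiveEighths.Def
import Pool.Agent.Lib.MP_4a1067_nt.AmFam

set_option maxSynthPendingDepth 8

namespace Pool.Agent.FS.FiveEighths

open Polynomial Pool.Agent.Lib.MP_4a1067_nt Pool.Agent.Lib.MP_4a1067_nt.Am
open scoped PowerSeries

theorem cm_family3 (p : ℕ) [Fact p.Prime] (s : ℤ) (h0 : 0 < s) (h1 : 4 * s ^ 2 < p)
    (h2 : (4 : ℤ) ∣ p + 1 - 2 * s) :
    ∃ (a : ℕ → ZMod p) (b : ℕ → ℕ → ZMod p), ∀ A ℓ : ℕ, A.Prime → A ≠ 2 → 16 * A ^ 2 < 3 * p →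
      Spl p A s → ℓ.Prime → ℓ ≠ 2 → ℓ ≠ p → Spl p ℓ s →
        a A ≠ 0 ∧ a A ≠ 1 ∧ b A ℓ ≠ 0 ∧ b A ℓ ≠ 1 ∧
        Hs (p / 2) (a A) ^ 2 = ((2 * s : ℤ) : ZMod p) ^ 2 ∧
        Hs (p / 2) (b A ℓ) ^ 2 = ((2 * s : ℤ) : ZMod p) ^ 2 ∧ Lnk p ℓ (a A) (b A ℓ) ∧
        ∀ A' : ℕ, A'.Prime → A' ≠ 2 → 16 * A' ^ 2 < 3 * p → Spl p A' s →
          (a A = a A' → A = A') ∧ (b A ℓ = b A' ℓ → A = A') := by
  classical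
  have hp : p.Prime := Fact.out
  obtain ⟨h, rfl⟩ : ∃ h, p = 2 * h + 1 := ⟨p / 2, by omega⟩
  obtain ⟨V, ρ, n₁, C₀⟩ := exists_cmd h hp s h0 (by exact_mod_cast h1) (by push_cast at h2; omega)
  have hchar : CharP (IsLocalRing.ResidueField V) (2 * h + 1) :=
    (CharP.charP_iff_prime_eq_zero hp).mpr (by have := C₀.hV; rwa [rd_natCast] at this)
  have hp2 : 2 * h + 1 ≠ 2 := by omega
  have hh : (2 * h + 1) / 2 = h := by omega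
  rw [hh]
  let PA : ℕ → Prop := fun A => Odd A ∧ Spl (2 * h + 1) A s
  let PL : ℕ → Prop := fun ℓ => ℓ.Prime ∧ ℓ ≠ 2 ∧ ℓ ≠ 2 * h + 1 ∧ Spl (2 * h + 1) ℓ s
  choose L θ ω₁ ω₂ ω₃ hL hθ hst H E hEm hE1 using
    fun (A : ℕ) (hA : PA A) => amFam_base C₀ hA.1 hA.2
  choose a a0 a1 ha haH using fun (A : ℕ) (hA : PA A) =>
    C₀.red (hst A hA) (H A hA) (E A hA) (hEm A hA) (hE1 A hA)
  have hroot : ∀ ℓ : ℕ, PL ℓ → ∃ r : ℤ, (ℓ : ℤ) ∣ r ^ 2 - (s - 1) * r + n₁ := by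
    rintro ℓ ⟨a1, a2, -, ⟨r, hr⟩, -⟩
    exact exists_root ℓ (a1.odd_of_ne_two a2) r (by rwa [amFam_disc C₀])
  choose r hr using hroot
  choose b b0 b1 hH hb using fun (A : ℕ) (hA : PA A) (ℓ : ℕ) (hℓ : PL ℓ) =>
    amFam_step C₀ (hst A hA) (H A hA) ⟨E A hA, hEm A hA, hE1 A hA⟩ hℓ.1 hℓ.2.1 hℓ.2.2.1 hℓ.2.2.2
      (r ℓ hℓ) (hr ℓ hℓ)
  refine ⟨fun A => if hA : PA A then a A hA else 0,
    fun A ℓ => if hA : PA A then if hℓ : PL ℓ then b A hA ℓ hℓ else 0 else 0, ?_⟩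
  intro A ℓ p1 p2 p3 p4 c1 c2 c3 c4
  have hA : PA A := ⟨p1.odd_of_ne_two p2, p4⟩
  have hℓ : PL ℓ := ⟨c1, c2, c3, c4⟩
  simp only [dif_pos hA, dif_pos hℓ]
  obtain ⟨L₁, Q₁, E₁, hc₁, H₁, st₁, gen₁, m₁, n₁', e₁⟩ := hb A hA ℓ hℓ
  refine ⟨a0 A hA, a1 A hA, b0 A hA ℓ hℓ, b1 A hA ℓ hℓ, haH A hA, hH A hA ℓ hℓ, ?_, ?_⟩
  · refine lnk_of_cyc (2 * h + 1) hp2 (c1.odd_of_ne_two c2) c1.one_lt ?_ (H A hA) (E A hA) E₁ hc₁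
      (hEm A hA) m₁ _ _ (a0 A hA) (a1 A hA) (ha A hA) e₁
    intro hd
    exact c3 ((Nat.prime_dvd_prime_iff_eq hp c1).mp hd).symm
  · intro A' p1' p2' p3' p4'
    have hA' : PA A' := ⟨p1'.odd_of_ne_two p2', p4'⟩
    simp only [dif_pos hA']
    refine ⟨fun e => ?_, fun e => ?_⟩
    · obtain ⟨c, hc, hs⟩ := C₀.inj (hst A hA) (hst A' hA') (H A hA) (H A' hA') (E A hA) (E A' hA')
        (hEm A hA) (hEm A' hA') (hE1 A hA) (by rw [← ha A hA, ← ha A' hA', e])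
      exact form_inj (hL A hA) (hL A' hA') p1 p1' (hθ A hA) (hθ A' hA') (amFam_small C₀ p3)
        (amFam_small C₀ p3') hc hs
    · obtain ⟨L₂, Q₂, E₂, -, H₂, st₂, gen₂, m₂, -, e₂⟩ := hb A' hA' ℓ hℓ
      obtain ⟨c, hc, hs⟩ := C₀.inj st₁ st₂ H₁ H₂ E₁ E₂ m₁ m₂ n₁' (by rw [← e₁, ← e₂, e])
      exact form_inj (hL A hA) (hL A' hA') p1 p1' (hθ A hA) (hθ A' hA') (amFam_small C₀ p3)
        (amFam_small C₀ p3') hc (amFam_scl hc gen₁ gen₂ hs)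

end Pool.Agent.FS.FiveEighths
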