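import Mathlib
import Pool.Agent.FS.FiveEighths.Def
import Pool.Agent.Lib.MP_4a1067_nt.AmGen2

set_option maxSynthPendingDepth 8

namespace Pool.Agent.FS.FiveEighths

open Polynomial Pool.Agent.Lib.MP_4a1067_nt Pool.Agent.Lib.MP_4a1067_nt.Am
open scoped PowerSeries

variable {L : PeriodPair} {ω₁ ω₂ ω₃ : ℂ} {ℓ ℓ' : ℕ}

theorem end_finite1 (hℓ : ℓ.Prime) :
    ∃ S : Finset ℂ, S.card ≤ ℓ + 1 ∧ End L ω₁ ω₂ ω₃ ℓ ⊆ S := by
  classical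
  have h1 : ∀ M : Submodule ℤ ℂ, ∃ v : ℂ, ∀ (L' : PeriodPair) (E' : Leg L' ω₁ ω₂ ω₃),
      L'.lattice = M → -2 / E'.lam = v := by
    intro M
    by_cases hM : ∃ (L' : PeriodPair) (_ : Leg L' ω₁ ω₂ ω₃), L'.lattice = M
    · obtain ⟨L₀, E₀, h₀⟩ := hM
      exact ⟨-2 / E₀.lam, fun L' E' h' => by rw [(leg_congr (h'.trans h₀.symm) E₀ E').2.1]⟩
    · exact ⟨0, fun L' E' h' => absurd ⟨L', E', h'⟩ hM⟩
  choose v hv using h1
  obtain ⟨S₀, hS, hS'⟩ := count_prime L hℓ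
  refine ⟨S₀.image v, Finset.card_image_le.trans hS, ?_⟩
  rintro w ⟨L', Q, E', hc, rfl⟩
  exact Finset.mem_coe.2 (Finset.mem_image.2 ⟨L'.lattice, hS' L' Q hc, (hv _ L' E' rfl).symm⟩)

theorem rel1 (H : Half L ω₁ ω₂ ω₃) (E : Leg L ω₁ ω₂ ω₃) (ha : Transcendental ℤ (-2 / E.lam))
    (hℓ : ℓ.Prime) (h2 : ℓ ≠ 2) {κ Ω : Type*} [CommRing κ]
    [Field Ω] [Algebra κ Ω] (P : Pl ℂ Ω) (G : Good P.A ℓ E.lam) {w : ℂ}
    (hw : w ∈ End L ω₁ ω₂ ω₃ ℓ) :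
    ∃ q : κ[X][X], q ≠ 0 ∧ q.natDegree ≤ ℓ + 1 ∧
      aevalAeval (P.ev (-2 / E.lam)) (P.ev w) q = 0 ∧
      ∀ y : Ω, aevalAeval (P.ev (-2 / E.lam)) y q = 0 →
        ∃ t ∈ End L ω₁ ω₂ ω₃ ℓ, y = P.ev t := by
  have hn : Odd ℓ := hℓ.odd_of_ne_two h2
  have hn1 : 1 < ℓ := hℓ.one_lt
  obtain ⟨S, s1, s2, s3⟩ := deg_poly H E ha hn hn1 hw
  obtain ⟨S', c1, c2⟩ := end_finite1 (L := L) (ω₁ := ω₁) (ω₂ := ω₂) (ω₃ := ω₃) hℓ
  have hS : ∀ r ∈ S, r ∈ P.A := fun r hr => (end_Bz H E hn hn1 P.ic G (s3 hr)).1.mem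
  have hcard : S.card ≤ ℓ + 1 :=
    (Finset.card_le_card (Finset.coe_subset.1 (s3.trans c2))).trans c1
  have hf : 2 * ((ℓ : ℕ) : Ω) * P.ev (-2 / E.lam) * (P.ev (-2 / E.lam) + 2) ≠ 0 := by
    have h0 := P.ev_ne G.un_f.2
    have a := G.un_f.1.mem
    rwa [P.ev_mul (mul_mem (mul_mem G.two.mem G.n.mem) a) (add_mem a G.two.mem),
      P.ev_mul (mul_mem G.two.mem G.n.mem) a, P.ev_mul G.two.mem G.n.mem, P.ev_add a G.two.mem,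
      P.ev_two, P.ev_natCast] at h0
  obtain ⟨N, q, q1, q2, q3⟩ := clr (κ := κ) ℓ _ hf (∏ r ∈ S, (X - C (P.ev r))) fun i => by
    rw [(P.ev_coeff_prod S hS i).2]
    exact P.ev_mem_Bz G.Bz_le G.un_f.2.ne (s2 i)
  refine ⟨q, ?_, q1.trans ?_, ?_, fun y hy => ?_⟩
  · rintro rfl
    rw [Polynomial.map_zero] at q2
    exact mul_ne_zero (C_ne_zero.2 (pow_ne_zero N hf))
      (monic_prod_of_monic _ _ fun r _ => monic_X_sub_C (P.ev r)).ne_zero q2.symm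
  · rw [natDegree_prod_of_monic _ _ fun r _ => monic_X_sub_C (P.ev r)]
    simpa using hcard
  · rw [q3, eval_prod, Finset.prod_eq_zero s1 (by simp), mul_zero]
  · rw [q3, eval_prod, mul_eq_zero, Finset.prod_eq_zero_iff] at hy
    obtain ⟨t, ht, e⟩ := hy.resolve_left (pow_ne_zero N hf)
    rw [eval_sub, eval_X, eval_C, sub_eq_zero] at e
    exact ⟨t, s3 ht, e⟩

theorem rel1' (H : Half L ω₁ ω₂ ω₃) (E : Leg L ω₁ ω₂ ω₃) (ha : Transcendental ℤ (-2 / E.lam))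
    (hℓ : ℓ.Prime) (h2 : ℓ ≠ 2) {κ Ω : Type*} [CommRing κ]
    [Field Ω] [Algebra κ Ω] (P : Pl ℂ Ω) (G : Good P.A ℓ E.lam) {w : ℂ}
    (hw : w ∈ End L ω₁ ω₂ ω₃ ℓ) :
    ∃ q : κ[X][X], q ≠ 0 ∧ (∀ i, (q.coeff i).natDegree ≤ ℓ + 1) ∧
      aevalAeval (P.ev (-2 / E.lam)) (P.ev w) q = 0 := by
  have hn : Odd ℓ := hℓ.odd_of_ne_two h2
  have hn1 : 1 < ℓ := hℓ.one_lt
  have ha' := transc_end H E ha hn hn1 hw
  obtain ⟨L', Q, E', hc, rfl⟩ := hw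
  have G' : Good P.A ℓ E'.lam := by
    obtain ⟨h, e⟩ := hn
    exact (lat H E E' (e ▸ hc) (by omega) P (e ▸ dvd_rfl) G).1
  obtain ⟨q, q0, q1, q2, -⟩ := rel1 (κ := κ) (hc.half hn H) E' ha' hℓ h2 P G'
    (dual_end H E hc hn)
  refine ⟨Bivariate.swap q, (map_ne_zero_iff _ Bivariate.swap.injective).2 q0, fun i => ?_,
    by rw [Bivariate.aevalAeval_swap, q2]⟩
  refine natDegree_le_iff_coeff_eq_zero.2 fun j hj => ?_
  rw [ampoly_swap, coeff_eq_zero_of_natDegree_lt (q1.trans_lt hj), coeff_zero]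

/-- the two kinds of neighbours at the cusp -/
theorem cusp1 (H : Half L ω₁ ω₂ ω₃) (E : Leg L ω₁ ω₂ ω₃) (hℓ : ℓ.Prime) (h2 : ℓ ≠ 2) (p : ℕ)
    (hp : p.Prime) (hsz : ℓ ^ 2 < p) {κ Ω : Type*} [Field κ] [Field Ω] [Algebra κ Ω] [CharP Ω p]
    (P : Pl ℂ Ω) (G : Good P.A ℓ E.lam) (U : ValuationSubring Ω)
    (hκ : ∀ c : κ, algebraMap κ Ω c ∈ U) (hU : 1 < U.valuation (P.ev (-2 / E.lam))) :
    ∃ S₀ S₁ : Finset ℂ, S₀.card ≤ 1 ∧ S₁.card ≤ ℓ ∧ ∀ w ∈ End L ω₁ ω₂ ω₃ ℓ,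
      (w ∈ S₀ ∧ U.valuation (P.ev w) = U.valuation (P.ev (-2 / E.lam)) ^ ℓ) ∨
      (w ∈ S₁ ∧ U.valuation (P.ev w) ^ ℓ = U.valuation (P.ev (-2 / E.lam))) := by
  classical
  have : Fact p.Prime := ⟨hp⟩
  have hodd : Odd ℓ := hℓ.odd_of_ne_two h2
  have a2 := hℓ.two_le
  have hp2 : 2 < p := by nlinarith
  obtain ⟨h, hh⟩ := id hodd
  have hh1 : 1 ≤ h := by omega
  obtain ⟨W, w1, -, w3⟩ := P.exists_val₂ U
  have v2 : U.valuation (2 : Ω) = 1 := by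
    have := amgen_val_nat U hκ 2 (by
      have := P.ev_ne G.two
      rwa [P.ev_two] at this)
    simpa using this
  have par : ∀ {l : ℂ}, Good P.A ℓ l →
      U.valuation (P.ev (-2 / l)) = (U.valuation (P.ev l))⁻¹ := fun G' => by
    rw [P.ev_par G', map_div₀, Valuation.map_neg, v2, one_div]
  have hl : W.valuation E.lam < 1 := by
    refine w1 _ G.lam.mem ?_
    rw [par G] at hU
    exact (one_lt_inv₀ (zero_lt_iff.mpr ((_root_.map_ne_zero _).mpr (P.ev_ne G.lam)))).mp hU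
  have cW : CharP (IsLocalRing.ResidueField W) p := by
    rw [CharP.charP_iff_prime_eq_zero hp, ← rd_natCast, rd_eq_zero_iff (natCast_mem _ _)]
    refine w1 _ (natCast_mem _ _) ?_
    rw [P.ev_natCast, CharP.cast_eq_zero, map_zero]
    exact zero_lt_one
  have nz : ∀ m : ℕ, 0 < m → m < p → (m : IsLocalRing.ResidueField W) ≠ 0 := fun m h0 h1 h' =>
    absurd (Nat.le_of_dvd h0 ((CharP.cast_eq_zero_iff _ p m).mp h')) (by omega)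
  have nz2 : ∀ m : ℕ, 2 ≤ m → m ^ 2 < p → (m : IsLocalRing.ResidueField W) ^ 2 ≠ 1 := by
    intro m h0 h1 h'
    have h3 : 1 < m ^ 2 := by nlinarith
    refine nz (m ^ 2 - 1) (by omega) (by omega) ?_
    rw [Nat.cast_sub h3.le, Nat.cast_pow, h', Nat.cast_one, sub_self]
  obtain ⟨f, hf⟩ := amcusp2_val ω₁ ω₂ ω₃
  obtain ⟨A, D, hA, hD, hc₀⟩ := cusp_prime H E W hl hℓ h2 (by simpa using nz 2 two_pos hp2)
    (nz ℓ (by omega) (by nlinarith)) (nz2 ℓ a2 hsz)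
  refine ⟨A.image f, D.image f, Finset.card_image_le.trans hA, Finset.card_image_le.trans hD, ?_⟩
  rintro w ⟨L', Q, E', hc, rfl⟩
  have G' : Good P.A ℓ E'.lam := (lat H E E' (hh ▸ hc) hh1 P (hh ▸ dvd_rfl) G).1
  rcases hc₀ L' Q E' hc with ⟨m1, m2⟩ | ⟨m1, m2⟩
  · refine Or.inl ⟨Finset.mem_image.2 ⟨_, m1, hf L' E'⟩, ?_⟩
    have := w3 _ _ G'.lam (G.lam.pow ℓ) (by rwa [map_pow])
    rw [P.ev_pow G.lam.mem, map_pow] at this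
    rw [par G, par G', inv_pow, this]
  · refine Or.inr ⟨Finset.mem_image.2 ⟨_, m1, hf L' E'⟩, ?_⟩
    have := w3 _ _ (G'.lam.pow ℓ) G.lam (by rwa [map_pow])
    rw [P.ev_pow G'.lam.mem, map_pow] at this
    rw [par G, par G', inv_pow, this]

end Pool.Agent.FS.FiveEighths
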