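import Mathlib
import Pool.Agent.FS.FiveEighths.Rel

set_option maxSynthPendingDepth 8

namespace Pool.Agent.FS.FiveEighths

open Polynomial Pool.Agent.Lib.MP_4a1067_nt Pool.Agent.Lib.MP_4a1067_nt.Am
open scoped PowerSeries

open IntermediateField

variable {L : PeriodPair} {ω₁ ω₂ ω₃ : ℂ} {ℓ ℓ' : ℕ}

lemma gen_nonempty (H : Half L ω₁ ω₂ ω₃) (hℓ : ℓ.Prime) (h2 : ℓ ≠ 2) :
    ∃ w, w ∈ End L ω₁ ω₂ ω₃ ℓ := by
  have hn' : (ℓ : ℂ) ≠ 0 := by exact_mod_cast hℓ.pos.ne'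
  have a2 := hℓ.two_le
  have B := amlat2_std L
  have he : (ℓ : ℂ) * (((1 : ℤ) * L.ω₁ + (0 : ℤ) * L.ω₂) / ℓ) = (1 : ℤ) * L.ω₁ + (0 : ℤ) * L.ω₂ := by
    field_simp
  have hord : Ord L (((1 : ℤ) * L.ω₁ + (0 : ℤ) * L.ω₂) / ℓ) ℓ := by
    refine ord_of_prime hℓ ((B.mem _).2 ⟨1, 0, he⟩) fun h => ?_
    obtain ⟨c, d, hcd⟩ := (B.mem _).1 h
    obtain ⟨e1, -⟩ := amlat2_eq B (a := 1) (b := 0) (c := ℓ * c) (d := ℓ * d)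
      (by rw [← he, hcd]; push_cast; ring)
    have := Int.le_of_dvd one_pos (⟨c, e1⟩ : (ℓ : ℤ) ∣ 1)
    omega
  obtain ⟨L', hc⟩ := exists_cyc hℓ.pos hord
  obtain ⟨E', -⟩ := exists_leg (hc.half (hℓ.odd_of_ne_two h2) H)
  exact ⟨_, L', _, E', hc, rfl⟩

/-- the neighbours of prime index form one orbit -/
theorem gen1 (H : Half L ω₁ ω₂ ω₃) (E : Leg L ω₁ ω₂ ω₃) (ha : Transcendental ℤ (-2 / E.lam))
    (hℓ : ℓ.Prime) (h2 : ℓ ≠ 2) (p : ℕ) (hp : p.Prime) (hsz : ℓ ^ 2 < p) {κ Ω : Type*} [Field κ]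
    [IsAlgClosed κ] [Field Ω] [IsAlgClosed Ω] [Algebra κ Ω] [CharP Ω p] (P : Pl ℂ Ω)
    (G : Good P.A ℓ E.lam) (hu : Transcendental κ (P.ev (-2 / E.lam))) (U : ValuationSubring Ω)
    (hκ : ∀ c : κ, algebraMap κ Ω c ∈ U) (hU : 1 < U.valuation (P.ev (-2 / E.lam))) :
    ∃ w ∈ End L ω₁ ω₂ ω₃ ℓ, U.valuation (P.ev w) ^ ℓ = U.valuation (P.ev (-2 / E.lam)) ∧
      (minpoly κ⟮P.ev (-2 / E.lam)⟯ (P.ev w)).natDegree ≤ ℓ + 1 ∧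
      (∃ T : Finset ℂ, (T : Set ℂ) ⊆ End L ω₁ ω₂ ω₃ ℓ ∧ ℓ ≤ T.card) ∧
      ∃ F : κ[X][X], Prime F ∧ 1 ≤ F.natDegree ∧ F.natDegree ≤ ℓ + 1 ∧
        F ∈ Bd κ (ℓ + 1) F.natDegree ∧
        (∀ q, aevalAeval (P.ev (-2 / E.lam)) (P.ev w) q = 0 ↔ F ∣ q) ∧
        ∀ t ∈ End L ω₁ ω₂ ω₃ ℓ, aevalAeval (P.ev (-2 / E.lam)) (P.ev t) F = 0 := by
  classical
  have hodd : Odd ℓ := hℓ.odd_of_ne_two h2
  have a2 := hℓ.two_le
  have hψ : ℓ + 1 < p := by nlinarith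
  obtain ⟨S₀, S₁', c0, c1', hS⟩ := cusp1 H E hℓ h2 p hp hsz P G U hκ hU
  have hnm := fun {r : ℂ} => amgen2_not_mem (r := r) H E hodd hℓ.one_lt P G hu U hκ hU
  have hr1 := fun {w : ℂ} => rel1 (κ := κ) (w := w) H E ha hℓ h2 P G
  have hr2 := fun {w : ℂ} => rel1' (κ := κ) (w := w) H E ha hℓ h2 P G
  set u := P.ev (-2 / E.lam) with hud
  set S₁ : Finset ℂ := S₁'.filter fun w => w ∈ End L ω₁ ω₂ ω₃ ℓ ∧
    U.valuation (P.ev w) ^ ℓ = U.valuation u with hS₁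
  have m1 : ∀ w ∈ S₁, w ∈ End L ω₁ ω₂ ω₃ ℓ := fun w hw => (Finset.mem_filter.mp hw).2.1
  have v1 : ∀ w ∈ S₁, U.valuation (P.ev w) ^ ℓ = U.valuation u := fun w hw =>
    (Finset.mem_filter.mp hw).2.2
  have c1 : S₁.card ≤ ℓ := (Finset.card_filter_le _ _).trans c1'
  have cov : ∀ w ∈ End L ω₁ ω₂ ω₃ ℓ,
      (w ∈ S₀ ∧ U.valuation (P.ev w) = U.valuation u ^ ℓ) ∨ w ∈ S₁ := fun w hw =>
    (hS w hw).imp id fun h => Finset.mem_filter.mpr ⟨h.1, hw, h.2⟩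
  have c6 : ∀ w ∈ End L ω₁ ω₂ ω₃ ℓ, IsIntegral κ⟮u⟯ (P.ev w) ∧
      (minpoly κ⟮u⟯ (P.ev w)).natDegree ≤ ℓ + 1 ∧
      (minpoly κ⟮u⟯ (P.ev w)).Separable ∧ ∀ y : Ω, aeval y (minpoly κ⟮u⟯ (P.ev w)) = 0 →
        ∃ t ∈ End L ω₁ ω₂ ω₃ ℓ, y = P.ev t := by
    intro w hw
    obtain ⟨q, q0, qd, qw, qr⟩ := hr1 hw
    have k0 := toK_ne_zero hu q0
    rw [← aeval_toK] at qw
    have hi : IsIntegral κ⟮u⟯ (P.ev w) := IsAlgebraic.isIntegral ⟨_, k0, qw⟩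
    have hd := minpoly.dvd _ _ qw
    have hle := (natDegree_le_of_dvd hd k0).trans ((natDegree_toK_le _ _).trans qd)
    refine ⟨hi, hle, amgen_sep p hi (lt_of_le_of_lt hle hψ), fun y hy => qr y ?_⟩
    rw [← aeval_toK]
    exact aeval_eq_zero_of_dvd_aeval_eq_zero hd hy
  have k1 : ∀ w ∈ S₁, ℓ ≤ S₁.card ∧
      ∀ t ∈ S₁, minpoly κ⟮u⟯ (P.ev t) = minpoly κ⟮u⟯ (P.ev w) := by
    intro w hw
    obtain ⟨hi, -, hs, hr⟩ := c6 w (m1 w hw)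
    obtain ⟨R, r1, r2⟩ := amgen_count u U hκ hU
      (P.ev_ne (end_Bz H E hodd hℓ.one_lt P.ic G (m1 w hw)).1) hi hs (Nat.coprime_one_right ℓ)
      ((v1 w hw).trans (pow_one _).symm)
    have sub : R ⊆ S₁.image P.ev := by
      intro r hr'
      obtain ⟨t, ht, rfl⟩ := hr r (r2 r hr').1
      rcases cov t ht with ⟨-, e1⟩ | hd
      · exfalso
        have e : U.valuation u ^ (ℓ * ℓ) = U.valuation u ^ 1 := by
          rw [pow_mul, ← e1, (r2 _ hr').2, v1 w hw, pow_one]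
        have := (pow_right_strictMono₀ hU).injective e
        nlinarith
      · exact Finset.mem_image_of_mem _ hd
    have k1 := Finset.card_le_card sub
    have k2 := Finset.card_image_le (s := S₁) (f := P.ev)
    refine ⟨by omega, fun t ht => ?_⟩
    have e := Finset.eq_of_subset_of_card_le sub (by omega)
    exact (minpoly.eq_of_irreducible_of_monic (minpoly.irreducible hi)
      (r2 _ (e ▸ Finset.mem_image_of_mem _ ht)).1 (minpoly.monic hi)).symm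
  have k0 : ∀ w ∈ End L ω₁ ω₂ ω₃ ℓ, ∃ t ∈ S₁,
      minpoly κ⟮u⟯ (P.ev t) = minpoly κ⟮u⟯ (P.ev w) := by
    intro w hw
    rcases cov w hw with ⟨hw0, hv⟩ | hw1
    · obtain ⟨hi, -, hs, hr⟩ := c6 w hw
      by_contra hex
      obtain ⟨z, hz⟩ := amgen2_mem hi hs fun y hy => by
        obtain ⟨t, ht, rfl⟩ := hr y hy
        rcases cov t ht with ⟨ht0, -⟩ | ht1
        · rw [Finset.card_le_one.mp c0 t ht0 w hw0]
        · exact absurd ⟨t, ht1, (minpoly.eq_of_irreducible_of_monic (minpoly.irreducible hi) hy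
            (minpoly.monic hi)).symm⟩ hex
      refine hnm hw hv ?_
      rw [← hz]
      exact z.2
    · exact ⟨w, hw1, rfl⟩
  obtain ⟨w₀, hw₀⟩ := gen_nonempty H hℓ h2
  obtain ⟨w, hw, -⟩ := k0 w₀ hw₀
  obtain ⟨q₁, a₁, b₁, d₁, -⟩ := hr1 (m1 w hw)
  obtain ⟨q₂, a₂, b₂, d₂⟩ := hr2 (m1 w hw)
  obtain ⟨F, f1, f2, f3, f4, f5⟩ := exists_curve u (P.ev w) hu (ℓ + 1) q₁ q₂ a₁ b₁ d₁ a₂ b₂ d₂
  refine ⟨w, m1 w hw, v1 w hw, (c6 w (m1 w hw)).2.1, ⟨S₁, m1, (k1 w hw).1⟩, F, f1, f2, f3, f4, f5,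
    fun t ht => ?_⟩
  obtain ⟨s, hs, e⟩ := k0 t ht
  exact (cj_of_minpoly_eq (((k1 w hw).2 s hs).symm.trans e) (c6 w (m1 w hw)).1 F).mp
    ((f5 F).mpr dvd_rfl)

end Pool.Agent.FS.FiveEighths
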