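import Mathlib
import Pool.Agent.FS.FiveEighths.Def
import Pool.Agent.Lib.MP_4a1067_nt.AmNsq

set_option maxSynthPendingDepth 8

namespace Pool.Agent.FS.FiveEighths

open Polynomial Pool.Agent.Lib.MP_4a1067_nt Pool.Agent.Lib.MP_4a1067_nt.Am
open scoped PowerSeries

open IntermediateField

variable {L : PeriodPair} {ω₁ ω₂ ω₃ : ℂ} {ℓ ℓ' : ℕ}

/-- two neighbours of one lattice are neighbours of each other -/
theorem end_pair (H : Half L ω₁ ω₂ ω₃) (hℓ : ℓ.Prime) (hℓ' : ℓ'.Prime) (h2 : ℓ ≠ 2)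
    (h2' : ℓ' ≠ 2) (hne : ℓ ≠ ℓ') {L₁ : PeriodPair} {Q : ℂ} (hc : Cyc L L₁ Q ℓ) :
    End L ω₁ ω₂ ω₃ ℓ' ⊆ End L₁ ω₁ ω₂ ω₃ (ℓ * ℓ') := by
  rintro w ⟨L₂, Q₂, E₂, hc₂, rfl⟩
  have hodd : Odd ℓ := hℓ.odd_of_ne_two h2
  have H₂ : Half L₂ ω₁ ω₂ ω₃ := hc₂.half (hℓ'.odd_of_ne_two h2') H
  have hℓ0 : (ℓ : ℂ) ≠ 0 := by exact_mod_cast hℓ.ne_zero
  obtain ⟨M, hs⟩ := exists_scl L₂ hℓ0
  obtain ⟨T, hT⟩ := cyc_pair hℓ hℓ' hne hc hc₂ hs
  obtain ⟨EM, -⟩ := exists_leg (hs.half hodd H₂)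
  have eM : EM.lam = E₂.lam := (leg_scl hs hℓ0 E₂ EM (odd_mul_half hodd H₂.t₁)
    (odd_mul_half hodd H₂.t₂) (odd_mul_half hodd H₂.t₃)).2.1
  exact ⟨M, T, EM, hT, by rw [eM]⟩

/-- joint expansions of neighbours of two indices -/
theorem branch3 (H : Half L ω₁ ω₂ ω₃) (E : Leg L ω₁ ω₂ ω₃) (ha : Transcendental ℤ (-2 / E.lam))
    {n d : ℕ} (hn : Odd n) (hn1 : 1 < n) (hd : d ∣ n) (hd1 : 1 < d) {κ Ω : Type} [Field κ]
    [IsAlgClosed κ] [Field Ω] [Algebra κ Ω] (P : Pl ℂ Ω) (G : Good P.A n E.lam)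
    (hu : Transcendental κ (P.ev (-2 / E.lam)))
    (halg : Algebra.IsAlgebraic κ⟮P.ev (-2 / E.lam)⟯ Ω) (r : κ) (r0 : r ≠ 0) (r2 : r ≠ -2)
    {v : ℂ} (hv : v ∈ End L ω₁ ω₂ ω₃ d) :
    ∃ (C₀ : Pl ℂ κ) (θ : κ⟦X⟧), Good C₀.A n E.lam ∧ ∀ w ∈ End L ω₁ ω₂ ω₃ n, ∃ η : κ⟦X⟧,
      PowerSeries.constantCoeff η = C₀.ev w ∧ PowerSeries.coeff 1 η ≠ 0 ∧
      ∀ q : κ[X][X][X], ev3 (P.ev v) (P.ev (-2 / E.lam)) (P.ev w) q = 0 ↔
        ev3 θ (PowerSeries.C r + PowerSeries.X) η q = 0 := by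
  let j : κ⟦X⟧ →ₐ[κ] AlgebraicClosure (FractionRing κ⟦X⟧) := IsScalarTower.toAlgHom κ _ _
  have hj : Function.Injective j :=
    (algebraMap (FractionRing κ⟦X⟧) (AlgebraicClosure (FractionRing κ⟦X⟧))).injective.comp
      (IsFractionRing.injective κ⟦X⟧ (FractionRing κ⟦X⟧))
  have c1 : PowerSeries.coeff 1 (PowerSeries.C r + PowerSeries.X : κ⟦X⟧) = 1 := by
    simp
  have ht : Transcendental κ (j (PowerSeries.C r + PowerSeries.X)) := by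
    rw [transcendental_iff]
    intro q hq
    by_contra q0
    rw [aeval_algHom_apply, map_eq_zero_iff _ hj] at hq
    have := order_aeval q q0 _ (c1 ▸ one_ne_zero)
    rw [hq, PowerSeries.order_zero] at this
    exact ENat.top_ne_natCast _ this
  obtain ⟨ι, hι⟩ := exists_emb _ hu halg _ ht
  obtain ⟨P₃, h3, -⟩ := exists_pl j.toRingHom hj PowerSeries.constantCoeff
  set P₁ := P.map ι.toRingHom with hP₁
  have ev1 : ∀ z, P₁.ev z = ι (P.ev z) := fun z => P.ev_map _ z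
  have G₁ : Good P₁.A n E.lam := G
  have hb : P₁.ev (-2 / E.lam) = j (PowerSeries.C r + PowerSeries.X) := by rw [ev1, hι]
  have n2 : (2 : κ) ≠ 0 := fun h => P.ev_ne G.two (by
    rw [P.ev_two, ← map_ofNat (algebraMap κ Ω) 2, h, map_zero])
  have nn : (n : κ) ≠ 0 := fun h => P.ev_ne G.n (by
    rw [P.ev_natCast, ← map_natCast (algebraMap κ Ω) n, h, map_zero])
  have G₃ : Good P₃.A n (P₁.ev E.lam) := by
    refine good_of_Bz_le (P₁.ev_two ▸ P₁.ev_ne G₁.two) (P₁.ev_natCast n ▸ P₁.ev_ne G₁.n)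
      (P₁.ev_ne G₁.lam) ?_ ?_
    · have := P₁.ev_ne G₁.lam1
      rw [P₁.ev_sub (one_mem _) G₁.lam.mem, P₁.ev_one] at this
      exact (sub_ne_zero.mp this).symm
    · rw [← P₁.ev_par G₁, hb]
      refine Bz_le (h3 _).1 ?_
      have hu' : IsUnit (2 * (n : κ⟦X⟧) * (PowerSeries.C r + PowerSeries.X)
          * (PowerSeries.C r + PowerSeries.X + 2) : κ⟦X⟧) := by
        rw [PowerSeries.isUnit_iff_constantCoeff]
        simp only [map_mul, map_add, map_ofNat, map_natCast, PowerSeries.constantCoeff_C,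
          PowerSeries.constantCoeff_X, add_zero]
        exact (mul_ne_zero (mul_ne_zero (mul_ne_zero n2 nn) r0)
          fun h => r2 (eq_neg_of_add_eq_zero_left h)).isUnit
      obtain ⟨v', hv'⟩ := hu'.exists_right_inv
      have := congrArg j hv'
      simp only [map_mul, map_add j _ 2, map_ofNat, map_natCast, map_one] at this
      rw [← eq_inv_of_mul_eq_one_right this]
      exact (h3 v').1
  have G₀ : Good (P₁.comp P₃).A n E.lam := (P₁.good_res (hB := P₃.ic)).mpr ⟨G₁, G₃⟩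
  obtain ⟨θ, -, hθ⟩ := ambranch_step j.toRingHom P₃ h3 ⊤ (fun _ _ _ _ _ => trivial)
    (fun _ _ _ _ _ => trivial) H E ha (hn.of_dvd_nat hd) hd1 P₁ (G₀.of_dvd hd)
    ⟨_, trivial, hb.symm⟩ hv
  refine ⟨P₁.comp P₃, θ, G₀, fun w hw => ?_⟩
  obtain ⟨η, -, hη⟩ := ambranch_step j.toRingHom P₃ h3 ⊤ (fun _ _ _ _ _ => trivial)
    (fun _ _ _ _ _ => trivial) H E ha hn hn1 P₁ G₀ ⟨_, trivial, hb.symm⟩ hw
  refine ⟨η, ?_, fun h1 => ?_, fun q => ?_⟩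
  · rw [P₁.ev_comp P₃ (end_Bz H E hn hn1 (P₁.comp P₃).ic G₀ hw).1.mem, ← hη, (h3 _).2]
  · have tw := transc_end H E ha hn hn1 hw
    obtain ⟨L', Q, E', hc, rfl⟩ := hw
    have G' : Good (P₁.comp P₃).A n E'.lam := by
      obtain ⟨h, rfl⟩ := hn
      exact (lat H E E' hc (by omega) (P₁.comp P₃) dvd_rfl G₀).1
    obtain ⟨g, hg, e⟩ := ambranch_step j.toRingHom P₃ h3 (ambranch_T κ)
      (fun x u h0 hu' hx => by
        change PowerSeries.coeff 1 u = 0 at hu'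
        change PowerSeries.coeff 1 (x * u) = 0 at hx
        rw [PowerSeries.coeff_one_mul, hu', zero_mul, add_zero] at hx
        exact (mul_eq_zero.mp hx).resolve_right h0)
      (fun q ρ hq h0 h1 => coeff_one_root q hq ρ h0 h1) (hc.half hn H) E' tw hn hn1 P₁ G'
      ⟨η, h1, hη⟩ (dual_end H E hc hn)
    rw [hb] at e
    obtain rfl := hj e
    change PowerSeries.coeff 1 _ = 0 at hg
    rw [c1] at hg
    exact one_ne_zero hg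
  · rw [← map_eq_zero_iff ι ι.injective, map_ev3, hι, ← ev1, ← ev1, ← hη, ← hθ,
      ← map_eq_zero_iff j hj, map_ev3]
    rfl

theorem nsq3 (H : Half L ω₁ ω₂ ω₃) (E : Leg L ω₁ ω₂ ω₃) (ha : Transcendental ℤ (-2 / E.lam))
    (hℓ : ℓ.Prime) (hℓ' : ℓ'.Prime) (h2 : ℓ ≠ 2) (h2' : ℓ' ≠ 2) (hne : ℓ ≠ ℓ') (p : ℕ)
    (hp : p.Prime) (hsz : 24 * (ℓ * ℓ') ^ 3 < p) {κ Ω : Type} [Field κ] [IsAlgClosed κ]
    [CharP κ p] [Field Ω] [Algebra κ Ω] (P : Pl ℂ Ω) (G : Good P.A (ℓ * ℓ') E.lam)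
    {w₁ : ℂ} (hw₁ : w₁ ∈ End L ω₁ ω₂ ω₃ ℓ) (hy : Transcendental κ (P.ev w₁))
    (halg : Algebra.IsAlgebraic κ⟮P.ev w₁⟯ Ω) (y₂ : Ω) (T : Finset ℂ)
    (hT : (T : Set ℂ) ⊆ End L ω₁ ω₂ ω₃ ℓ')
    (hcj : ∀ t ∈ T, ∀ q : κ[X][X][X], ev3 (P.ev (-2 / E.lam)) (P.ev w₁) y₂ q = 0 ↔
      ev3 (P.ev (-2 / E.lam)) (P.ev w₁) (P.ev t) q = 0)
    (g : κ[X]) (hg : g ≠ 0) (hdeg : 60 * g.natDegree < T.card) (r : κ) (r0 : r ≠ 0)
    (r2 : r ≠ -2) (hodd : Odd (g.rootMultiplicity r)) (a c : κ[X][X][X])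
    (hc : ev3 (P.ev (-2 / E.lam)) (P.ev w₁) y₂ c ≠ 0) :
    ev3 (P.ev (-2 / E.lam)) (P.ev w₁) y₂ (a ^ 2 - g3 g * c ^ 2) ≠ 0 := by
  classical
  intro h0
  have hl : Odd ℓ := hℓ.odd_of_ne_two h2
  have ha₁ : Transcendental ℤ w₁ := transc_end H E ha hl hℓ.one_lt hw₁
  obtain ⟨L₁, Q, E₁, hc₁, rfl⟩ := hw₁
  have H₁ : Half L₁ ω₁ ω₂ ω₃ := hc₁.half hl H
  have G₁ : Good P.A (ℓ * ℓ') E₁.lam := by
    obtain ⟨k, rfl⟩ := hl
    exact (lat H E E₁ hc₁ (by have := hℓ.one_lt; omega) P (dvd_mul_right _ _) G).1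
  have hT₁ : (T : Set ℂ) ⊆ End L₁ ω₁ ω₂ ω₃ (ℓ * ℓ') :=
    hT.trans (end_pair H hℓ hℓ' h2 h2' hne hc₁)
  obtain ⟨C₀, θ, G₀, hb⟩ := branch3 H₁ E₁ ha₁ (hl.mul (hℓ'.odd_of_ne_two h2'))
    (Nat.one_lt_mul_iff.2 ⟨hℓ.pos, hℓ'.pos, Or.inl hℓ.one_lt⟩) (dvd_mul_right ℓ ℓ') hℓ.one_lt
    P G₁ hy halg r r0 r2 (dual_end H E hc₁ hl)
  have key : ∀ t ∈ T, C₀.ev t ∈ g.roots.toFinset := by
    intro t ht
    obtain ⟨η, h1, h2, h3⟩ := hb t (hT₁ ht)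
    have e0 := (h3 _).1 ((hcj t ht _).1 h0)
    have ec : ev3 θ (PowerSeries.C r + PowerSeries.X) η c ≠ 0 := fun e =>
      hc ((hcj t ht _).2 ((h3 _).2 e))
    rw [map_sub, map_mul, map_pow, map_pow, ev3_g3, sub_eq_zero] at e0
    have o1 := order_aeval g hg (PowerSeries.C r + PowerSeries.X) (by simp)
    have o2 := order_aeval g hg η h2
    have ev := even_order ec o1 o2 e0
    simp only [map_add, PowerSeries.constantCoeff_C, PowerSeries.constantCoeff_X, add_zero,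
      h1] at ev
    rw [Multiset.mem_toFinset, mem_roots hg]
    by_contra hr
    rw [rootMultiplicity_eq_zero hr, add_zero] at ev
    exact Nat.not_even_iff_odd.2 hodd ev
  have h1 : T.card ≤ 60 * (T.image C₀.ev).card :=
    Finset.card_le_mul_card_image T 60 fun y _ =>
      par H₁ E₁ ha₁ hℓ hℓ' h2 h2' hne p hp hsz C₀ G₀ _
        (fun t ht => hT₁ (Finset.mem_filter.1 ht).1) y fun t ht => (Finset.mem_filter.1 ht).2
  have h3 : (T.image C₀.ev).card ≤ g.natDegree :=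
    (Finset.card_le_card (Finset.image_subset_iff.2 key)).trans
      ((Multiset.toFinset_card_le _).trans (card_roots' g))
  omega

end Pool.Agent.FS.FiveEighths
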