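import Mathlib
import Pool.Agent.FS.FiveEighths.Def

set_option maxSynthPendingDepth 8

namespace Pool.Agent.FS.FiveEighths

open Polynomial Pool.Agent.Lib.MP_4a1067_nt Pool.Agent.Lib.MP_4a1067_nt.Am
open scoped PowerSeries

variable {κ : Type*} [Field κ] {m n L : ℕ}

lemma W3_mono (h : m ≤ n) : W3 κ m ≤ W3 κ n := by
  intro q hq
  exact ⟨hq.1.trans h, fun i => Bd_mono (hq.2 i) h h⟩

lemma W3_mul {a b : κ[X][X][X]} (ha : a ∈ W3 κ m) (hb : b ∈ W3 κ n) : a * b ∈ W3 κ (m + n) := by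
  refine ⟨natDegree_mul_le.trans (add_le_add ha.1 hb.1), fun i => ?_⟩
  rw [coeff_mul]
  exact Submodule.sum_mem _ fun x _ => Bd_mul (ha.2 _) (hb.2 _)

lemma W3_C {q : κ[X][X]} (h : q ∈ Bd κ n n) : (C q : κ[X][X][X]) ∈ W3 κ n := by
  refine ⟨by rw [natDegree_C]; exact Nat.zero_le _, fun i => ?_⟩
  rw [coeff_C]
  split_ifs
  · exact h
  · exact zero_mem _

lemma W3_in2 {q : κ[X][X]} (h : q ∈ Bd κ n n) : in2 q ∈ W3 κ n := by
  refine ⟨natDegree_map_le.trans h.1, fun i => ?_⟩
  rw [in2, coeff_map]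
  exact Bd_C (h.2 i)

lemma W3_fin (n : ℕ) : FiniteDimensional κ (W3 κ n) := by
  let f : W3 κ n →ₗ[κ] (Fin (n + 1) → Bd κ n n) :=
    { toFun := fun q i => ⟨q.1.coeff i, q.2.2 i⟩
      map_add' := fun a b => by
        funext i
        exact Subtype.ext (coeff_add _ _ _)
      map_smul' := fun c a => by
        funext i
        exact Subtype.ext (coeff_smul _ _ _) }
  refine Module.Finite.of_injective f fun a b hab => Subtype.ext (Polynomial.ext fun i => ?_)
  by_cases hi : i < n + 1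
  · exact congrArg Subtype.val (congrFun hab ⟨i, hi⟩)
  · rw [coeff_eq_zero_of_natDegree_lt (a.2.1.trans_lt (by omega)),
      coeff_eq_zero_of_natDegree_lt (b.2.1.trans_lt (by omega))]

lemma W3_mon {i j : ℕ} (hi : i ≤ n) (hj : j ≤ n) :
    (C (X ^ i) * X ^ j : κ[X][X][X]) ∈ W3 κ n := by
  refine ⟨(natDegree_C_mul_X_pow_le _ _).trans hj, fun k => ?_⟩
  rw [coeff_C_mul_X_pow]
  split_ifs
  · have h0 := Bd_monomial (κ := κ) (Nat.zero_le n) hi
    rwa [pow_zero, C_1, one_mul] at h0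
  · exact zero_mem _

lemma W3_g3 {g : κ[X]} (h : g.natDegree ≤ n) : g3 g ∈ W3 κ n := by
  have h1 : g.map (C : κ →+* κ[X]) ∈ Bd κ 0 n :=
    ⟨natDegree_map_le.trans h, fun i => by rw [coeff_map, natDegree_C]⟩
  refine ⟨(natDegree_C_mul_le _ _).trans (natDegree_map_le.trans h1.1), fun i => ?_⟩
  rw [g3, coeff_C_mul, in2, coeff_map]
  exact Bd_mono (Bd_mul h1 (Bd_C (β := 0) (h1.2 i))) (by omega) (by omega)

lemma g3_prod {ι : Type*} (s : Finset ι) (g : ι → κ[X]) :
    g3 (∏ i ∈ s, g i) = ∏ i ∈ s, g3 (g i) := by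
  simp only [g3, in2, Polynomial.map_prod, map_prod, Finset.prod_mul_distrib]

lemma ring_exists_D_cw {A : Type*} [CommRing A] [Algebra κ A] (f : A →ₗ[κ] A) :
    ∃ g : A[X] →ₗ[κ] A[X], (∀ q i, (g q).coeff i = f (q.coeff i)) ∧
      ∀ i a, g (monomial i a) = monomial i (f a) := by
  have key : ∀ (i : ℕ) (a : A),
      (lsum fun i => (monomial i : A →ₗ[A] A[X]).restrictScalars κ ∘ₗ f) (monomial i a) =
        monomial i (f a) := by
    intro i a
    rw [lsum_apply, sum_monomial_index]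
    · rfl
    · exact map_zero _
  refine ⟨lsum fun i => (monomial i : A →ₗ[A] A[X]).restrictScalars κ ∘ₗ f, fun q i => ?_, key⟩
  induction q using Polynomial.induction_on' with
  | add a b ha hb => rw [map_add, coeff_add, coeff_add, map_add, ha, hb]
  | monomial n a =>
    rw [key, coeff_monomial, coeff_monomial]
    split_ifs
    · rfl
    · rw [map_zero]

lemma ring_exists_D_mem {f : κ[X][X] →ₗ[κ] κ[X][X]} {q r : κ[X][X][X]}
    (hf : ∀ a ∈ Bd κ n n, f a ∈ Bd κ n n) (hr : ∀ i, r.coeff i = f (q.coeff i))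
    (hq : q ∈ W3 κ n) : r ∈ W3 κ n := by
  refine ⟨natDegree_le_iff_coeff_eq_zero.2 fun i hi => ?_, fun i => ?_⟩
  · rw [hr, natDegree_le_iff_coeff_eq_zero.1 hq.1 i hi, map_zero]
  · rw [hr]
    exact hf _ (hq.2 i)

lemma ring_exists_D_der {q : κ[X][X][X]} (hq : q ∈ W3 κ n) : derivative q ∈ W3 κ n := by
  refine ⟨(natDegree_derivative_le q).trans ((Nat.sub_le _ _).trans hq.1), fun i => ?_⟩
  rw [coeff_derivative, ← Nat.cast_succ, mul_comm, ← nsmul_eq_mul]
  exact nsmul_mem (hq.2 _) _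

lemma ring_exists_D_lin (a : κ[X][X][X]) :
    ∃ g : κ[X][X][X] →ₗ[κ] κ[X][X][X], ∀ q, g q = a * derivative q :=
  ⟨{ toFun := fun q => a * derivative q
     map_add' := fun q q' => by rw [derivative_add, mul_add]
     map_smul' := fun c q => by rw [derivative_smul, RingHom.id_apply, mul_smul_comm] },
    fun _ => rfl⟩

/-- the derivation along the space curve, cleared of denominators -/
theorem exists_D {F₁ F₂ : κ[X][X]} (h₁ : F₁ ∈ Bd κ L L) (h₂ : F₂ ∈ Bd κ L L) :
    ∃ D : κ[X][X][X] →ₗ[κ] κ[X][X][X], (∀ n q, q ∈ W3 κ n → D q ∈ W3 κ (n + 2 * L)) ∧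
      ∀ (b : κ) (η₁ η₂ : κ⟦X⟧), aevalAeval (PowerSeries.C b + PowerSeries.X) η₁ F₁ = 0 →
        aevalAeval (PowerSeries.C b + PowerSeries.X) η₂ F₂ = 0 → ∀ q,
        ev3 (PowerSeries.C b + PowerSeries.X) η₁ η₂ (C (derivative F₁) * in2 (derivative F₂)) *
          PowerSeries.derivative κ (ev3 (PowerSeries.C b + PowerSeries.X) η₁ η₂ q) =
          ev3 (PowerSeries.C b + PowerSeries.X) η₁ η₂ (D q) := by
  obtain ⟨gX, hX, mX⟩ := ring_exists_D_cw (κ := κ) (A := κ[X][X])
    { toFun := dX, map_add' := amstepb_dX_add, map_smul' := amstepb_dX_smul }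
  obtain ⟨gY, hY, mY⟩ := ring_exists_D_cw (κ := κ) (A := κ[X][X])
    { toFun := fun a => derivative a
      map_add' := fun _ _ => derivative_add
      map_smul' := fun c a => derivative_smul c a }
  obtain ⟨gZ, hZ⟩ := ring_exists_D_lin (κ := κ) (C (derivative F₁) * in2 (dX F₂))
  have hD : ∃ D : κ[X][X][X] →ₗ[κ] κ[X][X][X], ∀ q, D q =
      C (derivative F₁) * in2 (derivative F₂) * gX q - C (dX F₁) * in2 (derivative F₂) * gY q -
        C (derivative F₁) * in2 (dX F₂) * derivative q :=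
    ⟨LinearMap.mulLeft κ (C (derivative F₁) * in2 (derivative F₂)) ∘ₗ gX -
      LinearMap.mulLeft κ (C (dX F₁) * in2 (derivative F₂)) ∘ₗ gY - gZ, fun q => by
        rw [LinearMap.sub_apply, LinearMap.sub_apply, hZ]
        rfl⟩
  obtain ⟨D, hD⟩ := hD
  refine ⟨D, fun n q hq => ?_, fun b η₁ η₂ e₁ e₂ q => ?_⟩
  · have hle : L + L + n ≤ n + 2 * L := by omega
    rw [hD]
    refine Submodule.sub_mem _ (Submodule.sub_mem _ ?_ ?_) ?_
    · exact W3_mono hle (W3_mul (W3_mul (W3_C (Bd_derivative h₁)) (W3_in2 (Bd_derivative h₂)))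
        (ring_exists_D_mem (fun a ha => Bd_dX ha) (hX q) hq))
    · exact W3_mono hle (W3_mul (W3_mul (W3_C (Bd_dX h₁)) (W3_in2 (Bd_derivative h₂)))
        (ring_exists_D_mem (fun a ha => Bd_derivative ha) (hY q) hq))
    · exact W3_mono hle (W3_mul (W3_mul (W3_C (Bd_derivative h₁)) (W3_in2 (Bd_dX h₂)))
        (ring_exists_D_der hq))
  · have c₁ := amstepb_chain b η₁ F₁
    have c₂ := amstepb_chain b η₂ F₂
    rw [e₁, map_zero] at c₁
    rw [e₂, map_zero] at c₂
    have ch : PowerSeries.derivative κ (ev3 (PowerSeries.C b + PowerSeries.X) η₁ η₂ q) =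
        ev3 (PowerSeries.C b + PowerSeries.X) η₁ η₂ (gX q) +
          ev3 (PowerSeries.C b + PowerSeries.X) η₁ η₂ (gY q) * PowerSeries.derivative κ η₁ +
          ev3 (PowerSeries.C b + PowerSeries.X) η₁ η₂ (derivative q) *
            PowerSeries.derivative κ η₂ := by
      induction q using Polynomial.induction_on' with
      | add a a' ha ha' =>
        rw [map_add, map_add, ha, ha', map_add gX, map_add gY, derivative_add, map_add, map_add,
          map_add]
        ring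
      | monomial k a =>
        rw [mX, mY, derivative_monomial, ev3_monomial, ev3_monomial, ev3_monomial, ev3_monomial,
          Derivation.leibniz, Derivation.leibniz_pow, amstepb_chain, map_mul, map_natCast]
        simp only [smul_eq_mul, nsmul_eq_mul, LinearMap.coe_mk, AddHom.coe_mk]
        ring
    rw [ch, hD]
    simp only [map_sub, map_mul, ev3_C, ev3_in2]
    linear_combination
      (-(aevalAeval (PowerSeries.C b + PowerSeries.X) η₂ (derivative F₂) *
          ev3 (PowerSeries.C b + PowerSeries.X) η₁ η₂ (gY q))) * c₁ -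
        (aevalAeval (PowerSeries.C b + PowerSeries.X) η₁ (derivative F₁) *
          ev3 (PowerSeries.C b + PowerSeries.X) η₁ η₂ (derivative q)) * c₂

end Pool.Agent.FS.FiveEighths
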