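import Mathlib
import Pool.Agent.FS.FiveEighths.Ring

set_option maxSynthPendingDepth 8

namespace Pool.Agent.FS.FiveEighths

open Polynomial Pool.Agent.Lib.MP_4a1067_nt Pool.Agent.Lib.MP_4a1067_nt.Am
open scoped PowerSeries

lemma dim_num {L : ℕ} (hL : 1 ≤ L) (v h : ℕ → ℕ) (hv : ∀ m, v m ≤ 2 * L * (m + 1))
    (hm : ∀ {m n}, m ≤ n → h m ≤ h n)
    (hk : ∀ a, h (a + L) + (a + 1) * v a ≤ (a + L + 1) * v (a + L)) (n : ℕ) :
    h n ≤ 32 * L ^ 2 * (n + L) := by
  obtain ⟨t, ht1, ht2⟩ : ∃ t, n < t * L ∧ t * L ≤ n + L := by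
    refine ⟨n / L + 1, ?_, ?_⟩
    · rw [mul_comm]; exact Nat.lt_mul_div_succ n hL
    · rw [Nat.succ_mul]; exact Nat.add_le_add_right (Nat.div_mul_le_self n L) L
  have hex : ∃ i, i < t ∧ v (n + i * L + L) ≤ v (n + i * L) + 4 * L ^ 2 := by
    by_contra hc
    push Not at hc
    have h1 : ∀ i, i ≤ t → i * (4 * L ^ 2 + 1) ≤ v (n + i * L) := by
      intro i
      induction i with
      | zero => intro _; simp
      | succ i ih =>
        intro hi
        have a1 := ih (by omega)
        have a2 := hc i (by omega)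
        rw [Nat.succ_mul i L, ← add_assoc, Nat.succ_mul]
        omega
    have h2 := (h1 t le_rfl).trans (hv _)
    have h3 : 2 * L * (n + t * L + 1) ≤ 2 * L * (2 * (t * L)) :=
      Nat.mul_le_mul_left _ (by omega)
    have h4 : 0 < t := by
      rcases Nat.eq_zero_or_pos t with h | h
      · rw [h] at ht1; omega
      · exact h
    nlinarith
  obtain ⟨i, hi, hd⟩ := hex
  have hiL : i * L + L ≤ t * L := by
    rw [← Nat.succ_mul]; exact Nat.mul_le_mul_right _ hi
  obtain ⟨a, ha⟩ : ∃ a, a = n + i * L := ⟨_, rfl⟩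
  rw [← ha] at hd
  have b1 : a + L + 1 ≤ 2 * (n + L) := by omega
  have b2 := hk a
  have b3 := hv (a + L)
  have b4 : h n ≤ h (a + L) := hm (by omega)
  have b5 : (a + 1) * v (a + L) ≤ (a + 1) * (v a + 4 * L ^ 2) := Nat.mul_le_mul_left _ hd
  have b6 : L * v (a + L) ≤ L * (2 * L * (2 * (n + L))) :=
    Nat.mul_le_mul_left _ (b3.trans (Nat.mul_le_mul_left _ b1))
  have b7 : (a + 1) * (4 * L ^ 2) ≤ 2 * (n + L) * (4 * L ^ 2) :=
    Nat.mul_le_mul_right _ (by omega)
  nlinarith [Nat.zero_le (L ^ 2 * (n + L))]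

lemma dim_core {κ Ω : Type*} [Field κ] [Field Ω] [Algebra κ Ω] (V W : Submodule κ Ω)
    [FiniteDimensional κ V] [FiniteDimensional κ W] (a L : ℕ) (G : Polynomial Ω) (hG : G ≠ 0)
    (hd : G.natDegree ≤ L) (hmul : ∀ i, ∀ z ∈ W, G.coeff i * z ∈ V) (y : Ω) (hy : G.eval y = 0)
    (H : Submodule κ Ω)
    (hH : ∀ z ∈ H, ∃ c : Fin (a + L + 1) → V, z = ∑ j, (c j : Ω) * y ^ (j : ℕ)) :
    Module.finrank κ H + (a + 1) * Module.finrank κ W ≤ (a + L + 1) * Module.finrank κ V := by
  let E : (Fin (a + L + 1) → V) →ₗ[κ] Ω :=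
    { toFun := fun c => ∑ j, (c j : Ω) * y ^ (j : ℕ)
      map_add' := fun c d => by
        simp only [Pi.add_apply, Submodule.coe_add, add_mul, Finset.sum_add_distrib]
      map_smul' := fun r c => by
        simp only [Pi.smul_apply, Submodule.coe_smul, smul_mul_assoc, RingHom.id_apply,
          Finset.smul_sum] }
  let P : (Fin (a + 1) → W) → Polynomial Ω := fun c => ∑ i : Fin (a + 1), monomial (i : ℕ) (c i : Ω)
  have Pc : ∀ c (i : Fin (a + 1)), (P c).coeff i = c i := by
    intro c i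
    simp only [P, finsetSum_coeff, coeff_monomial]
    rw [Finset.sum_eq_single i (fun j _ hj => if_neg fun e => hj (Fin.ext e))
      (fun h => absurd (Finset.mem_univ i) h), if_pos rfl]
  have Pm : ∀ c k, (P c).coeff k ∈ W := by
    intro c k
    simp only [P, finsetSum_coeff, coeff_monomial]
    refine Submodule.sum_mem _ fun j _ => ?_
    split_ifs
    · exact (c j).2
    · exact zero_mem _
  have Pd : ∀ c, (G * P c).natDegree < a + L + 1 := by
    intro c
    have : (P c).natDegree ≤ a := natDegree_sum_le_of_forall_le _ _ fun i _ =>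
      (natDegree_monomial_le _).trans (Nat.lt_succ_iff.1 i.2)
    have h2 := natDegree_mul_le (p := G) (q := P c)
    omega
  have Pa : ∀ c d, P (c + d) = P c + P d := fun c d => by
    simp only [P, Pi.add_apply, Submodule.coe_add, map_add, Finset.sum_add_distrib]
  have Ps : ∀ (r : κ) c, P (r • c) = r • P c := fun r c => by
    simp only [P, Pi.smul_apply, Submodule.coe_smul, Finset.smul_sum, smul_monomial]
  have Gm : ∀ c k, (G * P c).coeff k ∈ V := by
    intro c k
    rw [coeff_mul]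
    exact Submodule.sum_mem _ fun x _ => hmul _ _ (Pm c _)
  let g : (Fin (a + 1) → W) →ₗ[κ] LinearMap.ker E :=
    { toFun := fun c => ⟨fun j => ⟨(G * P c).coeff j, Gm c j⟩, by
        show ∑ j : Fin (a + L + 1), (G * P c).coeff j * y ^ (j : ℕ) = 0
        rw [Fin.sum_univ_eq_sum_range (fun j => (G * P c).coeff j * y ^ j),
          ← eval_eq_sum_range' (Pd c), eval_mul, hy, zero_mul]⟩
      map_add' := fun c d => by
        refine Subtype.ext (funext fun j => Subtype.ext ?_)
        show (G * P (c + d)).coeff j = (G * P c).coeff j + (G * P d).coeff j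
        rw [Pa, mul_add, coeff_add]
      map_smul' := fun r c => by
        refine Subtype.ext (funext fun j => Subtype.ext ?_)
        show (G * P (r • c)).coeff j = r • (G * P c).coeff j
        rw [Ps, mul_smul_comm, coeff_smul] }
  have hg : Function.Injective g := by
    refine (injective_iff_map_eq_zero g).2 fun c hc => ?_
    have h1 : G * P c = 0 := by
      ext k
      by_cases hk : k < a + L + 1
      · exact congrArg Subtype.val (congrFun (congrArg Subtype.val hc) ⟨k, hk⟩)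
      · exact coeff_eq_zero_of_natDegree_lt ((Pd c).trans_le (not_lt.1 hk))
    have h2 : P c = 0 := (mul_eq_zero.1 h1).resolve_left hG
    funext i
    refine Subtype.ext ?_
    rw [← Pc c i, h2]
    rfl
  have h1 := LinearMap.finrank_le_finrank_of_injective hg
  have h2 := LinearMap.finrank_range_add_finrank_ker E
  have h3 : Module.finrank κ H ≤ Module.finrank κ (LinearMap.range E) :=
    Submodule.finrank_mono fun z hz => by
      obtain ⟨c, hc⟩ := hH z hz
      exact ⟨c, hc.symm⟩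
  rw [Module.finrank_pi_fintype, Finset.sum_const, Finset.card_univ, Fintype.card_fin,
    smul_eq_mul] at h1 h2
  omega

/-- linear growth of the dimension of the image on the space curve -/
theorem dim3 {κ Ω : Type*} [Field κ] [Field Ω] [Algebra κ Ω] (u y₁ y₂ : Ω)
    (hu : Transcendental κ u) {L : ℕ} (hL : 1 ≤ L) {F₁ F₂ : κ[X][X]} (n₁ : F₁ ≠ 0) (n₂ : F₂ ≠ 0)
    (h₁ : F₁ ∈ Bd κ L L) (h₂ : F₂ ∈ Bd κ L L) (z₁ : aevalAeval u y₁ F₁ = 0)
    (z₂ : aevalAeval u y₂ F₂ = 0) (n : ℕ) :
    Module.finrank κ ((W3 κ n).map (ev3 u y₁ y₂ : κ[X][X][X] →ₐ[κ] Ω).toLinearMap)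
      ≤ 32 * L ^ 2 * (n + L) := by
  let V : ℕ → Submodule κ Ω := fun m =>
    (Bd κ m m).map (aevalAeval u y₁ : κ[X][X] →ₐ[κ] Ω).toLinearMap
  have hB : ∀ m, FiniteDimensional κ (Bd κ m m) := fun m => Bd_finite
  have hVf : ∀ m, FiniteDimensional κ (V m) := fun m => by
    have := hB m
    exact inferInstanceAs (FiniteDimensional κ
      ((Bd κ m m).map (aevalAeval u y₁ : κ[X][X] →ₐ[κ] Ω).toLinearMap))
  refine dim_num hL (fun m => Module.finrank κ (V m))
    (fun m => Module.finrank κ ((W3 κ m).map (ev3 u y₁ y₂ : κ[X][X][X] →ₐ[κ] Ω).toLinearMap))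
    (fun m => ?_) (fun {m m'} h => ?_) (fun a => ?_) n
  · have := hB m
    let φ : (κ[X][X] ⧸ Ideal.span {F₁}) →ₐ[κ] Ω :=
      Ideal.Quotient.liftₐ (Ideal.span {F₁}) (aevalAeval u y₁) fun q hq => by
        obtain ⟨r, rfl⟩ := Ideal.mem_span_singleton'.1 hq
        rw [map_mul, z₁, mul_zero]
    have e : V m = ((Bd κ m m).map
        (Ideal.Quotient.mkₐ κ (Ideal.span {F₁})).toLinearMap).map φ.toLinearMap := by
      rw [← Submodule.map_comp]
      rfl
    have h3 := finrank_map_le n₁ h₁ m m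
    have h4 := Submodule.finrank_map_le φ.toLinearMap
      ((Bd κ m m).map (Ideal.Quotient.mkₐ κ (Ideal.span {F₁})).toLinearMap)
    show Module.finrank κ (V m) ≤ _
    rw [e]
    calc _ ≤ L * (m + 1) + L * (m + 1) := h4.trans h3
      _ = _ := by ring
  · have := W3_fin (κ := κ) m'
    exact Submodule.finrank_mono (Submodule.map_mono (W3_mono h))
  · have := hVf (a + L)
    have := hVf a
    refine dim_core (V (a + L)) (V a) a L (F₂.map (aeval u : κ[X] →ₐ[κ] Ω).toRingHom) ?_
      (natDegree_map_le.trans h₂.1) ?_ y₂ ?_ _ ?_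
    · exact (Polynomial.map_ne_zero_iff ((injective_iff_map_eq_zero _).mpr fun r hr =>
        transcendental_iff.mp hu r hr)).mpr n₂
    · rintro i _ ⟨q, hq, rfl⟩
      have hC : (C (F₂.coeff i) : κ[X][X]) ∈ Bd κ L L := by
        refine ⟨by simp, fun j => ?_⟩
        rw [coeff_C]
        split_ifs
        · exact h₂.2 i
        · simp
      refine ⟨q * C (F₂.coeff i), Bd_mul hq hC, ?_⟩
      rw [coeff_map]
      show aevalAeval u y₁ (q * C (F₂.coeff i)) = aeval u (F₂.coeff i) * aevalAeval u y₁ q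
      rw [map_mul, aevalAeval_C, mul_comm]
    · rw [← z₂, eval_map]
      clear h₂ z₂ n₂
      induction F₂ using Polynomial.induction_on' with
      | add p q hp hq => rw [eval₂_add, map_add, hp, hq]
      | monomial k r =>
        rw [eval₂_monomial, ← C_mul_X_pow_eq_monomial, map_mul, map_pow, aevalAeval_C,
          aevalAeval_Y]
        rfl
    · rintro _ ⟨q, hq, rfl⟩
      refine ⟨fun j => ⟨aevalAeval u y₁ (q.coeff j), q.coeff j, hq.2 j, rfl⟩, ?_⟩
      show ev3 u y₁ y₂ q = ∑ j : Fin (a + L + 1), aevalAeval u y₁ (q.coeff j) * y₂ ^ (j : ℕ)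
      rw [Fin.sum_univ_eq_sum_range (fun j => aevalAeval u y₁ (q.coeff j) * y₂ ^ j), ev3_apply,
        eval₂_eq_sum_range' _ (Nat.lt_succ_of_le hq.1)]
      rfl

end Pool.Agent.FS.FiveEighths
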