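import Mathlib
import Pool.Agent.FS.FiveEighths.Def
import Pool.Agent.Lib.MP_4a1067_nt.AmBranch

set_option maxSynthPendingDepth 8

namespace Pool.Agent.FS.FiveEighths

open Polynomial Pool.Agent.Lib.MP_4a1067_nt Pool.Agent.Lib.MP_4a1067_nt.Am
open scoped PowerSeries

open IntermediateField

variable {κ Ω : Type*} [Field κ] [Field Ω] [Algebra κ Ω]

lemma ker_root_minpoly_clear (u : Ω) (m : κ⟮u⟯[X]) : ∃ (q : κ[X][X]) (d : κ[X]),
    aeval u d ≠ 0 ∧ ∀ w : Ω, aevalAeval u w q = aeval u d * aeval w m := by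
  induction m using Polynomial.induction_on' with
  | add a b ha hb =>
    obtain ⟨q1, d1, n1, h1⟩ := ha
    obtain ⟨q2, d2, n2, h2⟩ := hb
    refine ⟨C d2 * q1 + C d1 * q2, d1 * d2, by rw [map_mul]; exact mul_ne_zero n1 n2, fun w => ?_⟩
    rw [map_add, map_mul, map_mul, aevalAeval_C, aevalAeval_C, h1, h2, map_mul, map_add]
    ring
  | monomial n a =>
    obtain ⟨r, s, e⟩ := (mem_adjoin_simple_iff κ (a : Ω)).1 a.2
    have e' : algebraMap κ⟮u⟯ Ω a = aeval u r / aeval u s := e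
    by_cases hs : aeval u s = 0
    · refine ⟨0, 1, by simp, fun w => ?_⟩
      rw [aeval_monomial, e', hs]
      simp
    · refine ⟨C r * X ^ n, s, hs, fun w => ?_⟩
      rw [aeval_monomial, e', map_mul, map_pow, aevalAeval_C, aevalAeval_Y]
      field_simp

/-- a root of the prime relation is a root of the minimal polynomial -/
theorem root_minpoly (u y z : Ω) (hu : Transcendental κ u) {F : κ[X][X]} (hF : Prime F)
    (he : 1 ≤ F.natDegree) (hk : ∀ q, aevalAeval u y q = 0 ↔ F ∣ q)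
    (hz : aevalAeval u z F = 0) : aeval z (minpoly κ⟮u⟯ y) = 0 := by
  obtain ⟨q, d, hd, h⟩ := ker_root_minpoly_clear u (minpoly κ⟮u⟯ y)
  obtain ⟨c, hc⟩ := (hk q).1 (by rw [h, minpoly.aeval, mul_zero])
  have h0 := h z
  rw [hc, map_mul, hz, zero_mul] at h0
  exact (mul_eq_zero.1 h0.symm).resolve_left hd

lemma ev3_of_equiv (u y₁ y₂ : Ω) (σ : Ω ≃ₐ[κ⟮u⟯] Ω) (q : κ[X][X][X]) :
    ev3 u y₁ y₂ q = 0 ↔ ev3 u (σ y₁) (σ y₂) q = 0 := by
  have hu : σ u = u := σ.commutes (AdjoinSimple.gen κ u)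
  have h := map_ev3 u y₁ y₂ ((σ.restrictScalars κ).toAlgHom) q
  have e : ∀ x, (σ.restrictScalars κ).toAlgHom x = σ x := fun _ => rfl
  rw [e, e, e, e, hu] at h
  rw [← h]
  exact (map_eq_zero_iff σ σ.injective).symm

lemma ker_eval_map {R S : Type*} [CommRing R] [CommRing S] [Algebra κ R] [Algebra κ S]
    (ι : R →ₐ[κ] S) (u : R) (w : S) (F : κ[X][X]) :
    ((F.map (aeval u : κ[X] →ₐ[κ] R).toRingHom).map ι.toRingHom).eval w =
      aevalAeval (ι u) w F := by
  induction F using Polynomial.induction_on' with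
  | add a b ha hb => rw [Polynomial.map_add, Polynomial.map_add, eval_add, map_add, ha, hb]
  | monomial n a =>
    rw [Polynomial.map_monomial, Polynomial.map_monomial, eval_monomial,
      ← C_mul_X_pow_eq_monomial, map_mul, map_pow, aevalAeval_C, aevalAeval_Y,
      aeval_algHom_apply]
    rfl

/-- a root upstairs of the relation comes from a root in the algebraically closed field -/
lemma ker_root [IsAlgClosed Ω] {Ω' : Type*} [Field Ω'] [Algebra κ Ω'] (ι : Ω →ₐ[κ] Ω') (u : Ω)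
    (hu : Transcendental κ u) {F : κ[X][X]} (hF : F ≠ 0) (w : Ω')
    (hw : aevalAeval (ι u) w F = 0) : ∃ z, ι z = w ∧ aevalAeval u z F = 0 := by
  have h0 : F.map (aeval u : κ[X] →ₐ[κ] Ω).toRingHom ≠ 0 :=
    (Polynomial.map_ne_zero_iff ((injective_iff_map_eq_zero _).mpr fun r hr =>
      transcendental_iff.mp hu r hr)).mpr hF
  obtain ⟨z, hz⟩ := (IsAlgClosed.splits (F.map (aeval u : κ[X] →ₐ[κ] Ω).toRingHom)).mem_range_of_isRoot
    h0 (i := ι.toRingHom) (x := w) ((ker_eval_map ι u w F).trans hw)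
  have hz' : ι z = w := hz
  refine ⟨z, hz', ?_⟩
  rw [← map_eq_zero_iff ι ι.injective, ambranch_map, hz']
  exact hw

/-- every branch has the generic kernel -/
theorem ker3 [IsAlgClosed Ω] (u y₁ y₂ : Ω) (hu : Transcendental κ u)
    (halg : Algebra.IsAlgebraic κ⟮u⟯ Ω) {F₁ F₂ : κ[X][X]} (n₁ : F₁ ≠ 0) (n₂ : F₂ ≠ 0)
    (hT : ∀ z₁ z₂ : Ω, aevalAeval u z₁ F₁ = 0 → aevalAeval u z₂ F₂ = 0 →
      ∀ q : κ[X][X][X], ev3 u y₁ y₂ q = 0 ↔ ev3 u z₁ z₂ q = 0)
    (b : κ) (η₁ η₂ : κ⟦X⟧) (h₁ : aevalAeval (PowerSeries.C b + PowerSeries.X) η₁ F₁ = 0)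
    (h₂ : aevalAeval (PowerSeries.C b + PowerSeries.X) η₂ F₂ = 0) (q : κ[X][X][X]) :
    ev3 (PowerSeries.C b + PowerSeries.X) η₁ η₂ q = 0 ↔ ev3 u y₁ y₂ q = 0 := by
  let j : κ⟦X⟧ →ₐ[κ] AlgebraicClosure (FractionRing κ⟦X⟧) := IsScalarTower.toAlgHom κ _ _
  have hj : Function.Injective j :=
    (algebraMap (FractionRing κ⟦X⟧) (AlgebraicClosure (FractionRing κ⟦X⟧))).injective.comp
      (IsFractionRing.injective κ⟦X⟧ (FractionRing κ⟦X⟧))
  have c1 : PowerSeries.coeff 1 (PowerSeries.C b + PowerSeries.X : κ⟦X⟧) = 1 := by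
    simp
  have ht : Transcendental κ (j (PowerSeries.C b + PowerSeries.X)) := by
    rw [transcendental_iff]
    intro r hr
    by_contra r0
    rw [aeval_algHom_apply, map_eq_zero_iff _ hj] at hr
    have := order_aeval r r0 _ (c1 ▸ one_ne_zero)
    rw [hr, PowerSeries.order_zero] at this
    exact ENat.top_ne_natCast _ this
  obtain ⟨ι, hι⟩ := exists_emb _ hu halg _ ht
  obtain ⟨z₁, e₁, r₁⟩ := ker_root ι u hu n₁ (j η₁) (by rw [hι, ← ambranch_map, h₁, map_zero])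
  obtain ⟨z₂, e₂, r₂⟩ := ker_root ι u hu n₂ (j η₂) (by rw [hι, ← ambranch_map, h₂, map_zero])
  rw [hT z₁ z₂ r₁ r₂ q, ← map_eq_zero_iff j hj, ← map_eq_zero_iff ι ι.injective, map_ev3,
    map_ev3, hι, e₁, e₂]

/-- few points have a vanishing vertical derivative -/
theorem bad_points (p : ℕ) [CharP κ p] {F : κ[X][X]} {L : ℕ} (hF : Prime F) (he : 1 ≤ F.natDegree)
    (heL : F.natDegree ≤ L) (hF' : F ∈ Bd κ L F.natDegree) (hp : L < p) (B : Finset κ)
    (hB : ∀ b ∈ B, ∃ b', F.evalEval b b' = 0 ∧ F.derivative.evalEval b b' = 0) :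
    B.card ≤ 3 * L ^ 2 := by
  classical
  have hd0 : F.derivative ≠ 0 := by
    intro h0
    have h1 := congrArg (fun q : κ[X][X] => q.coeff (F.natDegree - 1)) h0
    simp only [coeff_derivative, coeff_zero, Nat.sub_add_cancel he, coeff_natDegree] at h1
    rcases mul_eq_zero.mp h1 with h2 | h2
    · exact hF.ne_zero (leadingCoeff_eq_zero.mp h2)
    · have h3 : ((F.natDegree : ℕ) : κ[X]) = 0 := by
        rw [← h2, ← Nat.cast_succ]; congr 1; omega
      have h4 : p ∣ F.natDegree := (CharP.cast_eq_zero_iff κ[X] p _).mp h3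
      have := Nat.le_of_dvd (by omega) h4
      omega
  have hnd : ¬ F ∣ F.derivative := fun h => by
    have h1 := natDegree_le_of_dvd h hd0
    have h2 := natDegree_derivative_lt (p := F) (by omega)
    omega
  obtain ⟨r₁, hr₁, hdeg₁, B₁, hB₁⟩ := exists_res hF he hF' (Bd_derivative hF') hnd
  have h1 := amstepe_count r₁ B 1 fun b hb => by
    obtain ⟨b', hb1, hb2⟩ := hB b hb
    have h2 := evalEval_dvd b b' hB₁
    rw [hb1, zero_dvd_iff, evalEval_sub, evalEval_mul, hb2, mul_zero, sub_zero,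
      evalEval_C] at h2
    exact (rootMultiplicity_pos hr₁).mpr h2
  have h3 : L * F.natDegree ≤ L ^ 2 := by rw [sq]; exact Nat.mul_le_mul_left _ heL
  have h4 : L * F.natDegree + (F.natDegree + F.natDegree) * L = 3 * (L * F.natDegree) := by
    ring
  omega

end Pool.Agent.FS.FiveEighths
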