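import Mathlib
import Pool.Agent.FS.FiveEighths.Def

set_option maxSynthPendingDepth 8

namespace Pool.Agent.FS.FiveEighths

open Polynomial Pool.Agent.Lib.MP_4a1067_nt Pool.Agent.Lib.MP_4a1067_nt.Am
open scoped PowerSeries

variable {κ P μ : Type*} [Field κ] [CommRing P] [Algebra κ P] [Fintype μ] {p L Ψ : ℕ}
  {S : Finset κ} (Z : Dat κ P μ p L Ψ S) {ι : Type*} [Fintype ι] [DecidableEq ι]

theorem Dat.aux_mem (G : ι → P) (hG : ∀ T : Finset ι, ∏ i ∈ T, G i ∈ Z.W L) {A : ℕ}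
    (c : Finset ι → Fin L → μ → Fin A → μ → κ) : Z.aux G c ∈ Z.W (A + L + 3 * p * L) := by
  refine Submodule.sum_mem _ fun T _ => Submodule.sum_mem _ fun j _ =>
    Submodule.sum_mem _ fun k _ => ?_
  have h1 : p / 2 * L ≤ p * L := Nat.mul_le_mul_right L (Nat.div_le_self p 2)
  have h2 := Z.mul (Z.mul (Z.cmb_mem (c T j k)) (Z.pow_mem (Z.mon_mem j.2.le k) p))
    (Z.mono h1 (Z.pow_mem (hG T) (p / 2)))
  exact Z.mono (le_of_eq (by ring)) h2

lemma Dat.stcoef_opT_mem (G : ι → P) (hG : ∀ T : Finset ι, ∏ i ∈ T, G i ∈ Z.W L) (k : ℕ)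
    (T : Finset ι) {n : ℕ} {q : P} (hq : q ∈ Z.W n) : Z.opT G k T q ∈ Z.W (n + 4 * L) := by
  refine Submodule.add_mem _ (Z.mono (by omega) (Z.mul (hG Finset.univ) (Z.D_mem hq))) ?_
  rw [mul_assoc, mul_assoc, ← nsmul_eq_mul]
  exact nsmul_mem (Z.mono (by omega) (Z.mul (hG Tᶜ) (Z.mul (Z.D_mem (hG T)) hq))) k

lemma Dat.stcoef_iterate_mem (G : ι → P) (hG : ∀ T : Finset ι, ∏ i ∈ T, G i ∈ Z.W L) (k : ℕ)
    (T : Finset ι) {a : ℕ} {q : P} (hq : q ∈ Z.W a) (n : ℕ) :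
    (Z.opT G k T)^[n] q ∈ Z.W (a + n * (4 * L)) := by
  induction n with
  | zero => simpa using hq
  | succ n ih =>
    rw [Function.iterate_succ_apply', add_one_mul n, ← add_assoc a]
    exact Z.stcoef_opT_mem G hG k T ih

lemma stcoef_ker {B R : Type*} [AddCommGroup B] [Module κ B] [FiniteDimensional κ B]
    [CommRing R] [Algebra κ R] (W : Submodule κ R) [FiniteDimensional κ W] {D : ℕ}
    (f : Fin D → B →ₗ[κ] R) (hf : ∀ n v, f n v ∈ W) (I : Ideal R)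
    (h : D * Module.finrank κ (W.map (Ideal.Quotient.mkₐ κ I).toLinearMap) <
      Module.finrank κ B) :
    ∃ v ≠ 0, ∀ n, f n v ∈ I := by
  let Φ : B →ₗ[κ] (Fin D → W.map (Ideal.Quotient.mkₐ κ I).toLinearMap) :=
    LinearMap.pi fun n => LinearMap.codRestrict _ ((Ideal.Quotient.mkₐ κ I).toLinearMap ∘ₗ f n)
      fun v => Submodule.mem_map_of_mem (hf n v)
  have := Module.Free.of_divisionRing κ (W.map (Ideal.Quotient.mkₐ κ I).toLinearMap)
  have hlt : Module.finrank κ (Fin D → W.map (Ideal.Quotient.mkₐ κ I).toLinearMap) <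
      Module.finrank κ B := by
    simp only [Module.finrank_pi_fintype, Finset.sum_const, Finset.card_univ, Fintype.card_fin,
      smul_eq_mul]
    exact h
  obtain ⟨v, hv, h0⟩ := Submodule.exists_mem_ne_zero_of_ne_bot (Φ.ker_ne_bot_of_finrank_lt hlt)
  exact ⟨v, h0, fun n => Ideal.Quotient.eq_zero_iff_mem.1
    (congrArg Subtype.val (congrFun (LinearMap.mem_ker.1 hv) n))⟩

/-- the operator `opT` as a linear map -/
noncomputable def Dat.stcoefL (G : ι → P) (k : ℕ) (T : Finset ι) : P →ₗ[κ] P where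
  toFun := Z.opT G k T
  map_add' q q' := by
    simp only [Dat.opT, map_add]
    ring
  map_smul' c q := by
    simp only [Dat.opT, map_smul, RingHom.id_apply, mul_smul_comm, smul_add]

/-- the combination of monomials as a linear map -/
noncomputable def Dat.stcoefC (J : ℕ) : (Fin J → μ → κ) →ₗ[κ] P where
  toFun := Z.cmb
  map_add' d d' := by
    simp only [Dat.cmb, Pi.add_apply, add_smul, Finset.sum_add_distrib]
  map_smul' c d := by
    simp only [Dat.cmb, Pi.smul_apply, smul_eq_mul, RingHom.id_apply, Finset.smul_sum, smul_smul]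

lemma Dat.stcoef_psi (G : ι → P) (m A : ℕ) :
    ∃ Φ : ℕ → (Finset ι → Fin L → μ → Fin A → μ → κ) →ₗ[κ] P, ∀ n c, Φ n c =
      ∑ T, ∑ j : Fin L, ∑ k : μ,
        (Z.opT G m T)^[n] (Z.cmb (c T j k)) * (Z.x ^ (j : ℕ) * Z.m k) := by
  refine ⟨fun n =>
    ∑ T, ∑ j : Fin L, ∑ k : μ, LinearMap.mulRight κ (Z.x ^ (j : ℕ) * Z.m k) ∘ₗ
      (Z.stcoefL G m T ^ n) ∘ₗ Z.stcoefC A ∘ₗ LinearMap.proj k ∘ₗ
      LinearMap.proj j ∘ₗ LinearMap.proj T, fun n c => ?_⟩
  simp only [LinearMap.sum_apply, LinearMap.comp_apply, LinearMap.mulRight_apply,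
    LinearMap.proj_apply, Module.End.pow_apply]
  rfl

theorem Dat.exists_coeffs (G : ι → P) (hG : ∀ T : Finset ι, ∏ i ∈ T, G i ∈ Z.W L) (A D : ℕ)
    (hdim : D * (Ψ * (A + 4 * L + 4 * L * D)) <
      2 ^ Fintype.card ι * L * Fintype.card μ * (A * Fintype.card μ)) :
    ∃ c : Finset ι → Fin L → μ → Fin A → μ → κ, c ≠ 0 ∧ ∀ n < D,
      ∑ T, ∑ j, ∑ k, (Z.opT G (p / 2) T)^[n] (Z.cmb (c T j k)) * (Z.x ^ (j : ℕ) * Z.m k)
        ∈ Z.I := by
  obtain ⟨Φ, hΦ⟩ := Z.stcoef_psi G (p / 2) A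
  have hW : ∀ (n : Fin D) c, Φ n c ∈ Z.W (A + 3 * L + D * (4 * L)) := by
    intro n c
    rw [hΦ]
    refine Submodule.sum_mem _ fun T _ => Submodule.sum_mem _ fun j _ =>
      Submodule.sum_mem _ fun k _ => ?_
    have h1 := Nat.mul_le_mul_right (4 * L) n.2.le
    exact Z.mono (by omega) (Z.mul (Z.stcoef_iterate_mem G hG (p / 2) T (Z.cmb_mem (c T j k)) n)
      (Z.mon_mem j.2.le k))
  have h1 := Z.dim (A + 3 * L + D * (4 * L))
  rw [show A + 3 * L + D * (4 * L) + L = A + 4 * L + 4 * L * D by ring] at h1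
  have h2 : 2 ^ Fintype.card ι * L * Fintype.card μ * (A * Fintype.card μ) =
      Module.finrank κ (Finset ι → Fin L → μ → Fin A → μ → κ) := by
    simp only [Module.finrank_pi_fintype, Finset.sum_const, Finset.card_univ, Fintype.card_fin,
      Fintype.card_finset, smul_eq_mul, Module.finrank_self]
    ring
  rw [h2] at hdim
  have h4 := (Nat.mul_le_mul_left D h1).trans_lt hdim
  have := Z.fin (A + 3 * L + D * (4 * L))
  obtain ⟨c, h0, hc⟩ := stcoef_ker (Z.W (A + 3 * L + D * (4 * L)))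
    (fun n : Fin D => Φ n) hW Z.I h4
  refine ⟨c, h0, fun n hn => ?_⟩
  have h3 : Φ n c ∈ Z.I := hc ⟨n, hn⟩
  rwa [hΦ] at h3

end Pool.Agent.FS.FiveEighths
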