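import Mathlib
import Pool.Agent.FS.FiveEighths.Def

set_option maxSynthPendingDepth 8

namespace Pool.Agent.FS.FiveEighths

open Polynomial Pool.Agent.Lib.MP_4a1067_nt Pool.Agent.Lib.MP_4a1067_nt.Am
open scoped PowerSeries

variable {κ P μ : Type*} [Field κ] [CommRing P] [Algebra κ P] [Fintype μ] {p L Ψ : ℕ}
  {S : Finset κ} (Z : Dat κ P μ p L Ψ S) {ι : Type*} [Fintype ι] [DecidableEq ι]

lemma stdvd_theta {b : κ} (hb : b ∈ S) (G : ι → P) (k : ℕ) (T : Finset ι) (q : P) {w : κ⟦X⟧}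
    (hw : PowerSeries.derivative κ w = 0) :
    Z.φ b (Z.δ * ∏ i, G i) *
      PowerSeries.derivative κ (Z.φ b q * w * Z.φ b (∏ i ∈ T, G i) ^ k) =
      Z.φ b (Z.opT G k T q) * w * Z.φ b (∏ i ∈ T, G i) ^ k := by
  have h1 := Z.chain b hb q
  have h2 := Z.chain b hb (∏ i ∈ T, G i)
  rw [Dat.opT, ← Finset.prod_mul_prod_compl T G]
  simp only [map_add, map_mul, map_natCast, Derivation.leibniz, Derivation.leibniz_pow, hw,
    smul_eq_mul, nsmul_eq_mul, ← h1, ← h2]
  cases k with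
  | zero => simp only [Nat.cast_zero]; ring
  | succ k => simp only [Nat.add_sub_cancel]; ring

theorem Dat.aux_dvd [Fact p.Prime] [CharP κ p] (hp2 : p ≠ 2) (G : ι → P) {A D : ℕ} (hD : D ≤ p)
    (c : Finset ι → Fin L → μ → Fin A → μ → κ)
    (hcond : ∀ n < D,
      ∑ T, ∑ j, ∑ k, (Z.opT G (p / 2) T)^[n] (Z.cmb (c T j k)) * (Z.x ^ (j : ℕ) * Z.m k) ∈ Z.I)
    {b : κ} (hb : b ∈ S)
    (hG : ∀ i, PowerSeries.constantCoeff (Z.φ b (G i)) ^ (p / 2) = 1) :
    (PowerSeries.X : κ⟦X⟧) ^ D ∣ Z.φ b (Z.aux G c) := by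
  have hp : p / 2 ≠ 0 := by
    have := (Fact.out : p.Prime).two_le
    omega
  have hGS : ∀ T : Finset ι,
      PowerSeries.constantCoeff (Z.φ b (∏ i ∈ T, G i) ^ (p / 2)) = 1 := by
    intro T
    simp only [map_pow, map_prod, ← Finset.prod_pow, hG, Finset.prod_const_one]
  refine theta_dvd p (Z.φ b (Z.δ * ∏ i, G i)) ?_ D hD _ fun n hn => ?_
  · rw [map_mul, map_mul, map_prod, map_prod]
    refine mul_ne_zero (Z.δ_ne b hb) (Finset.prod_ne_zero_iff.2 fun i _ h0 => ?_)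
    have := hG i
    rw [h0, zero_pow hp] at this
    exact zero_ne_one this
  have hw : ∀ w : κ⟦X⟧, PowerSeries.derivative κ (w ^ p) = 0 := by
    intro w
    rw [Derivation.leibniz_pow, ← Nat.cast_smul_eq_nsmul κ, CharP.cast_eq_zero, zero_smul]
  have hit : ∀ n : ℕ, (fun g : κ⟦X⟧ =>
      Z.φ b (Z.δ * ∏ i, G i) * PowerSeries.derivative κ g)^[n] (Z.φ b (Z.aux G c)) =
      ∑ T, ∑ j, ∑ k, Z.φ b ((Z.opT G (p / 2) T)^[n] (Z.cmb (c T j k))) *
          Z.φ b (Z.x ^ (j : ℕ) * Z.m k) ^ p * Z.φ b (∏ i ∈ T, G i) ^ (p / 2) := by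
    intro n
    induction n with
    | zero =>
      rw [Function.iterate_zero_apply, Dat.aux]
      simp only [map_sum, Function.iterate_zero_apply]
      refine Finset.sum_congr rfl fun T _ => Finset.sum_congr rfl fun j _ =>
        Finset.sum_congr rfl fun k _ => ?_
      rw [map_mul, map_mul, map_pow _ _ p, map_pow _ _ (p / 2)]
    | succ n ih =>
      rw [Function.iterate_succ_apply', ih]
      simp only [map_sum, Finset.mul_sum]
      refine Finset.sum_congr rfl fun T _ => Finset.sum_congr rfl fun j _ =>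
        Finset.sum_congr rfl fun k _ => ?_
      rw [Function.iterate_succ_apply', stdvd_theta Z hb G _ T _ (hw _)]
  have h2 := congrArg PowerSeries.constantCoeff ((Z.ker b hb _).2 (hcond n hn))
  simp only [map_sum] at h2
  rw [map_zero] at h2
  rw [hit, ← h2]
  simp only [map_sum]
  refine Finset.sum_congr rfl fun T _ => Finset.sum_congr rfl fun j _ =>
    Finset.sum_congr rfl fun k _ => ?_
  have h3 : PowerSeries.constantCoeff (Z.φ b (Z.x ^ (j : ℕ) * Z.m k)) =
      b ^ (j : ℕ) * PowerSeries.constantCoeff (Z.φ b (Z.m k)) := by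
    rw [map_mul, map_pow, Z.φx b hb, map_mul, map_pow, map_add, PowerSeries.constantCoeff_C,
      PowerSeries.constantCoeff_X, add_zero]
  rw [map_mul, hGS, mul_one, map_mul, map_pow,
    map_mul _ ((Z.opT G (p / 2) T)^[n] (Z.cmb (c T j k))),
    map_mul PowerSeries.constantCoeff, h3, mul_pow, ← pow_mul, mul_comm _ p, pow_mul,
    (Z.frob b hb).1, (Z.frob b hb).2]

end Pool.Agent.FS.FiveEighths
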