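import Mathlib
import Pool.Agent.FS.FiveEighths.Def

set_option maxSynthPendingDepth 8

namespace Pool.Agent.FS.FiveEighths

open Polynomial Pool.Agent.Lib.MP_4a1067_nt Pool.Agent.Lib.MP_4a1067_nt.Am
open scoped PowerSeries

variable {κ P μ : Type*} [Field κ] [CommRing P] [Algebra κ P] [Fintype μ] {p L Ψ : ℕ}
  {S : Finset κ} (Z : Dat κ P μ p L Ψ S) {ι : Type*} [Fintype ι] [DecidableEq ι]

theorem Dat.norm_det (h2 : (2 : κ) ≠ 0) {b : κ} (hb : b ∈ S) (G : ι → P)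
    (hG : ∀ T : Finset ι, ∏ i ∈ T, G i ∈ Z.W L)
    (hns : ∀ T : Finset ι, T.Nonempty → ∀ a c : P,
      a ^ 2 - (∏ i ∈ T, G i) * c ^ 2 ∈ Z.I → c ∈ Z.I)
    (ζ : ι → κ⟦X⟧) (hζ : ∀ i, ζ i ^ 2 = Z.φ b (G i)) (n : ℕ) (h : Finset ι → P)
    (hh : ∀ T, h T ∈ Z.W n) (hne : ∃ T, h T ∉ Z.I) :
    ∃ q ∈ Z.W (2 ^ Fintype.card ι * (n + L)),
      q ∉ Z.I ∧ (∑ T, Z.φ b (h T) * ∏ i ∈ T, ζ i) ∣ Z.φ b q := by
  let φ : P →+* κ⟦X⟧ := (Z.φ b : P →+* κ⟦X⟧)
  have hker : ∀ q, φ q = 0 ↔ q ∈ Z.I := Z.ker b hb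
  change ∀ i, ζ i ^ 2 = φ (G i) at hζ
  change ∃ q ∈ Z.W (2 ^ Fintype.card ι * (n + L)),
      q ∉ Z.I ∧ (∑ T, φ (h T) * ∏ i ∈ T, ζ i) ∣ φ q
  let N : Matrix (Finset ι) (Finset ι) P :=
    Matrix.of fun T U => h (symmDiff U T) * ∏ i ∈ symmDiff U T ∩ T, G i
  refine ⟨N.det, ?_, ?_, ?_⟩
  · rw [Matrix.det_apply']
    refine Submodule.sum_mem _ fun σ _ => ?_
    rw [← zsmul_eq_mul]
    refine zsmul_mem ?_ _
    have := Z.prod_mem Finset.univ (fun T => N (σ T) T) fun T _ => Z.mul (hh _) (hG _)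
    rwa [Finset.card_univ, Fintype.card_finset] at this
  · intro hdvd
    let M := FractionRing κ⟦X⟧
    let ψ : P →+* M := (algebraMap κ⟦X⟧ M).comp φ
    have hψ : ∀ q, ψ q = 0 ↔ q ∈ Z.I := fun q => by
      rw [← hker]
      exact map_eq_zero_iff _ (IsFractionRing.injective κ⟦X⟧ M)
    let K : Subfield M := Subfield.closure (Set.range ψ)
    let ψK : P →+* K := ψ.codRestrict K fun q => Subfield.subset_closure ⟨q, rfl⟩
    have hψK : ∀ q, algebraMap K M (ψK q) = ψ q := fun _ => rfl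
    have hF1 : (1 : P) ∉ Z.I := fun h1 => one_ne_zero ((map_one ψ).symm.trans ((hψ 1).2 h1))
    have h2K : (2 : K) ≠ 0 := by
      have e : (2 : K) = (ψK.comp (algebraMap κ P)) (2 : κ) := (map_ofNat _ 2).symm
      rw [e]
      exact (_root_.map_ne_zero _).2 h2
    let z : ι → M := fun i => algebraMap κ⟦X⟧ M (ζ i)
    have hz : ∀ i, z i ^ 2 = ψ (G i) := fun i => by
      simp only [z, ← map_pow, hζ]
      rfl
    have hli := kummer h2K (fun i => ψK (G i)) z hz (by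
      rintro V hV ⟨x, hx⟩
      rw [← map_prod] at hx
      have hx' : ψ (∏ i ∈ V, G i) = (x : M) * x := congrArg (algebraMap K M) hx
      obtain ⟨y, hy, w, hw, e⟩ := Subfield.mem_closure_iff.1 x.2
      rw [← RingHom.coe_range, Subring.closure_eq] at hy hw
      obtain ⟨a, rfl⟩ := hy
      obtain ⟨c, rfl⟩ := hw
      by_cases hc : ψ c = 0
      · refine hF1 (hns V hV 0 1 ((hψ _).1 ?_))
        rw [map_sub, map_mul, hx', ← e, hc]
        simp
      · refine hc ((hψ c).2 (hns V hV a c ((hψ _).1 ?_)))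
        rw [map_sub, map_mul, hx', ← e, map_pow, map_pow, ← sq, ← mul_pow,
          div_mul_cancel₀ _ hc, sub_self])
    rw [Fintype.linearIndependent_iff] at hli
    have hdet : (N.map ψK).det = 0 := by
      have e : (N.map ψK).det = ψK N.det := (RingHom.map_det ψK N).symm
      rw [e]
      exact Subtype.ext ((hψ _).2 hdvd)
    obtain ⟨v, hv0, hv⟩ := Matrix.exists_vecMul_eq_zero_iff.2 hdet
    have hf : ∑ V, ψ (h V) * ∏ i ∈ V, z i ≠ 0 := fun h0 => by
      obtain ⟨V, hV⟩ := hne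
      have := hli (fun V => ψK (h V)) h0 V
      exact hV ((hψ _).1 (congrArg (algebraMap K M) this))
    refine hv0 (funext (hli v ?_))
    apply mul_left_cancel₀ hf
    rw [mul_zero, Finset.mul_sum]
    calc ∑ T, (∑ V, ψ (h V) * ∏ i ∈ V, z i) * v T • ∏ i ∈ T, z i
        = ∑ T, ∑ U, (v T * ψK (N T U)) • ∏ i ∈ U, z i := by
          refine Finset.sum_congr rfl fun T _ => ?_
          rw [mul_smul_comm, ← amStepC_row ψ G z hz h T, Finset.smul_sum]
          refine Finset.sum_congr rfl fun U _ => ?_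
          rw [mul_smul]
          rfl
      _ = ∑ U, (Matrix.vecMul v (N.map ψK) U) • ∏ i ∈ U, z i := by
          rw [Finset.sum_comm]
          refine Finset.sum_congr rfl fun U _ => ?_
          rw [← Finset.sum_smul]
          rfl
      _ = 0 := by simp [hv]
  · let Y : Finset ι → κ⟦X⟧ := fun V => ∏ i ∈ V, ζ i
    have e1 : (N.map φ).mulVec Y = (∑ V, φ (h V) * ∏ i ∈ V, ζ i) • Y := by
      funext T
      exact amStepC_row φ G ζ hζ h T
    have e2 := congrArg (fun w => (N.map φ).adjugate.mulVec w ∅) e1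
    simp only [Matrix.mulVec_mulVec, Matrix.adjugate_mul, Matrix.smul_mulVec, Matrix.one_mulVec,
      Matrix.mulVec_smul, Pi.smul_apply, smul_eq_mul, Y, Finset.prod_empty, mul_one] at e2
    exact ⟨_, (RingHom.map_det φ N).trans e2⟩

end Pool.Agent.FS.FiveEighths
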