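import Mathlib
import Pool.Agent.FS.FiveEighths.Def

set_option maxSynthPendingDepth 8

namespace Pool.Agent.FS.FiveEighths

open Polynomial Pool.Agent.Lib.MP_4a1067_nt Pool.Agent.Lib.MP_4a1067_nt.Am
open scoped PowerSeries

variable {κ P μ : Type*} [Field κ] [CommRing P] [Algebra κ P] [Fintype μ] {p L Ψ : ℕ}
  {S : Finset κ} (Z : Dat κ P μ p L Ψ S) {ι : Type*} [Fintype ι] [DecidableEq ι]

lemma Dat.stord_aeval {N : ℕ} (r : κ[X]) (hr : r ∈ degreeLT κ N) : aeval Z.x r ∈ Z.W N := by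
  rcases eq_or_ne r 0 with rfl | h0
  · rw [map_zero]; exact zero_mem _
  have h1 : r.natDegree < N := (natDegree_lt_iff_degree_lt h0).2 (mem_degreeLT.1 hr)
  rw [aeval_eq_sum_range' h1]
  exact Submodule.sum_mem _ fun i hi => Submodule.smul_mem _ _
    (Z.mono (by have := Finset.mem_range.1 hi; omega) (Z.pow_mem Z.x_mem i))

lemma Dat.stord_step {n d m : ℕ} {q : P} (hq : q ∈ Z.W n) (h0 : q ∉ Z.I) (S' : Finset κ)
    (hS : S' ⊆ S) (hd : ∀ b ∈ S', (PowerSeries.X : κ⟦X⟧) ^ d ∣ Z.φ b q) {b₀ : κ} (hb₀ : b₀ ∈ S)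
    (hm : d * S'.card ≤ m) :
    Module.finrank κ ((Z.W m).map (Ideal.Quotient.mkₐ κ Z.I).toLinearMap) + d * S'.card ≤
      Module.finrank κ ((Z.W (m + n)).map (Ideal.Quotient.mkₐ κ Z.I).toLinearMap) := by
  have := Z.fin m
  have := Z.fin (m + n)
  set π := (Ideal.Quotient.mkₐ κ Z.I).toLinearMap with hπ
  have πz : ∀ a : P, π a = 0 ↔ a ∈ Z.I := fun a => Ideal.Quotient.eq_zero_iff_mem
  have πm : ∀ a b : P, π (a * b) = π a * π b := fun a b => map_mul (Ideal.Quotient.mkₐ κ Z.I) a b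
  have : FiniteDimensional κ (degreeLT κ (d * S'.card)) :=
    (degreeLTEquiv κ (d * S'.card)).symm.finiteDimensional
  let f : ((Z.W m).map π × degreeLT κ (d * S'.card)) →ₗ[κ] P ⧸ Z.I :=
    LinearMap.coprod (LinearMap.mulLeft κ (π q) ∘ₗ Submodule.subtype _)
      (π ∘ₗ (aeval Z.x).toLinearMap ∘ₗ Submodule.subtype _)
  have fa : ∀ z, f z = π q * z.1 + π (aeval Z.x (z.2 : κ[X])) := fun z => rfl
  have inj : Function.Injective f := by
    rw [injective_iff_map_eq_zero]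
    rintro ⟨⟨_, w, hw, rfl⟩, r, hr⟩ hz
    rw [fa] at hz
    have h1 : q * w + aeval Z.x r ∈ Z.I := by
      rw [← πz, map_add, πm]
      exact hz
    have h2 : r = 0 := by
      by_contra r0
      have h3 := amstepe_count r S' d fun b hb => le_rootMultiplicity r r0 b d (by
        have h4 := (Z.ker b (hS hb) _).2 h1
        rw [map_add, map_mul, ← aeval_algHom_apply, Z.φx b (hS hb), add_eq_zero_iff_neg_eq] at h4
        rw [← h4]
        exact ((hd b hb).mul_right _).neg_right)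
      have h5 := (natDegree_lt_iff_degree_lt r0).2 (mem_degreeLT.1 hr)
      omega
    subst h2
    rw [map_zero, add_zero] at h1
    have h3 := (Z.ker b₀ hb₀ _).2 h1
    rw [map_mul, mul_eq_zero, Z.ker b₀ hb₀, Z.ker b₀ hb₀] at h3
    exact Prod.ext (Subtype.ext ((πz w).2 (h3.resolve_left h0))) rfl
  have h1 : LinearMap.range f ≤ (Z.W (m + n)).map π := by
    rintro _ ⟨⟨⟨_, w, hw, rfl⟩, r, hr⟩, rfl⟩
    refine ⟨w * q + aeval Z.x r, add_mem (Z.mul hw hq)
      (Z.mono (by omega) (Z.stord_aeval r hr)), ?_⟩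
    rw [fa, map_add, πm, mul_comm]
  have h2 := Submodule.finrank_mono h1
  rwa [LinearMap.finrank_range_of_inj inj, Module.finrank_prod,
    (degreeLTEquiv κ (d * S'.card)).finrank_eq, Module.finrank_fin_fun] at h2

theorem Dat.ordsum {n d : ℕ} {q : P} (hq : q ∈ Z.W n) (h0 : q ∉ Z.I) (S' : Finset κ)
    (hS : S' ⊆ S) (hd : ∀ b ∈ S', (PowerSeries.X : κ⟦X⟧) ^ d ∣ Z.φ b q) :
    d * S'.card ≤ Ψ * n := by
  rcases S'.eq_empty_or_nonempty with rfl | ⟨b₀, hb₀⟩
  · simp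
  have h1 : ∀ t : ℕ, t * (d * S'.card) ≤ Module.finrank κ
      ((Z.W (d * S'.card + t * n)).map (Ideal.Quotient.mkₐ κ Z.I).toLinearMap) := by
    intro t
    induction t with
    | zero => rw [zero_mul]; exact Nat.zero_le _
    | succ t ih =>
      have := Z.stord_step hq h0 S' hS hd (hS hb₀) (m := d * S'.card + t * n) (Nat.le_add_right _ _)
      rw [Nat.succ_mul, Nat.succ_mul, ← add_assoc]
      omega
  generalize d * S'.card = N at h1 ⊢
  have h2 := (h1 (Ψ * (N + L) + 1)).trans (Z.dim _)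
  by_contra h3
  have h4 := Nat.mul_le_mul_left (Ψ * (N + L) + 1) (Nat.succ_le_of_lt (not_le.1 h3))
  nlinarith

end Pool.Agent.FS.FiveEighths
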