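import Mathlib
import Pool.Agent.FS.FiveEighths.StOrd
import Pool.Agent.FS.FiveEighths.StNorm

set_option maxSynthPendingDepth 8

namespace Pool.Agent.FS.FiveEighths

open Polynomial Pool.Agent.Lib.MP_4a1067_nt Pool.Agent.Lib.MP_4a1067_nt.Am
open scoped PowerSeries

variable {κ P μ : Type*} [Field κ] [CommRing P] [Algebra κ P] [Fintype μ] {p L Ψ : ℕ}
  {S : Finset κ} (Z : Dat κ P μ p L Ψ S) {ι : Type*} [Fintype ι] [DecidableEq ι]

lemma stnot_eval (b : κ) {J : ℕ} (d : Fin J → μ → κ) :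
    Z.φ b (Z.cmb d) = ∑ a : Fin J, ∑ i, d a i • (Z.φ b Z.x ^ (a : ℕ) * Z.φ b (Z.m i)) := by
  simp only [Dat.cmb, map_sum, map_smul, map_mul, map_pow]

theorem Dat.aux_not_mem [IsAlgClosed κ] [Fact p.Prime] [CharP κ p] (hp2 : p ≠ 2) (G : ι → P)
    (hG : ∀ T : Finset ι, ∏ i ∈ T, G i ∈ Z.W L)
    (hns : ∀ T : Finset ι, T.Nonempty → ∀ a c : P,
      a ^ 2 - (∏ i ∈ T, G i) * c ^ 2 ∈ Z.I → c ∈ Z.I)
    {A : ℕ} (hord : Ψ * (2 ^ Fintype.card ι * (A + L + L)) < p) {b : κ} (hb : b ∈ S)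
    (hG0 : ∀ i, PowerSeries.constantCoeff (Z.φ b (G i)) ≠ 0)
    (c : Finset ι → Fin L → μ → Fin A → μ → κ) (hc : c ≠ 0) : Z.aux G c ∉ Z.I := by
  intro hdvd
  have hp : p.Prime := Fact.out
  have h2 : (2 : κ) ≠ 0 := fun h => hp2 ((Nat.prime_dvd_prime_iff_eq hp Nat.prime_two).1
    ((CharP.cast_eq_zero_iff κ p 2).1 (by exact_mod_cast h)))
  have hodd : p = 2 * (p / 2) + 1 := by
    have := hp.eq_two_or_odd
    omega
  have : CharP κ⟦X⟧ p := charP_of_injective_algebraMap (algebraMap κ κ⟦X⟧).injective p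
  have hker := Z.ker b hb
  have hsq : ∀ i, ∃ z : κ⟦X⟧, z ≠ 0 ∧ z ^ 2 = Z.φ b (G i) := fun i =>
    amstepd_sqrt h2 _ (hG0 i)
  choose ζ hζ0 hζ using hsq
  have hS : ∀ T : Finset ι, Z.φ b (∏ i ∈ T, G i) ^ (p / 2) * ∏ i, ζ i =
      (∏ i ∈ T, ζ i) ^ p * ∏ i ∈ Tᶜ, ζ i := by
    intro T
    have e : Z.φ b (∏ i ∈ T, G i) = (∏ i ∈ T, ζ i) ^ 2 := by
      rw [map_prod, ← Finset.prod_pow]
      exact Finset.prod_congr rfl fun i _ => (hζ i).symm
    rw [e, ← Finset.prod_mul_prod_compl T ζ, ← pow_mul, ← mul_assoc, ← pow_succ, ← hodd]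
  let v : Finset ι × Fin A × μ → κ⟦X⟧ := fun s =>
    Z.φ b Z.x ^ (s.2.1 : ℕ) * Z.φ b (Z.m s.2.2) * ∏ i ∈ s.1ᶜ, ζ i
  let U : Finset ι × Fin A × μ → κ⟦X⟧ := fun s =>
    ∑ j : Fin L, ∑ k : μ, c s.1 j k s.2.1 s.2.2 •
      (Z.φ b Z.x ^ (j : ℕ) * Z.φ b (Z.m k) * ∏ i ∈ s.1, ζ i) ^ p
  have hv : ∀ e : Finset ι × Fin A × μ → κ,
      (PowerSeries.X : κ⟦X⟧) ^ p ∣ ∑ s, e s • v s → e = 0 := by
    intro e he
    by_contra he0
    let H : Finset ι → P := fun T => Z.cmb fun (a : Fin A) (i : μ) => e (Tᶜ, a, i)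
    have hH : ∃ T, H T ∉ Z.I := by
      by_contra hcon
      refine he0 (funext fun s => ?_)
      have h1 : H s.1ᶜ ∈ Z.I := not_not.1 fun hn => hcon ⟨s.1ᶜ, hn⟩
      have h3 := congrFun (congrFun (Z.indep A _ h1) s.2.1) s.2.2
      simpa using h3
    obtain ⟨q, hq, hq0, hq1⟩ := Z.norm_det h2 hb G hG hns ζ hζ (A + L) H
      (fun T => Z.cmb_mem _) hH
    have e1 : ∑ T, Z.φ b (H T) * ∏ i ∈ T, ζ i = ∑ s, e s • v s := by
      rw [Fintype.sum_prod_type, ← compl_bijective.sum_comp]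
      refine Finset.sum_congr rfl fun T _ => ?_
      simp only [H, v, stnot_eval, compl_compl, Fintype.sum_prod_type, Finset.sum_mul,
        smul_mul_assoc]
    have hq2 : ∑ s, e s • v s ∣ Z.φ b q := e1 ▸ hq1
    have h3 := Z.ordsum (d := p) hq hq0 {b} (Finset.singleton_subset_iff.2 hb) fun b' hb' => by
      rw [Finset.mem_singleton.1 hb']
      exact he.trans hq2
    rw [Finset.card_singleton, mul_one] at h3
    exact absurd hord (not_lt.2 h3)
  have hU : ∀ s, PowerSeries.derivative κ (U s) = 0 := by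
    intro s
    simp only [U, map_sum, Derivation.map_smul, Derivation.leibniz_pow, nsmul_eq_mul,
      CharP.cast_eq_zero, zero_mul, smul_zero, Finset.sum_const_zero]
  have hsum : ∑ s, v s * U s = 0 := by
    have e := congrArg (· * ∏ i, ζ i) ((hker _).2 hdvd)
    simp only [Dat.aux, map_sum, map_mul, map_pow, zero_mul, Finset.sum_mul, mul_assoc, hS] at e
    rw [← e, Fintype.sum_prod_type]
    refine Finset.sum_congr rfl fun T _ => ?_
    simp only [U, Finset.mul_sum]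
    rw [Finset.sum_comm]
    refine Finset.sum_congr rfl fun j _ => ?_
    rw [Finset.sum_comm]
    refine Finset.sum_congr rfl fun k _ => ?_
    rw [stnot_eval]
    simp only [Fintype.sum_prod_type, Finset.sum_mul, v, smul_mul_assoc, mul_smul_comm, mul_pow]
    exact Finset.sum_congr rfl fun a _ => Finset.sum_congr rfl fun i _ => by
      congr 1
      ring
  have hU0 := ind p v hv U hU hsum
  refine hc (funext fun T => ?_)
  have hz : ∀ (a : Fin A) (i : μ) (j : Fin L) (k : μ), c T j k a i = 0 := by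
    intro a i
    choose d hd using fun (j : Fin L) (k : μ) =>
      IsAlgClosed.exists_pow_nat_eq (c T j k a i) hp.pos
    have e : (Z.φ b (Z.cmb d) * ∏ i ∈ T, ζ i) ^ p = 0 := by
      rw [← show U (T, a, i) = 0 from congrFun hU0 _]
      simp only [U, stnot_eval, Finset.sum_mul, sum_pow_char, smul_mul_assoc,
        _root_.smul_pow, hd]
    have e1 := (mul_eq_zero.1 (pow_eq_zero_iff hp.ne_zero |>.1 e)).resolve_right
      (Finset.prod_ne_zero_iff.2 fun i _ => hζ0 i)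
    have e2 : d = 0 := Z.indep L d ((hker _).1 e1)
    intro j k
    rw [← hd, e2]
    simp [hp.ne_zero]
  funext j k a i
  exact hz a i j k

end Pool.Agent.FS.FiveEighths
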