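import Mathlib
import Pool.Agent.FS.FiveEighths.StNot
import Pool.Agent.FS.FiveEighths.StCoef
import Pool.Agent.FS.FiveEighths.StDvd

set_option maxSynthPendingDepth 8

namespace Pool.Agent.FS.FiveEighths

open Polynomial Pool.Agent.Lib.MP_4a1067_nt Pool.Agent.Lib.MP_4a1067_nt.Am
open scoped PowerSeries

variable {κ P μ : Type*} [Field κ] [CommRing P] [Algebra κ P] [Fintype μ] {p L Ψ : ℕ}
  {S : Finset κ} (Z : Dat κ P μ p L Ψ S) {ι : Type*} [Fintype ι] [DecidableEq ι]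

lemma stmain_hdim {R L e Ψ w A : ℕ} (hR : 1 ≤ R) (hL : 1 ≤ L) (hw : 1 ≤ w) (h0 : 256 * w ≤ e)
    (h1 : e ≤ Ψ) (h2 : Ψ ≤ 128 * e) (hA : (R * L * Ψ) ^ 2 < A * (2 * R * Ψ)) :
    R * L * w * (Ψ * (A + 4 * L + 4 * L * (R * L * w))) < R * L * e * (A * e) := by
  have hΨ : 0 < Ψ := by omega
  have a1 : R * L ^ 2 * Ψ < 2 * A := by
    have : R * Ψ * (R * L ^ 2 * Ψ) < R * Ψ * (2 * A) := by
      calc R * Ψ * (R * L ^ 2 * Ψ) = (R * L * Ψ) ^ 2 := by ring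
        _ < A * (2 * R * Ψ) := hA
        _ = R * Ψ * (2 * A) := by ring
    exact Nat.lt_of_mul_lt_mul_left this
  have a2 : R * L ^ 2 * (256 * w) ≤ R * L ^ 2 * Ψ := Nat.mul_le_mul_left _ (h0.trans h1)
  have a3 : L ≤ L * (R * L * w) :=
    Nat.le_mul_of_pos_right _ (Nat.mul_pos (Nat.mul_pos hR hL) hw)
  have a4 : R * L ^ 2 * (256 * w) = 256 * (L * (R * L * w)) := by ring
  have a5 : 4 * L * (R * L * w) = 4 * (L * (R * L * w)) := by ring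
  have a6 : A + 4 * L + 4 * L * (R * L * w) < 2 * A := by omega
  have a7 : 2 * w * Ψ ≤ e * e := by
    calc 2 * w * Ψ ≤ 2 * w * (128 * e) := Nat.mul_le_mul_left _ h2
      _ = 256 * w * e := by ring
      _ ≤ e * e := Nat.mul_le_mul_right _ h0
  calc R * L * w * (Ψ * (A + 4 * L + 4 * L * (R * L * w))) < R * L * w * (Ψ * (2 * A)) :=
        Nat.mul_lt_mul_of_pos_left (Nat.mul_lt_mul_of_pos_left a6 hΨ)
          (Nat.mul_pos (Nat.mul_pos hR hL) hw)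
    _ = R * L * A * (2 * w * Ψ) := by ring
    _ ≤ R * L * A * (e * e) := Nat.mul_le_mul_left _ a7
    _ = R * L * e * (A * e) := by ring

lemma stmain_hord {R L Ψ B p : ℕ} (hL : 1 ≤ L) (ht : 256 ≤ R * L * Ψ)
    (hsz : (R * L * Ψ) ^ 2 ≤ p) (hB : B * (2 * R * Ψ) ≤ p) : Ψ * (R * (B + 1 + L + L)) < p := by
  have a1 : R * Ψ ≤ R * L * Ψ := Nat.mul_le_mul_right _ (Nat.le_mul_of_pos_right _ hL)
  have a2 : 256 * (R * L * Ψ) ≤ p := by
    refine le_trans ?_ hsz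
    rw [sq]
    exact Nat.mul_le_mul_right _ ht
  have a3 : Ψ * (R * (B + 1 + L + L)) = B * (R * Ψ) + R * Ψ + 2 * (R * L * Ψ) := by ring
  have a4 : B * (2 * R * Ψ) = 2 * (B * (R * Ψ)) := by ring
  omega

theorem Dat.stp [IsAlgClosed κ] [Fact p.Prime] [CharP κ p] (G : ι → P)
    (hG : ∀ T : Finset ι, ∏ i ∈ T, G i ∈ Z.W L)
    (hns : ∀ T : Finset ι, T.Nonempty → ∀ a c : P,
      a ^ 2 - (∏ i ∈ T, G i) * c ^ 2 ∈ Z.I → c ∈ Z.I)
    (hGb : ∀ b ∈ S, ∀ i, PowerSeries.constantCoeff (Z.φ b (G i)) ^ (p / 2) = 1)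
    (hL : 1 ≤ L) (he : 256 ≤ Fintype.card μ) (h1 : Fintype.card μ ≤ Ψ)
    (h2 : Ψ ≤ 128 * Fintype.card μ) (hsz : (2 ^ Fintype.card ι) ^ 2 * L ^ 2 * Ψ ^ 2 ≤ p) :
    S.card * 2 ^ Fintype.card ι ≤ 327680 * p := by
  classical
  rcases S.eq_empty_or_nonempty with h0 | ⟨b₀, hb₀⟩
  · rw [h0, Finset.card_empty, zero_mul]
    exact Nat.zero_le _
  have hR : 1 ≤ 2 ^ Fintype.card ι := Nat.one_le_two_pow
  obtain ⟨R, hRd⟩ : ∃ R, R = 2 ^ Fintype.card ι := ⟨_, rfl⟩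
  obtain ⟨w, hwd⟩ : ∃ w, w = Fintype.card μ / 256 := ⟨_, rfl⟩
  rw [← hRd] at hR hsz ⊢
  have hw : 1 ≤ w := by omega
  have hw0 : 256 * w ≤ Fintype.card μ := by omega
  have hw1 : Ψ ≤ 65536 * w := by omega
  have hsz' : (R * L * Ψ) ^ 2 ≤ p := by rw [mul_pow, mul_pow]; exact hsz
  have ht : 256 ≤ R * L * Ψ :=
    (he.trans h1).trans (Nat.le_mul_of_pos_left _ (Nat.mul_pos hR hL))
  have htp : R * L * Ψ ≤ p := (Nat.le_self_pow two_ne_zero _).trans hsz'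
  have hp2 : p ≠ 2 := by omega
  have hpos : 0 < 2 * R * Ψ := Nat.mul_pos (by omega) (by omega)
  obtain ⟨B, hBd⟩ : ∃ B, B = p / (2 * R * Ψ) := ⟨_, rfl⟩
  have hB : B * (2 * R * Ψ) ≤ p := by rw [hBd]; exact Nat.div_mul_le_self _ _
  have hB' : p < (B + 1) * (2 * R * Ψ) := by
    rw [hBd, mul_comm]; exact Nat.lt_mul_div_succ p hpos
  have hD : R * L * w ≤ p := (Nat.mul_le_mul_left _ (by omega)).trans htp
  obtain ⟨c, hc, hcond⟩ := Z.exists_coeffs G hG (B + 1) (R * L * w) (by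
    rw [← hRd]
    exact stmain_hdim hR hL hw hw0 h1 h2 (hsz'.trans_lt hB'))
  have hG0 : ∀ i, PowerSeries.constantCoeff (Z.φ b₀ (G i)) ≠ 0 := fun i h0 => by
    have h3 := hGb b₀ hb₀ i
    rw [h0, zero_pow (by omega)] at h3
    exact zero_ne_one h3
  have hnot := Z.aux_not_mem hp2 G hG hns (A := B + 1)
    (by rw [← hRd]; exact stmain_hord hL ht hsz' hB) hb₀ hG0 c hc
  have h3 := Z.ordsum (Z.aux_mem G hG c) hnot S subset_rfl (d := R * L * w)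
    fun b hb => Z.aux_dvd hp2 G hD c hcond hb (hGb b hb)
  have h4 : B + 1 ≤ p := by
    have a1 : B * 2 ≤ B * (2 * R * Ψ) := by
      refine Nat.mul_le_mul_left _ ?_
      rw [mul_assoc]
      exact Nat.le_mul_of_pos_right _ (Nat.mul_pos hR (by omega))
    omega
  have h5 : p ≤ p * L := Nat.le_mul_of_pos_right _ hL
  have h6 : L ≤ p * L := Nat.le_mul_of_pos_left _ (by omega)
  have h7 : B + 1 + L + 3 * p * L ≤ 5 * (p * L) := by
    rw [mul_assoc]; omega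
  have h8 : L * w * (S.card * R) ≤ L * w * (327680 * p) := by
    calc L * w * (S.card * R) = R * L * w * S.card := by ring
      _ ≤ Ψ * (B + 1 + L + 3 * p * L) := h3
      _ ≤ 65536 * w * (5 * (p * L)) := Nat.mul_le_mul hw1 h7
      _ = L * w * (327680 * p) := by ring
  exact Nat.le_of_mul_le_mul_left h8 (Nat.mul_pos hL hw)

end Pool.Agent.FS.FiveEighths
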