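import Mathlib
import Pool.Agent.FS.FiveEighths.StMain
import Pool.Agent.FS.FiveEighths.Dim
import Pool.Agent.FS.FiveEighths.Ker

set_option maxSynthPendingDepth 8

namespace Pool.Agent.FS.FiveEighths

open Polynomial Pool.Agent.Lib.MP_4a1067_nt Pool.Agent.Lib.MP_4a1067_nt.Am
open scoped PowerSeries

open IntermediateField

/-- the image in the quotient by the kernel has the rank of the image -/
lemma space_rank {κ A B : Type*} [Field κ] [CommRing A] [CommRing B] [Algebra κ A] [Algebra κ B]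
    (f : A →ₐ[κ] B) (W : Submodule κ A) :
    Module.finrank κ (W.map (Ideal.Quotient.mkₐ κ (RingHom.ker f)).toLinearMap) =
      Module.finrank κ (W.map f.toLinearMap) := by
  have h := (Submodule.equivMapOfInjective (Ideal.kerLiftAlg f).toLinearMap
    (Ideal.kerLiftAlg_injective f)
    (W.map (Ideal.Quotient.mkₐ κ (RingHom.ker f)).toLinearMap)).finrank_eq
  rw [h, ← Submodule.map_comp]
  rfl

lemma space_mon {κ R : Type*} [Field κ] [CommRing R] [Algebra κ R] (x y z : R) (i j : ℕ) :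
    ev3 x y z (C (X ^ i) * X ^ j : κ[X][X][X]) = y ^ i * z ^ j := by
  rw [map_mul, map_pow (ev3 x y z), ev3_C, ev3_X, map_pow, aevalAeval_Y]

lemma space_x {κ R : Type*} [Field κ] [CommRing R] [Algebra κ R] (x y z : R) :
    ev3 x y z (C (C X) : κ[X][X][X]) = x := by
  rw [ev3_C, aevalAeval_C, aeval_X]

/-- the Stepanov bound on the space curve -/
theorem space {κ Ω : Type*} [Field κ] [IsAlgClosed κ] (p : ℕ) [Fact p.Prime] [CharP κ p]
    [Field Ω] [IsAlgClosed Ω] [Algebra κ Ω] (u y₁ y₂ : Ω) (hu : Transcendental κ u)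
    (halg : Algebra.IsAlgebraic κ⟮u⟯ Ω) {L ℓ ℓ' : ℕ} {F₁ F₂ : κ[X][X]}
    (p₁ : Prime F₁) (e₁ : 1 ≤ F₁.natDegree) (l₁ : F₁.natDegree ≤ L)
    (b₁ : F₁ ∈ Bd κ L F₁.natDegree) (z₁ : aevalAeval u y₁ F₁ = 0)
    (p₂ : Prime F₂) (e₂ : 1 ≤ F₂.natDegree) (l₂ : F₂.natDegree ≤ L)
    (b₂ : F₂ ∈ Bd κ L F₂.natDegree) (z₂ : aevalAeval u y₂ F₂ = 0)
    (hT : ∀ z₁ z₂ : Ω, aevalAeval u z₁ F₁ = 0 → aevalAeval u z₂ F₂ = 0 →
      ∀ q : κ[X][X][X], ev3 u y₁ y₂ q = 0 ↔ ev3 u z₁ z₂ q = 0)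
    (hind : ∀ (J : ℕ) (d : Fin J → Fin ℓ × Fin ℓ' → κ),
      ∑ a, ∑ i, d a i • (u ^ (a : ℕ) * (y₁ ^ (i.1 : ℕ) * y₂ ^ (i.2 : ℕ))) = 0 → d = 0)
    (hℓ : ℓ ≤ L) (hℓ' : ℓ' ≤ L) (hL2 : L ^ 2 ≤ 4 * (ℓ * ℓ')) (h256 : 256 ≤ ℓ * ℓ')
    {ι : Type*} [Fintype ι] [DecidableEq ι] (g : ι → κ[X])
    (hg : ∀ T : Finset ι, (∏ i ∈ T, g i).natDegree ≤ L)
    (hns : ∀ T : Finset ι, T.Nonempty → ∀ a c : κ[X][X][X],
      ev3 u y₁ y₂ (a ^ 2 - g3 (∏ i ∈ T, g i) * c ^ 2) = 0 → ev3 u y₁ y₂ c = 0)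
    (hsz : 1024 * (2 ^ Fintype.card ι) ^ 2 * L ^ 6 ≤ p) (S : Finset κ)
    (hS : ∀ a ∈ S, a ^ p = a ∧ ∃ b b', b ^ p = b ∧ b' ^ p = b' ∧ F₁.evalEval a b = 0 ∧
      F₂.evalEval a b' = 0 ∧ ∀ i, ((g i).eval b * (g i).eval b') ^ (p / 2) = 1) :
    S.card * 2 ^ Fintype.card ι ≤ 327690 * p := by
  classical
  have hL : 1 ≤ L := e₁.trans l₁
  have hR : 1 ≤ 2 ^ Fintype.card ι := Nat.one_le_two_pow
  have hL6 : L ^ 2 ≤ L ^ 6 := Nat.pow_le_pow_right hL (by norm_num)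
  have hL1 : L ≤ L ^ 2 := by nlinarith
  have hRR : 2 ^ Fintype.card ι ≤ (2 ^ Fintype.card ι) ^ 2 := by nlinarith
  have hbad : 4 * L ^ 2 * 2 ^ Fintype.card ι ≤ p := by
    refine le_trans ?_ hsz
    calc 4 * L ^ 2 * 2 ^ Fintype.card ι = 4 * 2 ^ Fintype.card ι * L ^ 2 := by ring
      _ ≤ 1024 * (2 ^ Fintype.card ι) ^ 2 * L ^ 6 :=
        Nat.mul_le_mul (Nat.mul_le_mul (by norm_num) hRR) hL6
  have hLp : L < p := by nlinarith
  have c₁ : F₁ ∈ Bd κ L L := Bd_mono b₁ le_rfl l₁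
  have c₂ : F₂ ∈ Bd κ L L := Bd_mono b₂ le_rfl l₂
  choose! f f' hf using fun a (ha : a ∈ S) => (hS a ha).2
  set B₁ := S.filter fun a => F₁.derivative.evalEval a (f a) = 0 with hB₁
  set B₂ := S.filter fun a => F₂.derivative.evalEval a (f' a) = 0 with hB₂
  set S₂ := S.filter fun a => F₁.derivative.evalEval a (f a) ≠ 0 ∧
    F₂.derivative.evalEval a (f' a) ≠ 0 with hS₂
  have k₁ : B₁.card ≤ 3 * L ^ 2 := bad_points p p₁ e₁ l₁ b₁ hLp B₁ fun a ha =>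
    ⟨f a, (hf a (Finset.mem_filter.1 ha).1).2.2.1, (Finset.mem_filter.1 ha).2⟩
  have k₂ : B₂.card ≤ 3 * L ^ 2 := bad_points p p₂ e₂ l₂ b₂ hLp B₂ fun a ha =>
    ⟨f' a, (hf a (Finset.mem_filter.1 ha).1).2.2.2.1, (Finset.mem_filter.1 ha).2⟩
  have k₃ : S.card ≤ B₁.card + B₂.card + S₂.card := by
    refine le_trans (Finset.card_le_card (t := B₁ ∪ B₂ ∪ S₂) fun a ha => ?_)
      ((Finset.card_union_le _ _).trans (Nat.add_le_add_right (Finset.card_union_le _ _) _))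
    simp only [hB₁, hB₂, hS₂, Finset.mem_union, Finset.mem_filter]
    tauto
  have hsub : ∀ a ∈ S₂, a ∈ S := fun a ha => (Finset.mem_filter.1 ha).1
  choose! η₁ hη₁ using fun a (ha : a ∈ S₂) => exists_branch F₁ a (f a)
    (hf a (hsub a ha)).2.2.1 (Finset.mem_filter.1 ha).2.1
  choose! η₂ hη₂ using fun a (ha : a ∈ S₂) => exists_branch F₂ a (f' a)
    (hf a (hsub a ha)).2.2.2.1 (Finset.mem_filter.1 ha).2.2
  obtain ⟨D, hD₁, hD₂⟩ := exists_D c₁ c₂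
  let Z : Dat κ κ[X][X][X] (Fin ℓ × Fin ℓ') p L (32 * L ^ 2) S₂ :=
    { W := W3 κ
      mono := W3_mono
      mul := W3_mul
      one := by rw [← C_1]; exact W3_C Bd_one
      fin := W3_fin
      x := C (C X)
      x_mem := W3_C (Bd_C natDegree_X_le)
      m := fun i => C (X ^ (i.1 : ℕ)) * X ^ (i.2 : ℕ)
      m_mem := fun i => W3_mon (i.1.2.le.trans hℓ) (i.2.2.le.trans hℓ')
      I := RingHom.ker (ev3 u y₁ y₂ : κ[X][X][X] →ₐ[κ] Ω)
      φ := fun b => ev3 (PowerSeries.C b + PowerSeries.X) (η₁ b) (η₂ b)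
      φx := fun b _ => space_x _ _ _
      ker := fun b hb q => by
        rw [RingHom.mem_ker]
        exact ker3 u y₁ y₂ hu halg p₁.ne_zero p₂.ne_zero hT b _ _ (hη₁ b hb).2 (hη₂ b hb).2 q
      indep := fun J d hd => by
        refine hind J d ?_
        rw [RingHom.mem_ker, map_sum] at hd
        refine Eq.trans (Finset.sum_congr rfl fun a _ => ?_) hd
        rw [map_sum]
        refine Finset.sum_congr rfl fun i _ => ?_
        rw [map_smul, map_mul (ev3 u y₁ y₂) (_ ^ _), space_mon, map_pow, space_x]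
      dim := fun n => by
        rw [space_rank]
        exact dim3 u y₁ y₂ hu hL p₁.ne_zero p₂.ne_zero c₁ c₂ z₁ z₂ n
      δ := C (derivative F₁) * in2 (derivative F₂)
      D := D
      D_mem := fun {n q} hq => hD₁ n q hq
      chain := fun b hb q => hD₂ b _ _ (hη₁ b hb).2 (hη₂ b hb).2 q
      δ_ne := fun b hb => by
        rw [map_mul, ev3_C, ev3_in2, map_mul, constantCoeff_aevalAeval, constantCoeff_aevalAeval,
          (hη₁ b hb).1, (hη₂ b hb).1]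
        exact mul_ne_zero (Finset.mem_filter.1 hb).2.1 (Finset.mem_filter.1 hb).2.2
      frob := fun b hb => by
        refine ⟨(hS b (hsub b hb)).1, fun i => ?_⟩
        rw [space_mon, map_mul, map_pow, map_pow, (hη₁ b hb).1, (hη₂ b hb).1, mul_pow,
          pow_right_comm, pow_right_comm (f' b), (hf b (hsub b hb)).1, (hf b (hsub b hb)).2.1] }
  have hcard : Fintype.card (Fin ℓ × Fin ℓ') = ℓ * ℓ' := by
    rw [Fintype.card_prod, Fintype.card_fin, Fintype.card_fin]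
  have k₄ : S₂.card * 2 ^ Fintype.card ι ≤ 327680 * p := by
    refine Z.stp (fun i => g3 (g i)) (fun T => ?_) (fun T hT' a c h => ?_) (fun b hb i => ?_) hL
      (hcard ▸ h256) ?_ ?_ ?_
    · rw [← g3_prod]
      exact W3_g3 (hg T)
    · rw [← g3_prod] at h
      exact RingHom.mem_ker.2 (hns T hT' a c (RingHom.mem_ker.1 h))
    · change PowerSeries.constantCoeff
        (ev3 (PowerSeries.C b + PowerSeries.X) (η₁ b) (η₂ b) (g3 (g i))) ^ (p / 2) = 1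
      rw [ev3_g3, map_mul, amseries_cc_aeval, amseries_cc_aeval, (hη₁ b hb).1, (hη₂ b hb).1]
      exact (hf b (hsub b hb)).2.2.2.2 i
    · rw [hcard]
      have := Nat.mul_le_mul hℓ hℓ'
      nlinarith
    · rw [hcard]
      omega
    · refine le_trans (le_of_eq ?_) hsz
      ring
  calc S.card * 2 ^ Fintype.card ι
      ≤ (3 * L ^ 2 + 3 * L ^ 2 + S₂.card) * 2 ^ Fintype.card ι :=
        Nat.mul_le_mul_right _ (by omega)
    _ = 6 * (L ^ 2 * 2 ^ Fintype.card ι) + S₂.card * 2 ^ Fintype.card ι := by ring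
    _ ≤ 327690 * p := by
        rw [mul_assoc] at hbad
        omega

end Pool.Agent.FS.FiveEighths
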