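import Mathlib
import Pool.Agent.FS.FiveEighths.Def
import Pool.Agent.Lib.MP_4a1067_nt.AmGen2

set_option maxSynthPendingDepth 8

namespace Pool.Agent.FS.FiveEighths

open Polynomial Pool.Agent.Lib.MP_4a1067_nt Pool.Agent.Lib.MP_4a1067_nt.Am
open scoped PowerSeries

open IntermediateField

variable {κ Ω : Type*} [Field κ] [Field Ω] [Algebra κ Ω]

lemma valindep_nat {ℓ ℓ' i i' j j' X Y : ℕ} (hc : ℓ.Coprime ℓ') (hi : i < ℓ) (hi' : i' < ℓ)
    (hj : j < ℓ') (hj' : j' < ℓ')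
    (h : X * (ℓ * ℓ') + (i * ℓ' + j * ℓ) = Y * (ℓ * ℓ') + (i' * ℓ' + j' * ℓ)) :
    i = i' ∧ j = j' ∧ X = Y := by
  have e1 : ℓ * (X * ℓ' + j) + i * ℓ' = ℓ * (Y * ℓ' + j') + i' * ℓ' := by linarith
  have e2 : ℓ' * (X * ℓ + i) + j * ℓ = ℓ' * (Y * ℓ + i') + j' * ℓ := by linarith
  have m1 : i * ℓ' ≡ i' * ℓ' [MOD ℓ] := by
    unfold Nat.ModEq
    rw [← Nat.mul_add_mod ℓ (X * ℓ' + j), e1, Nat.mul_add_mod]
  have m2 : j * ℓ ≡ j' * ℓ [MOD ℓ'] := by
    unfold Nat.ModEq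
    rw [← Nat.mul_add_mod ℓ' (X * ℓ + i), e2, Nat.mul_add_mod]
  have a1 : i = i' := (Nat.ModEq.cancel_right_of_coprime hc m1).eq_of_lt_of_lt hi hi'
  have a2 : j = j' := (Nat.ModEq.cancel_right_of_coprime hc.symm m2).eq_of_lt_of_lt hj hj'
  refine ⟨a1, a2, ?_⟩
  rw [a1, a2] at h
  exact Nat.eq_of_mul_eq_mul_right (Nat.mul_pos (by omega) (by omega)) (Nat.add_right_cancel h)

lemma valindep_sum (U : ValuationSubring Ω) {ι : Type*} [Fintype ι] (f : ι → Ω)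
    (hf : ∀ i j, f i ≠ 0 → f j ≠ 0 → U.valuation (f i) = U.valuation (f j) → i = j)
    (h : ∑ i, f i = 0) (i : ι) : f i = 0 := by
  classical
  by_contra hi
  obtain ⟨j, -, hj⟩ := Finset.exists_max_image Finset.univ (fun i => U.valuation (f i))
    ⟨i, Finset.mem_univ i⟩
  have hj0 : U.valuation (f j) ≠ 0 := fun e => hi (by
    have := hj i (Finset.mem_univ i)
    rw [e, le_zero_iff] at this
    exact (Valuation.zero_iff _).mp this)
  have hs := Valuation.map_sum_eq_of_lt U.valuation (f := f) (Finset.mem_univ j) fun k hk => by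
    refine lt_of_le_of_ne (hj k (Finset.mem_univ k)) fun e => ?_
    have hk0 : f k ≠ 0 := fun e' => hj0 (by rw [← e, e', map_zero])
    exact (Finset.mem_sdiff.mp hk).2
      (Finset.mem_singleton.mpr (hf k j hk0 ((Valuation.ne_zero_iff _).mp hj0) e))
  rw [h, map_zero] at hs
  exact hj0 hs.symm

lemma valindep_mon (u y₁ y₂ : Ω) (U : ValuationSubring Ω) {ℓ ℓ' : ℕ}
    (v₁ : U.valuation y₁ ^ ℓ = U.valuation u) (v₂ : U.valuation y₂ ^ ℓ' = U.valuation u)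
    (i j : ℕ) :
    U.valuation (y₁ ^ i * y₂ ^ j) ^ (ℓ * ℓ') = U.valuation u ^ (i * ℓ' + j * ℓ) := by
  have a1 : (U.valuation y₁ ^ i) ^ (ℓ * ℓ') = U.valuation u ^ (i * ℓ') := by
    rw [← v₁, ← pow_mul, ← pow_mul]
    congr 1
    ring
  have a2 : (U.valuation y₂ ^ j) ^ (ℓ * ℓ') = U.valuation u ^ (j * ℓ) := by
    rw [← v₂, ← pow_mul, ← pow_mul]
    congr 1
    ring
  rw [map_mul, map_pow, map_pow, mul_pow, a1, a2, pow_add]

/-- comparison of two terms with coefficients of known valuation -/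
lemma valindep_cmp (u y₁ y₂ : Ω) (U : ValuationSubring Ω) (hU : 1 < U.valuation u) {ℓ ℓ' : ℕ}
    (hc : ℓ.Coprime ℓ') (v₁ : U.valuation y₁ ^ ℓ = U.valuation u)
    (v₂ : U.valuation y₂ ^ ℓ' = U.valuation u) {c c' : Ω} {a b a' b' : ℕ}
    (h1 : U.valuation c * U.valuation u ^ a = U.valuation u ^ b)
    (h2 : U.valuation c' * U.valuation u ^ a' = U.valuation u ^ b') (i i' : Fin ℓ × Fin ℓ')
    (e : U.valuation (c * (y₁ ^ (i.1 : ℕ) * y₂ ^ (i.2 : ℕ)))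
      = U.valuation (c' * (y₁ ^ (i'.1 : ℕ) * y₂ ^ (i'.2 : ℕ)))) :
    i = i' ∧ b + a' = b' + a := by
  have e1 : U.valuation u ^ (b + a') * U.valuation (y₁ ^ (i.1 : ℕ) * y₂ ^ (i.2 : ℕ))
      = U.valuation u ^ (b' + a) * U.valuation (y₁ ^ (i'.1 : ℕ) * y₂ ^ (i'.2 : ℕ)) := by
    rw [map_mul U.valuation c, map_mul U.valuation c'] at e
    calc _ = U.valuation c * U.valuation (y₁ ^ (i.1 : ℕ) * y₂ ^ (i.2 : ℕ))
          * (U.valuation u ^ a * U.valuation u ^ a') := by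
          rw [pow_add, ← h1]
          ac_rfl
      _ = _ := by
          rw [e, pow_add, ← h2]
          ac_rfl
  have e2 := congrArg (fun t => t ^ (ℓ * ℓ')) e1
  simp only [mul_pow] at e2
  rw [valindep_mon u y₁ y₂ U v₁ v₂, valindep_mon u y₁ y₂ U v₁ v₂, ← pow_mul, ← pow_mul,
    ← pow_add, ← pow_add] at e2
  obtain ⟨a1, a2, a3⟩ := valindep_nat hc i.1.2 i'.1.2 i.2.2 i'.2.2
    ((pow_right_strictMono₀ hU).injective e2)
  exact ⟨Prod.ext (Fin.ext a1) (Fin.ext a2), a3⟩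

lemma valindep_ne (u y₁ y₂ : Ω) (U : ValuationSubring Ω) (hU : 1 < U.valuation u) {ℓ ℓ' : ℕ}
    (v₁ : U.valuation y₁ ^ ℓ = U.valuation u) (v₂ : U.valuation y₂ ^ ℓ' = U.valuation u)
    (i : Fin ℓ × Fin ℓ') : y₁ ^ (i.1 : ℕ) * y₂ ^ (i.2 : ℕ) ≠ 0 := by
  intro e
  have h := valindep_mon u y₁ y₂ U v₁ v₂ i.1 i.2
  rw [e, map_zero, zero_pow (Nat.mul_pos i.1.pos i.2.pos).ne'] at h
  exact pow_ne_zero _ (zero_lt_one.trans hU).ne' h.symm

/-- monomials with different valuations are independent over the constants -/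
theorem indep3 (u y₁ y₂ : Ω) (U : ValuationSubring Ω) (hκ : ∀ c : κ, algebraMap κ Ω c ∈ U)
    (hU : 1 < U.valuation u) {ℓ ℓ' : ℕ} (hc : ℓ.Coprime ℓ')
    (v₁ : U.valuation y₁ ^ ℓ = U.valuation u) (v₂ : U.valuation y₂ ^ ℓ' = U.valuation u)
    (J : ℕ) (d : Fin J → Fin ℓ × Fin ℓ' → κ)
    (h : ∑ a, ∑ i, d a i • (u ^ (a : ℕ) * (y₁ ^ (i.1 : ℕ) * y₂ ^ (i.2 : ℕ))) = 0) : d = 0 := by
  have hu0 : u ≠ 0 := (Valuation.ne_zero_iff _).mp (zero_lt_one.trans hU).ne'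
  let f : Fin J × (Fin ℓ × Fin ℓ') → Ω := fun z =>
    algebraMap κ Ω (d z.1 z.2) * u ^ (z.1 : ℕ) * (y₁ ^ (z.2.1 : ℕ) * y₂ ^ (z.2.2 : ℕ))
  have hv : ∀ z, f z ≠ 0 → U.valuation (algebraMap κ Ω (d z.1 z.2) * u ^ (z.1 : ℕ))
      * U.valuation u ^ 0 = U.valuation u ^ (z.1 : ℕ) := fun z hz => by
    have hd : d z.1 z.2 ≠ 0 := fun e => hz (by simp only [f, e, map_zero, zero_mul])
    rw [map_mul, amgen2_val_one U hκ hd, map_pow, one_mul, pow_zero, mul_one]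
  have hs : ∑ z, f z = 0 := by
    rw [Fintype.sum_prod_type, ← h]
    refine Finset.sum_congr rfl fun a _ => Finset.sum_congr rfl fun i _ => ?_
    rw [Algebra.smul_def, ← mul_assoc]
  have key := valindep_sum U f (fun z w hz hw e => by
    obtain ⟨a1, a2⟩ := valindep_cmp u y₁ y₂ U hU hc v₁ v₂ (hv z hz) (hv w hw) z.2 w.2 e
    exact Prod.ext (Fin.ext (by omega)) a1) hs
  funext a i
  have h0 := key (a, i)
  rcases mul_eq_zero.mp h0 with h1 | h1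
  · rcases mul_eq_zero.mp h1 with h2 | h2
    · exact (_root_.map_eq_zero _).mp h2
    · exact absurd h2 (pow_ne_zero _ hu0)
  · exact absurd h1 (valindep_ne u y₁ y₂ U hU v₁ v₂ i)

/-- the same monomials are independent over the field generated by `u` -/
theorem indepK (u y₁ y₂ : Ω) (U : ValuationSubring Ω) (hκ : ∀ c : κ, algebraMap κ Ω c ∈ U)
    (hU : 1 < U.valuation u) {ℓ ℓ' : ℕ} (hc : ℓ.Coprime ℓ')
    (v₁ : U.valuation y₁ ^ ℓ = U.valuation u) (v₂ : U.valuation y₂ ^ ℓ' = U.valuation u) :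
    LinearIndependent κ⟮u⟯ fun i : Fin ℓ × Fin ℓ' => y₁ ^ (i.1 : ℕ) * y₂ ^ (i.2 : ℕ) := by
  rw [Fintype.linearIndependent_iff]
  intro g h i
  let f : Fin ℓ × Fin ℓ' → Ω := fun z => (g z : Ω) * (y₁ ^ (z.1 : ℕ) * y₂ ^ (z.2 : ℕ))
  have key := valindep_sum U f (fun z w hz hw e => by
    obtain ⟨a, b, h1⟩ := val_adjoin u U hκ hU (g z) (g z).2 (left_ne_zero_of_mul hz)
    obtain ⟨a', b', h2⟩ := val_adjoin u U hκ hU (g w) (g w).2 (left_ne_zero_of_mul hw)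
    exact (valindep_cmp u y₁ y₂ U hU hc v₁ v₂ h1 h2 z w e).1) h
  exact Subtype.ext ((mul_eq_zero.mp (key i)).resolve_right (valindep_ne u y₁ y₂ U hU v₁ v₂ i))

/-- change of the base variable -/
theorem rebase (u y : Ω) (halg : Algebra.IsAlgebraic κ⟮u⟯ Ω) (U : ValuationSubring Ω)
    (hκ : ∀ c : κ, algebraMap κ Ω c ∈ U) (hy : 1 < U.valuation y) (q : κ[X][X]) (hq : q ≠ 0)
    (h0 : aevalAeval u y q = 0) : Transcendental κ y ∧ Algebra.IsAlgebraic κ⟮y⟯ Ω := by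
  have ht : Transcendental κ y := by
    refine transcendental_iff.mpr fun r hr => ?_
    by_contra hne
    have h1 := val_aeval y U hκ hy r hne
    rw [hr, map_zero] at h1
    exact pow_ne_zero _ (zero_lt_one.trans hy).ne' h1.symm
  refine ⟨ht, ?_⟩
  have hs : Bivariate.swap q ≠ 0 := fun h => hq (Bivariate.swap.injective (by rw [h, map_zero]))
  have hu : IsAlgebraic κ⟮y⟯ u :=
    ⟨toK y (Bivariate.swap q), toK_ne_zero ht hs, by
      rw [aeval_toK, Bivariate.aevalAeval_swap, h0]⟩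
  let A : IntermediateField κ⟮y⟯ Ω := algebraicClosure κ⟮y⟯ Ω
  have hle : κ⟮u⟯ ≤ A.restrictScalars κ :=
    adjoin_simple_le_iff.mpr (mem_algebraicClosure_iff.mpr hu)
  have hA : Algebra.IsAlgebraic A Ω := by
    refine ⟨fun z => ?_⟩
    obtain ⟨r, hr0, hr⟩ := halg.isAlgebraic z
    let f : κ⟮u⟯ →+* A :=
      { toFun := fun a => ⟨a.1, hle a.2⟩
        map_one' := rfl
        map_mul' := fun _ _ => rfl
        map_zero' := rfl
        map_add' := fun _ _ => rfl }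
    refine ⟨r.map f, (Polynomial.map_ne_zero_iff f.injective).mpr hr0, ?_⟩
    rw [aeval_def, eval₂_map]
    exact hr
  exact Algebra.IsAlgebraic.trans κ⟮y⟯ A Ω

end Pool.Agent.FS.FiveEighths
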