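import Mathlib
import Pool.Agent.FS.FiveEighths.Val

set_option maxSynthPendingDepth 8

namespace Pool.Agent.FS.FiveEighths

open Polynomial Pool.Agent.Lib.MP_4a1067_nt Pool.Agent.Lib.MP_4a1067_nt.Am
open scoped PowerSeries

open IntermediateField

variable {κ Ω : Type*} [Field κ] [Field Ω] [Algebra κ Ω]

theorem trans_nat {ℓ ℓ' e₁ e₂ f f' : ℕ} (o : ℓ % 2 = 1) (o' : ℓ' % 2 = 1) (hne : ℓ ≠ ℓ')
    (hd : ℓ' + 1 < 2 * ℓ) (hd' : ℓ + 1 < 2 * ℓ') (d₁ : e₁ ≤ ℓ + 1) (d₂ : e₂ ≤ ℓ' + 1)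
    (h : e₁ * f = e₂ * f') (hN : ℓ * ℓ' ≤ e₁ * f) : e₂ ≤ f := by
  by_contra hc
  have hf : f < e₂ := by omega
  have hodd : (ℓ * ℓ') % 2 = 1 := by rw [Nat.mul_mod, o, o']
  have p1 : 0 < ℓ := by omega
  have p2 : 0 < ℓ' := by omega
  have a1 : ℓ ≤ e₁ := by
    refine Nat.le_of_mul_le_mul_right (hN.trans (Nat.mul_le_mul_left _ (by omega))) p2
  have hf' : f' < e₁ := by
    refine Nat.lt_of_mul_lt_mul_left (a := e₂) ?_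
    rw [← h, mul_comm e₂]
    exact Nat.mul_lt_mul_of_pos_left hf (by omega)
  have a2 : ℓ' ≤ e₂ := by
    refine Nat.le_of_mul_le_mul_left (c := ℓ) ?_ p1
    rw [h, mul_comm e₂] at hN
    exact hN.trans (Nat.mul_le_mul_right _ (by omega))
  rcases a1.eq_or_lt with rfl | a1
  · have b1 : ℓ' ≤ f := Nat.le_of_mul_le_mul_left hN p1
    obtain rfl : f = ℓ' := by omega
    obtain rfl : e₂ = f + 1 := by omega
    rw [h, Nat.mul_mod, show (f + 1) % 2 = 0 by omega, zero_mul] at hodd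
    omega
  obtain rfl : e₁ = ℓ + 1 := by omega
  rcases a2.eq_or_lt with rfl | a2
  · have b1 : ℓ ≤ f' := by
      rw [h, mul_comm ℓ] at hN
      exact Nat.le_of_mul_le_mul_left hN p2
    obtain rfl : f' = ℓ := by omega
    rw [mul_comm, ← h, Nat.mul_mod, show (f' + 1) % 2 = 0 by omega, zero_mul] at hodd
    omega
  obtain rfl : e₂ = ℓ' + 1 := by omega
  obtain ⟨a, ha⟩ : ∃ a, ℓ' = f + a := ⟨ℓ' - f, by omega⟩
  obtain ⟨b, hb⟩ : ∃ b, ℓ = f' + b := ⟨ℓ - f', by omega⟩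
  have m1 : (ℓ + 1) * a + ℓ = (ℓ' + 1) * b + ℓ' := by
    have e1 : (ℓ + 1) * ℓ' = (ℓ + 1) * f + (ℓ + 1) * a := by rw [← mul_add, ← ha]
    have e2 : (ℓ' + 1) * ℓ = (ℓ' + 1) * f' + (ℓ' + 1) * b := by rw [← mul_add, ← hb]
    have e3 : (ℓ + 1) * ℓ' + ℓ = (ℓ' + 1) * ℓ + ℓ' := by ring
    omega
  have m2 : (ℓ + 1) * a ≤ ℓ' := by
    have e1 : (ℓ + 1) * ℓ' = (ℓ + 1) * f + (ℓ + 1) * a := by rw [← mul_add, ← ha]
    have e3 : (ℓ + 1) * ℓ' = ℓ * ℓ' + ℓ' := by ring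
    omega
  rcases Nat.eq_zero_or_pos a with rfl | ha0
  · rcases Nat.eq_zero_or_pos b with rfl | hb0
    · omega
    · have := Nat.mul_le_mul_left (ℓ' + 1) hb0
      omega
  · have := Nat.mul_le_mul_left (ℓ + 1) ha0
    rcases Nat.eq_zero_or_pos b with rfl | hb0
    · omega
    · have := Nat.mul_le_mul_left (ℓ' + 1) hb0
      omega

theorem trans_fin {k Ω : Type*} [Field k] [Field Ω] [Algebra k Ω] {y₁ y₂ : Ω}
    (h1 : IsIntegral k y₁) (h2 : IsIntegral k y₂) :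
    Module.finrank k k⟮y₁, y₂⟯ = (minpoly k y₁).natDegree * (minpoly k⟮y₁⟯ y₂).natDegree := by
  rw [← adjoin.finrank h1, ← adjoin.finrank (h2.tower_top (A := k⟮y₁⟯)),
    Module.finrank_mul_finrank, ← adjoin_simple_adjoin_simple]
  rfl

theorem trans_abs {k Ω : Type*} [Field k] [Field Ω] [Algebra k Ω] [IsAlgClosed Ω]
    [Algebra.IsAlgebraic k Ω] (y₁ y₂ : Ω) {ℓ ℓ' : ℕ} (o : ℓ % 2 = 1) (o' : ℓ' % 2 = 1)
    (hne : ℓ ≠ ℓ') (hd : ℓ' + 1 < 2 * ℓ) (hd' : ℓ + 1 < 2 * ℓ')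
    (li : LinearIndependent k fun i : Fin ℓ × Fin ℓ' => y₁ ^ (i.1 : ℕ) * y₂ ^ (i.2 : ℕ))
    (d₁ : (minpoly k y₁).natDegree ≤ ℓ + 1) (d₂ : (minpoly k y₂).natDegree ≤ ℓ' + 1)
    (z₁ z₂ : Ω) (c₁ : aeval z₁ (minpoly k y₁) = 0) (c₂ : aeval z₂ (minpoly k y₂) = 0) :
    ∃ σ : Ω ≃ₐ[k] Ω, σ y₁ = z₁ ∧ σ y₂ = z₂ := by
  have a1 : IsAlgebraic k y₁ := Algebra.IsAlgebraic.isAlgebraic y₁
  have a2 : IsAlgebraic k y₂ := Algebra.IsAlgebraic.isAlgebraic y₂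
  have h1 := a1.isIntegral
  have h2 := a2.isIntegral
  have h3 : IsIntegral k⟮y₁⟯ y₂ := h2.tower_top
  have e1 := trans_fin h1 h2
  have e2 := trans_fin h2 h1
  rw [Set.pair_comm y₂ y₁] at e2
  have m1 : y₁ ∈ k⟮y₁, y₂⟯ := subset_adjoin k _ (Set.mem_insert _ _)
  have m2 : y₂ ∈ k⟮y₁, y₂⟯ := subset_adjoin k _ (Set.mem_insert_of_mem _ rfl)
  have : FiniteDimensional k k⟮y₁, y₂⟯ := finiteDimensional_adjoin_pair h1 h2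
  have li' : LinearIndependent k fun i : Fin ℓ × Fin ℓ' =>
      (⟨y₁ ^ (i.1 : ℕ) * y₂ ^ (i.2 : ℕ), mul_mem (pow_mem m1 _) (pow_mem m2 _)⟩ : k⟮y₁, y₂⟯) :=
    LinearIndependent.of_comp (k⟮y₁, y₂⟯).val.toLinearMap li
  have hN := li'.fintype_card_le_finrank
  rw [Fintype.card_prod, Fintype.card_fin, Fintype.card_fin, e1] at hN
  have hle := trans_nat o o' hne hd hd' d₁ d₂ (e1.symm.trans e2) hN
  have hmin : (minpoly k y₂).map (algebraMap k k⟮y₁⟯) = minpoly k⟮y₁⟯ y₂ :=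
    eq_of_monic_of_dvd_of_natDegree_le (minpoly.monic h3) ((minpoly.monic h2).map _)
      (minpoly.dvd_map_of_isScalarTower k k⟮y₁⟯ y₂) (by rwa [natDegree_map])
  have : IsAlgClosure k Ω := ⟨inferInstance, inferInstance⟩
  have : Normal k Ω := IsAlgClosure.normal k Ω
  have : Normal k⟮y₁⟯ Ω := Normal.tower_top_of_normal k k⟮y₁⟯ Ω
  obtain ⟨τ, hτ⟩ := minpoly.exists_algEquiv_of_root a1 c₁
  have c₃ : aeval (τ z₂) (minpoly k⟮y₁⟯ y₂) = 0 := by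
    rw [← hmin, aeval_map_algebraMap, aeval_algEquiv, AlgHom.comp_apply, c₂, map_zero]
  obtain ⟨ρ, hρ⟩ := minpoly.exists_algEquiv_of_root' h3.isAlgebraic c₃
  have hρ1 : ρ y₁ = y₁ := ρ.commutes ⟨y₁, mem_adjoin_simple_self k y₁⟩
  refine ⟨(ρ.restrictScalars k).trans τ.symm, ?_, ?_⟩
  · rw [AlgEquiv.trans_apply, AlgEquiv.restrictScalars_apply, hρ1, ← hτ, τ.symm_apply_apply]
  · rw [AlgEquiv.trans_apply, AlgEquiv.restrictScalars_apply, hρ, τ.symm_apply_apply]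

/-- all pairs of conjugates are conjugate pairs -/
theorem trans3 [IsAlgClosed Ω] (u y₁ y₂ : Ω) (halg : Algebra.IsAlgebraic κ⟮u⟯ Ω)
    (U : ValuationSubring Ω) (hκ : ∀ c : κ, algebraMap κ Ω c ∈ U) (hU : 1 < U.valuation u)
    {ℓ ℓ' : ℕ} (hℓ : ℓ.Prime) (hℓ' : ℓ'.Prime) (h5 : 5 ≤ ℓ) (h5' : 5 ≤ ℓ') (hne : ℓ ≠ ℓ')
    (hd : ℓ' + 1 < 2 * ℓ) (hd' : ℓ + 1 < 2 * ℓ')
    (v₁ : U.valuation y₁ ^ ℓ = U.valuation u) (v₂ : U.valuation y₂ ^ ℓ' = U.valuation u)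
    (d₁ : (minpoly κ⟮u⟯ y₁).natDegree ≤ ℓ + 1) (d₂ : (minpoly κ⟮u⟯ y₂).natDegree ≤ ℓ' + 1)
    (z₁ z₂ : Ω) (c₁ : aeval z₁ (minpoly κ⟮u⟯ y₁) = 0) (c₂ : aeval z₂ (minpoly κ⟮u⟯ y₂) = 0) :
    ∃ σ : Ω ≃ₐ[κ⟮u⟯] Ω, σ y₁ = z₁ ∧ σ y₂ = z₂ := by
  exact trans_abs y₁ y₂ (hℓ.eq_two_or_odd.resolve_left (by omega))
    (hℓ'.eq_two_or_odd.resolve_left (by omega)) hne hd hd'
    (indepK u y₁ y₂ U hκ hU ((Nat.coprime_primes hℓ hℓ').2 hne) v₁ v₂) d₁ d₂ z₁ z₂ c₁ c₂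

end Pool.Agent.FS.FiveEighths
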