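import Mathlib
import Pool.Agent.FS.FiveEighths.Space
import Pool.Agent.FS.FiveEighths.Trans
import Pool.Agent.FS.FiveEighths.Gen
import Pool.Agent.FS.FiveEighths.Nsq
import Pool.Agent.Lib.MP_4a1067_nt.AmCurve

set_option maxSynthPendingDepth 8

namespace Pool.Agent.FS.FiveEighths

open Polynomial Pool.Agent.Lib.MP_4a1067_nt Pool.Agent.Lib.MP_4a1067_nt.Am
open scoped PowerSeries

open IntermediateField

theorem curve3 (p : ℕ) [Fact p.Prime] (ℓ ℓ' k L : ℕ) (hℓ : ℓ.Prime) (hℓ' : ℓ'.Prime)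
    (hne : ℓ ≠ ℓ') (hk : 60 * 2 ^ (12 + k) < ℓ) (hk' : 60 * 2 ^ (12 + k) < ℓ')
    (hL : ℓ + 1 ≤ L) (hL' : ℓ' + 1 ≤ L) (hd : L < 2 * ℓ) (hd' : L < 2 * ℓ')
    (hsz : 1024 * (2 ^ k) ^ 2 * L ^ 6 ≤ p) (P : Finset (ZMod p))
    (hP : ∀ a ∈ P, a ≠ 0 ∧ a ≠ 1 ∧ ∃ b b', Lnk p ℓ a b ∧ Lnk p ℓ' a b' ∧
      ∀ j < k, uu (12 + j) (-2 / b) * uu (12 + j) (-2 / b') = 1) :
    P.card * 2 ^ k ≤ 327690 * p := by
  classical
  set κ := AlgebraicClosure (ZMod p)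
  have hp : p.Prime := Fact.out
  have k1 : 1 ≤ 2 ^ (12 + k) := Nat.one_le_two_pow
  have h2 : ℓ ≠ 2 := by omega
  have h2' : ℓ' ≠ 2 := by omega
  have hLp : 1024 * L ^ 6 ≤ p := by
    have : 1 ≤ (2 ^ k) ^ 2 := Nat.one_le_pow _ _ (by positivity)
    nlinarith [Nat.zero_le (L ^ 6)]
  have hL1 : 1 ≤ L := by omega
  have hn : ℓ * ℓ' ≤ L ^ 2 := by
    rw [sq]
    exact Nat.mul_le_mul (by omega) (by omega)
  have hL26 : L ^ 2 ≤ L ^ 6 := Nat.pow_le_pow_right hL1 (by norm_num)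
  have hL16 : L ≤ L ^ 6 := Nat.le_self_pow (by norm_num) L
  have hsz' : 24 * (ℓ * ℓ') ^ 3 < p := by
    have : (ℓ * ℓ') ^ 3 ≤ (L ^ 2) ^ 3 := Nat.pow_le_pow_left hn 3
    rw [← pow_mul] at this
    norm_num at this
    omega
  have s1 : ℓ ^ 2 < p := by
    have : ℓ ^ 2 ≤ L ^ 2 := Nat.pow_le_pow_left (by omega) 2
    omega
  have s2 : ℓ' ^ 2 < p := by
    have : ℓ' ^ 2 ≤ L ^ 2 := Nat.pow_le_pow_left (by omega) 2
    omega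
  have h256 : 256 ≤ ℓ * ℓ' := le_trans (by norm_num) (Nat.mul_le_mul
    (show 16 ≤ ℓ by omega) (show 16 ≤ ℓ' by omega))
  have hL2 : L ^ 2 ≤ 4 * (ℓ * ℓ') := by
    rw [sq, show 4 * (ℓ * ℓ') = 2 * ℓ * (2 * ℓ') by ring]
    exact Nat.mul_le_mul hd.le hd'.le
  have hp2 : p ≠ 2 := by omega
  have hdv : ¬ p ∣ 2 * (ℓ * ℓ') := fun h => by
    have := Nat.le_of_dvd (by omega) h
    omega
  obtain ⟨Λ, ω₁, ω₂, ω₃, H, E, P₀, ha, G, hu, halg⟩ := exists_generic p (ℓ * ℓ') hdv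
  have hΩ : CharP (AlgebraicClosure (RatFunc κ)) p :=
    charP_of_injective_algebraMap (algebraMap κ _).injective p
  obtain ⟨U, hκ, hU⟩ := exists_cusp_val _ hu
  have G₁ := G.of_dvd (dvd_mul_right ℓ ℓ')
  have G₂ := G.of_dvd (dvd_mul_left ℓ' ℓ)
  obtain ⟨w₁, hw₁, v₁, d₁, -, F₁, p₁, e₁, l₁, b₁, i₁, a₁⟩ :=
    gen1 H E ha hℓ h2 p hp s1 P₀ G₁ hu U hκ hU
  obtain ⟨w₂, hw₂, v₂, d₂, ⟨T, t1, t2⟩, F₂, p₂, e₂, l₂, b₂, i₂, a₂⟩ :=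
    gen1 H E ha hℓ' h2' p hp s2 P₀ G₂ hu U hκ hU
  have hT : ∀ z₁ z₂, aevalAeval (P₀.ev (-2 / E.lam)) z₁ F₁ = 0 →
      aevalAeval (P₀.ev (-2 / E.lam)) z₂ F₂ = 0 → ∀ q : κ[X][X][X],
      ev3 (P₀.ev (-2 / E.lam)) (P₀.ev w₁) (P₀.ev w₂) q = 0 ↔
        ev3 (P₀.ev (-2 / E.lam)) z₁ z₂ q = 0 := by
    intro z₁ z₂ c₁ c₂ q
    obtain ⟨σ, r₁, r₂⟩ := trans3 _ _ _ halg U hκ hU hℓ hℓ' (by omega) (by omega) hne (by omega)
      (by omega) v₁ v₂ d₁ d₂ z₁ z₂ (root_minpoly _ _ z₁ hu p₁ e₁ i₁ c₁)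
      (root_minpoly _ _ z₂ hu p₂ e₂ i₂ c₂)
    rw [← r₁, ← r₂]
    exact ev3_of_equiv _ _ _ σ q
  have hy1 : 1 < U.valuation (P₀.ev w₁) := by
    by_contra h
    have := pow_le_one₀ (n := ℓ) zero_le (not_lt.mp h)
    rw [v₁] at this
    exact absurd hU (not_lt.mpr this)
  obtain ⟨hy, halg'⟩ := rebase _ _ halg U hκ hy1 F₁ p₁.ne_zero (a₁ w₁ hw₁)
  set φ : ZMod p → κ := fun b => algebraMap (ZMod p) κ (-2 / b) with hφ
  have hfr : ∀ b, φ b ^ p = φ b := fun b => by rw [hφ, ← map_pow, ZMod.pow_card]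
  have t0 : (2 : ZMod p) ≠ 0 := fun e => hp2 ((Nat.prime_dvd_prime_iff_eq hp Nat.prime_two).mp
    ((ZMod.natCast_eq_zero_iff 2 p).mp e))
  have hinj : Function.Injective φ := fun b c e => by
    have e1 := (algebraMap (ZMod p) κ).injective e
    rw [div_eq_mul_inv, div_eq_mul_inv] at e1
    exact inv_injective (mul_left_cancel₀ (neg_ne_zero.mpr t0) e1)
  have hs := space (ι := Fin k) (L := L) p _ _ _ hu halg p₁ e₁ (l₁.trans hL)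
    ⟨b₁.1, fun i => (b₁.2 i).trans hL⟩ (a₁ w₁ hw₁) p₂ e₂ (l₂.trans hL')
    ⟨b₂.1, fun i => (b₂.2 i).trans hL'⟩ (a₂ w₂ hw₂) hT
    (indep3 _ _ _ U hκ hU ((Nat.coprime_primes hℓ hℓ').mpr hne) v₁ v₂) (by omega) (by omega)
    hL2 h256 (fun j => gg κ j) (fun S => (natDegree_prod_gg S).trans (by omega))
    (fun S hS a c hac => by
      by_contra hc
      obtain ⟨ρ, r0, r2, ro⟩ := odd_root (K := κ) p hp hp2 k (by omega) S hS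
      have hdeg := natDegree_prod_gg (K := κ) S
      exact nsq3 H E ha hℓ hℓ' h2 h2' hne p hp hsz' P₀ G hw₁ hy halg' (P₀.ev w₂) T t1
        (fun t ht q => hT _ _ (a₁ w₁ hw₁) (a₂ t (t1 ht)) q) _ (prod_gg_ne_zero S)
        (((Nat.mul_le_mul_left 60 hdeg).trans_lt hk').trans_le t2) ρ r0 r2 ro a c hc hac)
    (by rwa [Fintype.card_fin]) (P.image φ)
    (fun x hx => by
      obtain ⟨a, hb, rfl⟩ := Finset.mem_image.mp hx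
      obtain ⟨a0, a1, b, b', hl, hl', hbits⟩ := hP a hb
      obtain ⟨w, hw, hq⟩ := spec_point H E p (hℓ.odd_of_ne_two h2) hℓ.one_lt P₀ G₁ hu a b a0 a1 hl
      obtain ⟨w', hw', hq'⟩ :=
        spec_point H E p (hℓ'.odd_of_ne_two h2') hℓ'.one_lt P₀ G₂ hu a b' a0 a1 hl'
      refine ⟨hfr a, φ b, φ b', hfr b, hfr b', hq F₁ (a₁ w hw), hq' F₂ (a₂ w' hw'), fun i => ?_⟩
      have := gg_pow (K := κ) hp2 i _ _ (hbits i i.2)
      rwa [gxy, evalEval_mul, evalEval_C, evalEval_map_C] at this)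
  rwa [Fintype.card_fin, Finset.card_image_of_injective _ hinj] at hs

end Pool.Agent.FS.FiveEighths
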