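import Mathlib
import Pool.Agent.FS.FiveEighths.Curve
import Pool.Agent.Lib.MP_4a1067_nt.AmAmp

set_option maxSynthPendingDepth 8

namespace Pool.Agent.FS.FiveEighths

open Polynomial Pool.Agent.Lib.MP_4a1067_nt Pool.Agent.Lib.MP_4a1067_nt.Am
open scoped PowerSeries

/-- linked triples with conjugate maps are few -/
theorem pairs3 (p : ℕ) [Fact p.Prime] (hp2 : p ≠ 2) (ℓ ℓ' k L : ℕ) (hℓ : ℓ.Prime)
    (hℓ' : ℓ'.Prime) (hne : ℓ ≠ ℓ') (hk : 60 * 2 ^ (12 + k) < ℓ) (hk' : 60 * 2 ^ (12 + k) < ℓ')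
    (hL : ℓ + 1 ≤ L) (hL' : ℓ' + 1 ≤ L) (hd : L < 2 * ℓ) (hd' : L < 2 * ℓ')
    (hsz : 1024 * (2 ^ k) ^ 2 * L ^ 6 ≤ p) {α : Type*} (F : Finset α) (a b b' : α → ZMod p)
    (ia : Set.InjOn a F) (ib : Set.InjOn b F)
    (hF : ∀ z ∈ F, a z ≠ 0 ∧ a z ≠ 1 ∧ b z ≠ 0 ∧ Lnk p ℓ (a z) (b z) ∧ Lnk p ℓ' (a z) (b' z) ∧
      ∃ σ : ZMod p ≃ ZMod p, ∀ x, σ (x ^ 2 + -2 / b z) = σ x ^ 2 + -2 / b' z) :
    F.card * 2 ^ k ≤ 327691 * p := by
  classical
  have hp : p.Prime := Fact.out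
  have h2 : (2 : ZMod p) ≠ 0 := by
    intro h
    have : ((2 : ℕ) : ZMod p) = 0 := by exact_mod_cast h
    rw [ZMod.natCast_eq_zero_iff] at this
    exact hp2 ((Nat.prime_dvd_prime_iff_eq hp Nat.prime_two).mp this)
  let bad : α → Prop := fun z => ∃ j < k, uu (12 + j) (-2 / b z) = 0
  have e := Finset.card_filter_add_card_filter_not (s := F) bad
  have h1 : (F.filter bad).card ≤ 2 ^ (12 + k) := by
    have inj : Set.InjOn (fun z : α => -2 / b z) (F.filter bad : Finset α) := by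
      intro z hz w hw hzw
      have hz' := (Finset.mem_filter.mp hz).1
      have hw' := (Finset.mem_filter.mp hw).1
      have b0 := (hF z hz').2.2.1
      have c0 := (hF w hw').2.2.1
      have hbc' : -2 / b z = -2 / b w := hzw
      rw [div_eq_div_iff b0 c0] at hbc'
      exact ib hz' hw' (mul_left_cancel₀ (neg_ne_zero.mpr h2) hbc').symm
    rw [← Finset.card_image_of_injOn inj]
    refine card_uu_zero k _ fun x hx => ?_
    obtain ⟨z, hz, rfl⟩ := Finset.mem_image.mp hx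
    exact (Finset.mem_filter.mp hz).2
  have h3 : (F.filter fun z => ¬ bad z).card * 2 ^ k ≤ 327690 * p := by
    have inj : Set.InjOn a (F.filter (fun z => ¬ bad z) : Finset α) := fun z hz w hw h =>
      ia (Finset.mem_filter.mp hz).1 (Finset.mem_filter.mp hw).1 h
    rw [← Finset.card_image_of_injOn inj]
    refine curve3 p ℓ ℓ' k L hℓ hℓ' hne hk hk' hL hL' hd hd' hsz _ fun x hx => ?_
    obtain ⟨z, hz, rfl⟩ := Finset.mem_image.mp hx
    obtain ⟨hb1, hb2⟩ := Finset.mem_filter.mp hz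
    obtain ⟨a0, a1, b0, hl, hl', σ, hσ⟩ := hF z hb1
    refine ⟨a0, a1, b z, b' z, hl, hl', fun j hj => ?_⟩
    rw [← conj_uu h2 σ hσ]
    rcases uu_cases (12 + j) (-2 / b z) with h | h | h
    · exact absurd ⟨j, hj, h⟩ hb2
    · rw [h]; norm_num
    · rw [h]; norm_num
  have h4 : 2 ^ (12 + k) * 2 ^ k ≤ p := by
    refine le_trans ?_ hsz
    have a1 : 1 ≤ 2 ^ k := Nat.one_le_two_pow
    have a2 : 4096 ≤ ℓ := by
      rw [pow_add] at hk
      omega
    have a3 : 4096 ≤ L := by omega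
    have a4 : L ≤ L ^ 6 := Nat.le_self_pow (by norm_num) L
    calc 2 ^ (12 + k) * 2 ^ k = 1 * (2 ^ k) ^ 2 * 4096 := by ring
      _ ≤ 1024 * (2 ^ k) ^ 2 * L ^ 6 :=
        Nat.mul_le_mul (Nat.mul_le_mul_right _ (by norm_num)) (a3.trans a4)
  have h5 := Nat.mul_le_mul_right (2 ^ k) h1
  rw [← e, add_mul]
  omega

lemma num3 {T a l W I K : ℕ} (ha : 0 < a) (hl : 0 < l) (hT : 0 < T)
    (h1 : T * a * l ≤ 11 * W) (h2 : W ^ 2 * K ≤ a * I * (W * K + 8192275 * (l ^ 2 * T ^ 2)))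
    (hK : 0 < K) : min (T * l) (a * K) ≤ 2000000000 * I := by
  have hW : 0 < W := by
    have : 0 < T * a * l := by positivity
    omega
  rcases le_total (8192275 * (l ^ 2 * T ^ 2)) (W * K) with h | h
  · refine (min_le_left _ _).trans ?_
    have h3 : W * (W * K) ≤ 2 * (a * I) * (W * K) := by
      calc W * (W * K) = W ^ 2 * K := by ring
        _ ≤ a * I * (W * K + 8192275 * (l ^ 2 * T ^ 2)) := h2
        _ ≤ a * I * (W * K + W * K) := Nat.mul_le_mul_left _ (Nat.add_le_add_left h _)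
        _ = 2 * (a * I) * (W * K) := by ring
    have h4 : W ≤ 2 * (a * I) := Nat.le_of_mul_le_mul_right h3 (by positivity)
    have h5 : a * (T * l) ≤ a * (22 * I) := by
      calc a * (T * l) = T * a * l := by ring
        _ ≤ 11 * W := h1
        _ ≤ 11 * (2 * (a * I)) := Nat.mul_le_mul_left _ h4
        _ = a * (22 * I) := by ring
    have := Nat.le_of_mul_le_mul_left h5 ha
    omega
  · refine (min_le_right _ _).trans ?_
    have h3 : (a * (l ^ 2 * T ^ 2)) * (a * K) ≤ (a * (l ^ 2 * T ^ 2)) * (1982530550 * I) := by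
      calc (a * (l ^ 2 * T ^ 2)) * (a * K) = (T * a * l) ^ 2 * K := by ring
        _ ≤ (11 * W) ^ 2 * K := Nat.mul_le_mul_right _ (Nat.pow_le_pow_left h1 2)
        _ = 121 * (W ^ 2 * K) := by ring
        _ ≤ 121 * (a * I * (W * K + 8192275 * (l ^ 2 * T ^ 2))) := Nat.mul_le_mul_left _ h2
        _ ≤ 121 * (a * I * (8192275 * (l ^ 2 * T ^ 2) + 8192275 * (l ^ 2 * T ^ 2))) :=
          Nat.mul_le_mul_left _ (Nat.mul_le_mul_left _ (Nat.add_le_add_right h _))
        _ = (a * (l ^ 2 * T ^ 2)) * (1982530550 * I) := by ring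
    have := Nat.le_of_mul_le_mul_left h3 (by positivity)
    omega

end Pool.Agent.FS.FiveEighths
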