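import Mathlib
import Pool.Agent.FS.FiveEighths.Pairs
import Pool.Agent.FS.FiveEighths.Fam

set_option maxSynthPendingDepth 8

namespace Pool.Agent.FS.FiveEighths

open Polynomial Pool.Agent.Lib.MP_4a1067_nt Pool.Agent.Lib.MP_4a1067_nt.Am
open scoped PowerSeries

theorem amp3 (p : ℕ) [Fact p.Prime] {T L k : ℕ} {𝒜 ℒ : Finset ℕ} (h : Adm3 p T L k 𝒜 ℒ)
    {β : Type} [DecidableEq β] (cl : ZMod p → β)
    (hcl : ∀ a b, cl a = cl b → ∃ σ : ZMod p ≃ ZMod p, ∀ x, σ (x ^ 2 + a) = σ x ^ 2 + b) :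
    min (T * ℒ.card) (𝒜.card * 2 ^ k) ≤ 2000000000 * (Finset.univ.image cl).card := by
  classical
  have hp : p.Prime := Fact.out
  rcases Nat.eq_zero_or_pos 𝒜.card with ha | ha
  · rw [ha, zero_mul]; simp
  have hl : 0 < ℒ.card := lt_of_lt_of_le (by norm_num) h.card
  have hk1 : 1 ≤ 2 ^ k := Nat.one_le_two_pow
  have hbig : ∀ ℓ ∈ ℒ, 1000 ≤ ℓ := fun ℓ hℓ => by
    have := (h.hL ℓ hℓ).2.1
    rw [pow_add] at this
    omega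
  have hL1 : 1000 ≤ L := by
    obtain ⟨ℓ, hℓ⟩ := Finset.card_pos.mp hl
    exact (hbig ℓ hℓ).trans (Nat.le_of_succ_le (h.hL ℓ hℓ).2.2.1)
  have hLT : L ≤ T := by have := h.LT; nlinarith
  have hT : 1000 ≤ T := hL1.trans hLT
  have hTp : 4 * T < p := by have := h.T₁; nlinarith
  have hp2 : p ≠ 2 := by omega
  obtain ⟨s₀, hs1, hs2, hs4⟩ : ∃ s₀ : ℤ, 1 ≤ s₀ ∧ s₀ ≤ 2 ∧ (4 : ℤ) ∣ p + 1 - 2 * s₀ := by
    have := hp.eq_two_or_odd.resolve_left hp2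
    by_cases h4 : p % 4 = 1
    · exact ⟨1, le_rfl, by norm_num, by omega⟩
    · exact ⟨2, by norm_num, le_rfl, by omega⟩
  have hfam : ∀ i : ℕ, ∃ (a : ℕ → ZMod p) (b : ℕ → ℕ → ZMod p), i < T → ∀ A ℓ : ℕ, A.Prime →
      A ≠ 2 → 16 * A ^ 2 < 3 * p → Spl p A (s₀ + 2 * i) → ℓ.Prime → ℓ ≠ 2 → ℓ ≠ p →
      Spl p ℓ (s₀ + 2 * i) → a A ≠ 0 ∧ a A ≠ 1 ∧ b A ℓ ≠ 0 ∧ b A ℓ ≠ 1 ∧
        Hs (p / 2) (a A) ^ 2 = ((2 * (s₀ + 2 * i) : ℤ) : ZMod p) ^ 2 ∧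
        Hs (p / 2) (b A ℓ) ^ 2 = ((2 * (s₀ + 2 * i) : ℤ) : ZMod p) ^ 2 ∧
        Lnk p ℓ (a A) (b A ℓ) ∧
        ∀ A' : ℕ, A'.Prime → A' ≠ 2 → 16 * A' ^ 2 < 3 * p → Spl p A' (s₀ + 2 * i) →
          (a A = a A' → A = A') ∧ (b A ℓ = b A' ℓ → A = A') := by
    intro i
    by_cases hi : i < T
    · have hi' : (i : ℤ) + 1 ≤ T := by exact_mod_cast hi
      have hT1 : 16 * (T : ℤ) ^ 2 < p := by exact_mod_cast h.T₁
      obtain ⟨a, b, hb⟩ := cm_family3 p (s₀ + 2 * i) (by omega)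
        (lt_of_le_of_lt (by nlinarith) hT1) (by omega)
      exact ⟨a, b, fun _ => hb⟩
    · exact ⟨fun _ => 0, fun _ _ => 0, fun h => absurd h hi⟩
  choose C B hB using hfam
  have hAq : ∀ A ∈ 𝒜, A.Prime ∧ A ≠ 2 ∧ 16 * A ^ 2 < 3 * p ∧ ¬ A ∣ p := fun A hA => by
    obtain ⟨a1, a2, a3⟩ := h.hA A hA
    have a4 := h.T₁
    refine ⟨a1, by omega, by nlinarith, fun hd => ?_⟩
    have := (Nat.prime_dvd_prime_iff_eq a1 hp).mp hd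
    omega
  have hLq : ∀ ℓ ∈ ℒ, ℓ.Prime ∧ ℓ ≠ 2 ∧ ℓ ≠ p := fun ℓ hℓ => by
    obtain ⟨a1, a2, a3, a4⟩ := h.hL ℓ hℓ
    have := hbig ℓ hℓ
    exact ⟨a1, by omega, by omega⟩
  have hcount := count T L 𝒜 ℒ (fun q i => Spl p q (s₀ + 2 * i)) (fun q i => spl_add p q s₀ i)
    (fun A hA => ⟨(h.hA A hA).2.1, (h.hA A hA).2.2,
      card_spl p A (hAq A hA).1 (hAq A hA).2.1 (hAq A hA).2.2.2 s₀⟩)
    (fun ℓ hℓ => ⟨(hLq ℓ hℓ).1, hbig ℓ hℓ, Nat.le_of_succ_le (h.hL ℓ hℓ).2.2.1,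
      card_spl p ℓ (hLq ℓ hℓ).1 (hLq ℓ hℓ).2.1
        (fun hd => (hLq ℓ hℓ).2.2 ((Nat.prime_dvd_prime_iff_eq (hLq ℓ hℓ).1 hp).mp hd)) s₀⟩)
    h.card h.LT
  set Ω := (Finset.range T ×ˢ 𝒜 ×ˢ ℒ).filter
    fun x => Spl p x.2.1 (s₀ + 2 * x.1) ∧ Spl p x.2.2 (s₀ + 2 * x.1) with hΩ
  have hmem : ∀ x ∈ Ω, x.1 < T ∧ x.2.1 ∈ 𝒜 ∧ x.2.2 ∈ ℒ ∧ Spl p x.2.1 (s₀ + 2 * x.1) ∧
      Spl p x.2.2 (s₀ + 2 * x.1) := fun x hx => by
    obtain ⟨a1, a2⟩ := Finset.mem_filter.mp hx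
    obtain ⟨a3, a4⟩ := Finset.mem_product.mp a1
    obtain ⟨a5, a6⟩ := Finset.mem_product.mp a4
    exact ⟨Finset.mem_range.mp a3, a5, a6, a2⟩
  have hpt := fun x (hx : x ∈ Ω) => hB x.1 (hmem x hx).1 x.2.1 x.2.2
    (hAq _ (hmem x hx).2.1).1 (hAq _ (hmem x hx).2.1).2.1 (hAq _ (hmem x hx).2.1).2.2.1
    (hmem x hx).2.2.2.1 (hLq _ (hmem x hx).2.2.1).1 (hLq _ (hmem x hx).2.2.1).2.1
    (hLq _ (hmem x hx).2.2.1).2.2 (hmem x hx).2.2.2.2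
  have hHs : ∀ x ∈ Ω, ∀ y ∈ Ω, Hs (p / 2) (B x.1 x.2.1 x.2.2) = Hs (p / 2) (B y.1 y.2.1 y.2.2) →
      x.1 = y.1 := fun x hx y hy e => by
    have a1 : (x.1 : ℤ) + 1 ≤ T := by exact_mod_cast (hmem x hx).1
    have a2 : (y.1 : ℤ) + 1 ≤ T := by exact_mod_cast (hmem y hy).1
    have a3 : 4 * (T : ℤ) < p := by exact_mod_cast hTp
    have := amamp_sq_inj p hp2 (s := s₀ + 2 * x.1) (t := s₀ + 2 * y.1) (by omega) (by omega)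
      (by omega) (by rw [← (hpt x hx).2.2.2.2.2.1, ← (hpt y hy).2.2.2.2.2.1, e])
    omega
  have hHc : ∀ x ∈ Ω, ∀ y ∈ Ω, C x.1 x.2.1 = C y.1 y.2.1 → x.1 = y.1 := fun x hx y hy e => by
    have a1 : (x.1 : ℤ) + 1 ≤ T := by exact_mod_cast (hmem x hx).1
    have a2 : (y.1 : ℤ) + 1 ≤ T := by exact_mod_cast (hmem y hy).1
    have a3 : 4 * (T : ℤ) < p := by exact_mod_cast hTp
    have := amamp_sq_inj p hp2 (s := s₀ + 2 * x.1) (t := s₀ + 2 * y.1) (by omega) (by omega)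
      (by omega) (by rw [← (hpt x hx).2.2.2.2.1, ← (hpt y hy).2.2.2.2.1, e])
    omega
  let φ : ℕ × ℕ × ℕ → ℕ × β := fun x => (x.2.1, cl (-2 / B x.1 x.2.1 x.2.2))
  have hcs := amamp_cs Ω φ (𝒜 ×ˢ Finset.univ.image cl) fun x hx =>
    Finset.mem_product.mpr ⟨(hmem x hx).2.1, Finset.mem_image_of_mem _ (Finset.mem_univ _)⟩
  rw [Finset.card_product] at hcs
  set Q := (Ω ×ˢ Ω).filter fun z => φ z.1 = φ z.2 with hQ
  have hQm : ∀ z ∈ Q, z.1 ∈ Ω ∧ z.2 ∈ Ω ∧ z.1.1 = z.2.1 ∧ z.1.2.1 = z.2.2.1 ∧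
      ∃ σ : ZMod p ≃ ZMod p, ∀ x, σ (x ^ 2 + -2 / B z.1.1 z.1.2.1 z.1.2.2)
        = σ x ^ 2 + -2 / B z.2.1 z.2.2.1 z.2.2.2 := fun z hz => by
    obtain ⟨a1, a2⟩ := Finset.mem_filter.mp hz
    obtain ⟨a3, a4⟩ := Finset.mem_product.mp a1
    obtain ⟨a5, a6⟩ := Prod.mk.inj a2
    obtain ⟨σ, hσ⟩ := hcl _ _ a6
    exact ⟨a3, a4, hHs _ a3 _ a4 (Hs_eq_of_conj p hp2 (hpt _ a3).2.2.1 (hpt _ a3).2.2.2.1
      (hpt _ a4).2.2.1 (hpt _ a4).2.2.2.1 σ hσ), a5, σ, hσ⟩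
  have e := Finset.card_filter_add_card_filter_not (s := Q) fun z => z.1.2.2 = z.2.2.2
  have hdiag : (Q.filter fun z => z.1.2.2 = z.2.2.2).card ≤ Ω.card := by
    refine Finset.card_le_card_of_injOn (fun z => z.1)
      (fun z hz => (hQm z (Finset.mem_filter.mp hz).1).1) fun z hz w hw hzw => ?_
    obtain ⟨a1, a2⟩ := Finset.mem_filter.mp hz
    obtain ⟨b1, b2⟩ := Finset.mem_filter.mp hw
    have e1 : z.1 = z.2 := Prod.ext (hQm z a1).2.2.1 (Prod.ext (hQm z a1).2.2.2.1 a2)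
    have e2 : w.1 = w.2 := Prod.ext (hQm w b1).2.2.1 (Prod.ext (hQm w b1).2.2.2.1 b2)
    have e3 : z.1 = w.1 := hzw
    exact Prod.ext e3 (by rw [← e1, ← e2, e3])
  have hoff : (Q.filter fun z => ¬ z.1.2.2 = z.2.2.2).card * 2 ^ k ≤
      ℒ.card ^ 2 * (327691 * p) := by
    rw [Finset.card_eq_sum_card_fiberwise (f := fun z : (ℕ × ℕ × ℕ) × ℕ × ℕ × ℕ =>
      (z.1.2.2, z.2.2.2)) (t := ℒ ×ˢ ℒ) (fun z hz => by
        have a1 := hQm z (Finset.mem_filter.mp hz).1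
        exact Finset.mem_product.mpr ⟨(hmem _ a1.1).2.2.1, (hmem _ a1.2.1).2.2.1⟩),
      Finset.sum_mul, sq, ← Finset.card_product, ← smul_eq_mul]
    refine Finset.sum_le_card_nsmul _ _ _ fun c hc => ?_
    obtain ⟨c1, c2⟩ := Finset.mem_product.mp hc
    by_cases hne : c.1 = c.2
    · rw [Finset.filter_eq_empty_iff.mpr, Finset.card_empty, zero_mul]
      · exact Nat.zero_le _
      · intro z hz ez
        apply (Finset.mem_filter.mp hz).2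
        rw [← ez] at hne
        exact hne
    set F := (Q.filter fun z => ¬ z.1.2.2 = z.2.2.2).filter fun z => (z.1.2.2, z.2.2.2) = c
      with hF
    have hFm : ∀ z ∈ F, z ∈ Q ∧ z.1.2.2 = c.1 ∧ z.2.2.2 = c.2 := fun z hz => by
      obtain ⟨a1, a2⟩ := Finset.mem_filter.mp hz
      exact ⟨(Finset.mem_filter.mp a1).1, by rw [← a2], by rw [← a2]⟩
    have inj : Set.InjOn (fun z : (ℕ × ℕ × ℕ) × ℕ × ℕ × ℕ => B z.1.1 z.1.2.1 z.1.2.2) F := by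
      intro z hz w hw hzw
      obtain ⟨a1, a2, a3⟩ := hFm z hz
      obtain ⟨b1, b2, b3⟩ := hFm w hw
      obtain ⟨z1, -, z3, z4, -⟩ := hQm z a1
      obtain ⟨w1, -, w3, w4, -⟩ := hQm w b1
      have e0 : B z.1.1 z.1.2.1 z.1.2.2 = B w.1.1 w.1.2.1 w.1.2.2 := hzw
      have e1 : z.1.1 = w.1.1 := hHs _ z1 _ w1 (by rw [e0])
      have e2 : z.1.2.1 = w.1.2.1 := by
        have q := hAq _ (hmem _ w1).2.1
        refine ((hpt _ z1).2.2.2.2.2.2.2 _ q.1 q.2.1 q.2.2.1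
          (by rw [e1]; exact (hmem _ w1).2.2.2.1)).2 ?_
        rw [e0, e1, a2, b2]
      exact Prod.ext (Prod.ext e1 (Prod.ext e2 (a2.trans b2.symm)))
        (Prod.ext (by rw [← z3, ← w3, e1]) (Prod.ext (by rw [← z4, ← w4, e2]) (a3.trans b3.symm)))
    have injc : Set.InjOn (fun z : (ℕ × ℕ × ℕ) × ℕ × ℕ × ℕ => C z.1.1 z.1.2.1) F := by
      intro z hz w hw hzw
      obtain ⟨a1, a2, a3⟩ := hFm z hz
      obtain ⟨b1, b2, b3⟩ := hFm w hw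
      obtain ⟨z1, -, z3, z4, -⟩ := hQm z a1
      obtain ⟨w1, -, w3, w4, -⟩ := hQm w b1
      have e0 : C z.1.1 z.1.2.1 = C w.1.1 w.1.2.1 := hzw
      have e1 : z.1.1 = w.1.1 := hHc _ z1 _ w1 e0
      have e2 : z.1.2.1 = w.1.2.1 := by
        have q := hAq _ (hmem _ w1).2.1
        refine ((hpt _ z1).2.2.2.2.2.2.2 _ q.1 q.2.1 q.2.2.1
          (by rw [e1]; exact (hmem _ w1).2.2.2.1)).1 ?_
        rw [e0, e1]
      exact Prod.ext (Prod.ext e1 (Prod.ext e2 (a2.trans b2.symm)))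
        (Prod.ext (by rw [← z3, ← w3, e1]) (Prod.ext (by rw [← z4, ← w4, e2]) (a3.trans b3.symm)))
    refine pairs3 p hp2 c.1 c.2 k L (hLq _ c1).1 (hLq _ c2).1 hne
      (h.hL _ c1).2.1 (h.hL _ c2).2.1 (h.hL _ c1).2.2.1 (h.hL _ c2).2.2.1 (h.hL _ c1).2.2.2
      (h.hL _ c2).2.2.2 h.sz F (fun z => C z.1.1 z.1.2.1) (fun z => B z.1.1 z.1.2.1 z.1.2.2)
      (fun z => B z.2.1 z.2.2.1 z.2.2.2) injc inj fun z hz => ?_
    obtain ⟨a1, a2, a3⟩ := hFm z hz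
    obtain ⟨z1, z2, z3, z4, σ, hσ⟩ := hQm z a1
    refine ⟨(hpt _ z1).1, (hpt _ z1).2.1, (hpt _ z1).2.2.1, ?_, ?_, σ, hσ⟩
    · rw [← a2]
      exact (hpt _ z1).2.2.2.2.2.2.1
    · have := (hpt _ z2).2.2.2.2.2.2.1
      rw [← a3]
      show Lnk p z.2.2.2 (C z.1.1 z.1.2.1) (B z.2.1 z.2.2.1 z.2.2.2)
      rw [z3, z4]
      exact this
  refine num3 ha hl (by omega) hcount ?_ (by omega)
  refine (Nat.mul_le_mul_right _ hcs).trans ?_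
  rw [mul_assoc]
  refine Nat.mul_le_mul_left _ ?_
  rw [← e, add_mul]
  refine Nat.add_le_add (Nat.mul_le_mul_right _ hdiag) (hoff.trans ?_)
  have := h.T₂
  calc ℒ.card ^ 2 * (327691 * p) ≤ ℒ.card ^ 2 * (327691 * (25 * T ^ 2)) :=
        Nat.mul_le_mul_left _ (Nat.mul_le_mul_left _ this)
    _ = 8192275 * (ℒ.card ^ 2 * T ^ 2) := by ring

end Pool.Agent.FS.FiveEighths
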