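import Mathlib
import Pool.Agent.FS.FiveEighths.Def
import Pool.Agent.Lib.MP_4a1067_nt.AmParams

set_option maxSynthPendingDepth 8

namespace Pool.Agent.FS.FiveEighths

open Polynomial Pool.Agent.Lib.MP_4a1067_nt Pool.Agent.Lib.MP_4a1067_nt.Am
open scoped PowerSeries

theorem params_third (M : ℕ) : ∃ N, M ≤ N ∧ N ≤ 4 * M ∧
    ((Finset.Ioc M (8 * M)).filter Nat.Prime).card ≤
      3 * ((Finset.Ioc N (2 * N)).filter Nat.Prime).card := by
  have h : (Finset.Ioc M (8 * M)).filter Nat.Prime ⊆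
      ((Finset.Ioc M (2 * M)).filter Nat.Prime ∪
        (Finset.Ioc (2 * M) (2 * (2 * M))).filter Nat.Prime) ∪
        (Finset.Ioc (4 * M) (2 * (4 * M))).filter Nat.Prime := by
    intro q hq
    obtain ⟨h1, h2⟩ := Finset.mem_filter.1 hq
    have h3 := Finset.mem_Ioc.1 h1
    simp only [Finset.mem_union, Finset.mem_filter, Finset.mem_Ioc, h2, and_true]
    omega
  have h1 := (Finset.card_le_card h).trans ((Finset.card_union_le _ _).trans
    (Nat.add_le_add_right (Finset.card_union_le _ _) _))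
  by_contra hc
  push Not at hc
  have a := hc M le_rfl (by omega)
  have b := hc (2 * M) (by omega) (by omega)
  have c := hc (4 * M) (by omega) le_rfl
  omega

theorem params_many {M : ℕ} (hM : 200 ^ 4 ≤ M) :
    300 ≤ ((Finset.Ioc M (8 * M)).filter Nat.Prime).card := by
  obtain ⟨b1, -⟩ := amparams_cnt hM
  have hM' : (200 : ℝ) ^ 4 ≤ M := by exact_mod_cast hM
  have l0 : 0 < Real.log (8 * M : ℕ) := Real.log_pos (by push_cast; linarith)
  have l1 : Real.log (8 * M : ℕ) ≤ 13 + M / 1024 := by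
    have e : ((8 * M : ℕ) : ℝ) = 2 ^ 13 * (M / 1024) := by
      push_cast
      ring
    have h0 : (0 : ℝ) < M / 1024 := by linarith
    rw [e, Real.log_mul (by norm_num) h0.ne', Real.log_pow]
    have h1 := Real.log_le_self h0.le
    have h2 := Real.log_two_lt_d9
    push_cast
    linarith
  have h5 : 300 * Real.log (8 * M : ℕ) ≤
      ((Finset.Ioc M (8 * M)).filter Nat.Prime).card * Real.log (8 * M : ℕ) := by linarith
  exact_mod_cast le_of_mul_le_mul_right h5 l0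

theorem params3 : ∃ c : ℝ, 0 < c ∧ ∃ p₀ : ℕ, ∀ p : ℕ, p₀ ≤ p →
    ∃ (T L k : ℕ) (𝒜 ℒ : Finset ℕ), Adm3 p T L k 𝒜 ℒ ∧
      c * (p : ℝ) ^ (5 / 8 : ℝ) / Real.log p ≤ (T * ℒ.card : ℕ) ∧
      c * (p : ℝ) ^ (5 / 8 : ℝ) / Real.log p ≤ (𝒜.card * 2 ^ k : ℕ) := by
  obtain ⟨p₀, hp₀⟩ : ∃ p₀, ∀ p, p₀ ≤ p → p ≠ 0 ∧ 248 ≤ Nat.log 2 p := by
    have : ∀ n p, 2 ^ n ≤ p → p ≠ 0 ∧ n ≤ Nat.log 2 p := fun n p hp =>
      ⟨((Nat.two_pow_pos n).trans_le hp).ne', Nat.le_log_of_pow_le (by norm_num) hp⟩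
    exact ⟨_, this 248⟩
  refine ⟨1 / (4000 * 2 ^ 18), by positivity, p₀, fun p hp => ?_⟩
  obtain ⟨hp0, hlog⟩ := hp₀ p hp
  obtain ⟨k, hk⟩ : ∃ k, k = (Nat.log 2 p - 136) / 8 := ⟨_, rfl⟩
  have k0 : 14 ≤ k := by omega
  have k1 : 2 ^ (136 + 8 * k) ≤ p :=
    (Nat.pow_le_pow_right (by norm_num) (by omega)).trans (Nat.pow_log_le_self 2 hp0)
  have k2 : p ≤ 2 ^ (144 + 8 * k) :=
    (Nat.lt_pow_succ_log_self (b := 2) (by norm_num) p).le.trans
      (Nat.pow_le_pow_right (by norm_num) (by omega))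
  obtain ⟨K, hK⟩ : ∃ K, K = 2 ^ k := ⟨_, rfl⟩
  have K0 : 2 ^ 14 ≤ K := hK ▸ Nat.pow_le_pow_right (by norm_num) k0
  rw [pow_add, mul_comm 8 k, pow_mul, ← hK] at k1 k2
  have K1 : 1 ≤ K := le_trans (by norm_num) K0
  have K2 : K ^ 4 ≤ K ^ 8 := Nat.pow_le_pow_right K1 (by norm_num)
  have K3 : K ≤ K ^ 8 := Nat.le_self_pow (by norm_num) K
  have K4 : 1 ≤ K ^ 2 := Nat.one_le_pow _ _ K1
  obtain ⟨T, hT⟩ : ∃ T, T = Nat.sqrt ((p - 1) / 16) := ⟨_, rfl⟩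
  have T1 : T ^ 2 ≤ (p - 1) / 16 := hT ▸ Nat.sqrt_le' _
  have T2 : (p - 1) / 16 < (T + 1) ^ 2 := hT ▸ Nat.lt_succ_sqrt' _
  have T3 : p ≤ 16 * (T + 1) ^ 2 := by omega
  have T4 : 4 ≤ T := by
    refine le_of_not_gt fun h => ?_
    have : (T + 1) ^ 2 ≤ 4 ^ 2 := Nat.pow_le_pow_left (by omega) 2
    omega
  have T5 : p ≤ 25 * T ^ 2 := by
    have h1 : (4 * (T + 1)) ^ 2 ≤ (5 * T) ^ 2 := Nat.pow_le_pow_left (by omega) 2
    rw [mul_pow, mul_pow] at h1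
    omega
  have T6 : 2 ^ 49 * K ^ 2 ≤ T := by
    refine le_of_not_gt fun h => ?_
    have h1 : T ^ 2 ≤ (2 ^ 49 * K ^ 2) ^ 2 := Nat.pow_le_pow_left h.le 2
    rw [mul_pow, ← pow_mul K] at h1
    norm_num at h1 k1
    omega
  have T7 : T ≤ p := by
    have := Nat.le_self_pow (n := 2) (by norm_num) T
    omega
  obtain ⟨M, hM⟩ : ∃ M, M = 60 * 2 ^ (12 + k) := ⟨_, rfl⟩
  have M1 : M = 245760 * K := by
    rw [hM, pow_add, ← hK]
    ring
  obtain ⟨m, hm⟩ : ∃ m, m = T / 400 := ⟨_, rfl⟩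
  obtain ⟨a1, -⟩ := amparams_cnt (m := m) (by omega)
  obtain ⟨b1, -⟩ := amparams_cnt (m := M) (by omega)
  have b2 := params_many (M := M) (by omega)
  obtain ⟨N, N1, N2, N3⟩ := params_third M
  have N4 : 2 * N ≤ 2 ^ 21 * K := by omega
  have hp1 : (1 : ℝ) < p := by exact_mod_cast (by omega : 1 < p)
  have l0 := Real.log_pos hp1
  have a2 : Real.log (8 * m : ℕ) ≤ Real.log p :=
    Real.log_le_log (by exact_mod_cast (by omega : 0 < 8 * m))
      (by exact_mod_cast (by omega : 8 * m ≤ p))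
  have b3 : Real.log (8 * M : ℕ) ≤ Real.log p :=
    Real.log_le_log (by exact_mod_cast (by omega : 0 < 8 * M))
      (by exact_mod_cast (by omega : 8 * M ≤ p))
  have r1 : (p : ℝ) ^ (5 / 8 : ℝ) ≤ 5 * T * (2 ^ 18 * K) := by
    rw [show (5 / 8 : ℝ) = ((2 : ℕ) : ℝ)⁻¹ + ((8 : ℕ) : ℝ)⁻¹ by norm_num,
      Real.rpow_add (by linarith)]
    refine mul_le_mul (amparams_root (by linarith) (by positivity) (by norm_num) ?_)
      (amparams_root (by linarith) (by positivity) (by norm_num) ?_) (by positivity)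
      (by positivity)
    · have : (p : ℝ) ≤ 25 * T ^ 2 := by exact_mod_cast T5
      linarith [show (5 * T : ℝ) ^ 2 = 25 * T ^ 2 by ring]
    · rw [mul_pow, ← pow_mul]
      exact_mod_cast k2
  have r2 : 1 / (4000 * 2 ^ 18) * (p : ℝ) ^ (5 / 8 : ℝ) ≤ T * K / 800 := by linarith
  refine ⟨T, 2 * N, k, (Finset.Ioc m (8 * m)).filter Nat.Prime,
    (Finset.Ioc N (2 * N)).filter Nat.Prime, ⟨by omega, T5, fun A hA => ?_, fun l hl => ?_,
      by omega, ?_, ?_⟩, ?_, ?_⟩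
  · obtain ⟨h1, h2⟩ := Finset.mem_filter.1 hA
    have h3 := Finset.mem_Ioc.1 h1
    exact ⟨h2, by omega, by omega⟩
  · obtain ⟨h1, h2⟩ := Finset.mem_filter.1 hl
    have h3 := Finset.mem_Ioc.1 h1
    have h4 := h2.eq_two_or_odd
    exact ⟨h2, hM ▸ (N1.trans_lt h3.1), by omega, by omega⟩
  · have h1 : (2 * N) ^ 2 ≤ (2 ^ 21 * K) ^ 2 := Nat.pow_le_pow_left N4 2
    rw [mul_pow (2 ^ 21) K] at h1
    omega
  · have h1 : (2 * N) ^ 6 ≤ (2 ^ 21 * K) ^ 6 := Nat.pow_le_pow_left N4 6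
    rw [← hK]
    refine (Nat.mul_le_mul_left _ h1).trans (le_trans ?_ k1)
    rw [show 1024 * K ^ 2 * (2 ^ 21 * K) ^ 6 = 2 ^ 136 * K ^ 8 by ring]
  · rw [div_le_iff₀ l0]
    refine r2.trans ?_
    have h1 : (3 * K : ℝ) ≤ M := by exact_mod_cast (by omega : 3 * K ≤ M)
    have h2 := mul_le_mul_of_nonneg_left b3
      (Nat.cast_nonneg (α := ℝ) ((Finset.Ioc M (8 * M)).filter Nat.Prime).card)
    have h5 : (((Finset.Ioc M (8 * M)).filter Nat.Prime).card : ℝ) ≤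
        3 * ((Finset.Ioc N (2 * N)).filter Nat.Prime).card := by exact_mod_cast N3
    have h6 := mul_le_mul_of_nonneg_right h5 l0.le
    have h3 := mul_le_mul_of_nonneg_left (h1.trans (b1.trans (h2.trans h6)))
      (Nat.cast_nonneg (α := ℝ) T)
    have h4 : (0 : ℝ) ≤ T * K := by positivity
    push_cast
    linarith
  · rw [div_le_iff₀ l0, ← hK]
    refine r2.trans ?_
    have h1 : (T : ℝ) ≤ 800 * m := by exact_mod_cast (by omega : T ≤ 800 * m)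
    have h2 := mul_le_mul_of_nonneg_left a2
      (Nat.cast_nonneg (α := ℝ) ((Finset.Ioc m (8 * m)).filter Nat.Prime).card)
    have h3 := mul_le_mul_of_nonneg_right (a1.trans h2) (Nat.cast_nonneg (α := ℝ) K)
    have h4 := mul_le_mul_of_nonneg_right h1 (Nat.cast_nonneg (α := ℝ) K)
    push_cast
    linarith

end Pool.Agent.FS.FiveEighths
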